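import Mathlib

open Finset Module

namespace Pool.Agent.NearPlotkin

universe u v

section basic

variable {F : Type*} [Field F] [Fintype F] [DecidableEq F]
variable {V : Type u} [AddCommGroup V] [Module F V] [Fintype V]

/-- The indicator of the kernel of a functional, as a real number. -/
noncomputable def kerInd (φ : Module.Dual F V) (c : V) : ℝ := if φ c = 0 then 1 else 0

theorem card_ker_mul (φ : Module.Dual F V) (hφ : φ ≠ 0) :
    (univ.filter (fun c : V => φ c = 0)).card * Fintype.card F = Fintype.card V := by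
  classical
  have h1 := Module.Dual.finrank_ker_add_one_of_ne_zero (f := φ) hφ
  have h2 : Fintype.card (LinearMap.ker φ) = Fintype.card F ^ finrank F (LinearMap.ker φ) :=
    Module.card_eq_pow_finrank
  have h3 : Fintype.card V = Fintype.card F ^ finrank F V := Module.card_eq_pow_finrank
  have h4 : (univ.filter (fun c : V => φ c = 0)).card = Fintype.card (LinearMap.ker φ) := by
    rw [Fintype.card_subtype]
    congr 1; ext c; simp
  rw [h4, h2, h3, ← h1, pow_succ]

theorem card_ker_inf_mul (φ ψ : Module.Dual F V) (hφ : φ ≠ 0) (hψ : ψ ≠ 0) :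
    Fintype.card V ≤ (univ.filter (fun c : V => φ c = 0 ∧ ψ c = 0)).card * Fintype.card F ^ 2 := by
  classical
  have h1 := Module.Dual.finrank_ker_add_one_of_ne_zero (f := φ) hφ
  have h1' := Module.Dual.finrank_ker_add_one_of_ne_zero (f := ψ) hψ
  have h5 := Submodule.finrank_sup_add_finrank_inf_eq (LinearMap.ker φ) (LinearMap.ker ψ)
  have h6 : finrank F ↥(LinearMap.ker φ ⊔ LinearMap.ker ψ) ≤ finrank F V := Submodule.finrank_le _
  have h2 : Fintype.card ↥(LinearMap.ker φ ⊓ LinearMap.ker ψ) =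
      Fintype.card F ^ finrank F ↥(LinearMap.ker φ ⊓ LinearMap.ker ψ) :=
    Module.card_eq_pow_finrank
  have h3 : Fintype.card V = Fintype.card F ^ finrank F V := Module.card_eq_pow_finrank
  have h4 : (univ.filter (fun c : V => φ c = 0 ∧ ψ c = 0)).card =
      Fintype.card ↥(LinearMap.ker φ ⊓ LinearMap.ker ψ) := by
    rw [Fintype.card_subtype]
    congr 1; ext c; simp
  rw [h4, h2, h3, ← pow_add]
  apply Nat.pow_le_pow_right Fintype.card_pos
  omega

theorem sum_kerInd (φ : Module.Dual F V) (hφ : φ ≠ 0) :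
    (Fintype.card F : ℝ) * ∑ c : V, kerInd φ c = Fintype.card V := by
  have h := card_ker_mul φ hφ
  have h1 : ∑ c : V, kerInd φ c = ((univ.filter (fun c : V => φ c = 0)).card : ℝ) := by
    unfold kerInd
    rw [Finset.sum_boole]
  rw [h1, mul_comm]
  exact_mod_cast h

theorem sum_kerInd_mul (φ ψ : Module.Dual F V) (hφ : φ ≠ 0) (hψ : ψ ≠ 0) :
    (Fintype.card V : ℝ) ≤ (Fintype.card F : ℝ) ^ 2 * ∑ c : V, kerInd φ c * kerInd ψ c := by
  have h := card_ker_inf_mul φ ψ hφ hψ
  have h1 : ∑ c : V, kerInd φ c * kerInd ψ c =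
      ((univ.filter (fun c : V => φ c = 0 ∧ ψ c = 0)).card : ℝ) := by
    unfold kerInd
    rw [← Finset.sum_boole]
    apply Finset.sum_congr rfl
    intro c _
    by_cases h1 : φ c = 0 <;> by_cases h2 : ψ c = 0 <;> simp [h1, h2]
  rw [h1, mul_comm]
  exact_mod_cast h

/-- centred kernel function -/
noncomputable def hh (φ : Module.Dual F V) (c : V) : ℝ := (Fintype.card F : ℝ) * kerInd φ c - 1

theorem sum_hh (φ : Module.Dual F V) (hφ : φ ≠ 0) : ∑ c : V, hh φ c = 0 := by
  unfold hh
  rw [Finset.sum_sub_distrib, ← Finset.mul_sum, sum_kerInd φ hφ]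
  simp

theorem sum_hh_mul (φ ψ : Module.Dual F V) (hφ : φ ≠ 0) (hψ : ψ ≠ 0) :
    0 ≤ ∑ c : V, hh φ c * hh ψ c := by
  have h1 := sum_kerInd φ hφ
  have h2 := sum_kerInd ψ hψ
  have h3 := sum_kerInd_mul φ ψ hφ hψ
  have h4 : ∑ c : V, hh φ c * hh ψ c =
      (Fintype.card F : ℝ) ^ 2 * ∑ c : V, kerInd φ c * kerInd ψ c
        - (Fintype.card F : ℝ) * ∑ c : V, kerInd φ c
        - (Fintype.card F : ℝ) * ∑ c : V, kerInd ψ c + Fintype.card V := by
    have : (Fintype.card V : ℝ) = ∑ c : V, (1 : ℝ) := by simp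
    rw [this, Finset.mul_sum, Finset.mul_sum, Finset.mul_sum, ← Finset.sum_sub_distrib,
      ← Finset.sum_sub_distrib, ← Finset.sum_add_distrib]
    apply Finset.sum_congr rfl
    intro c _
    unfold hh
    ring
  rw [h4, h1, h2]
  linarith

theorem sum_hh_sq (φ : Module.Dual F V) (hφ : φ ≠ 0) :
    ∑ c : V, hh φ c ^ 2 = ((Fintype.card F : ℝ) - 1) * Fintype.card V := by
  have h1 := sum_kerInd φ hφ
  have h4 : ∑ c : V, hh φ c ^ 2 =
      ((Fintype.card F : ℝ) - 2) * ((Fintype.card F : ℝ) * ∑ c : V, kerInd φ c)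
        + Fintype.card V := by
    have : (Fintype.card V : ℝ) = ∑ c : V, (1 : ℝ) := by simp
    rw [this, Finset.mul_sum, Finset.mul_sum, ← Finset.sum_add_distrib]
    apply Finset.sum_congr rfl
    intro c _
    unfold hh kerInd
    split_ifs <;> ring
  rw [h4, h1]
  ring

end basic

section multi

variable {F : Type*} [Field F] [Fintype F] [DecidableEq F]
variable {V : Type u} [AddCommGroup V] [Module F V] [Fintype V]
variable {ι : Type v}

/-- `g_S(c) = ∑_{i∈S} (q [e_i c = 0] - 1)` -/
noncomputable def gS (e : ι → Module.Dual F V) (S : Finset ι) (c : V) : ℝ := ∑ i ∈ S, hh (e i) c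

omit [Fintype V] in
theorem gS_eq (e : ι → Module.Dual F V) (S : Finset ι) (c : V) :
    gS e S c = (Fintype.card F : ℝ) * ((S.filter (fun i => e i c = 0)).card : ℝ) - S.card := by
  unfold gS hh kerInd
  rw [Finset.sum_sub_distrib, ← Finset.mul_sum, Finset.sum_boole]
  simp

theorem sum_gS (e : ι → Module.Dual F V) (S : Finset ι) (he : ∀ i ∈ S, e i ≠ 0) :
    ∑ c : V, gS e S c = 0 := by
  unfold gS
  rw [Finset.sum_comm]
  apply Finset.sum_eq_zero
  intro i hi
  exact sum_hh _ (he i hi)

theorem sum_gS_sq (e : ι → Module.Dual F V) (S : Finset ι) (he : ∀ i ∈ S, e i ≠ 0) :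
    ((Fintype.card F : ℝ) - 1) * S.card * Fintype.card V ≤ ∑ c : V, gS e S c ^ 2 := by
  classical
  have h1 : ∑ c : V, gS e S c ^ 2 = ∑ i ∈ S, ∑ i' ∈ S, ∑ c : V, hh (e i) c * hh (e i') c := by
    unfold gS
    have : ∀ c : V, (∑ i ∈ S, hh (e i) c) ^ 2 = ∑ i ∈ S, ∑ i' ∈ S, hh (e i) c * hh (e i') c := by
      intro c
      rw [sq, Finset.sum_mul_sum]
    simp_rw [this]
    rw [Finset.sum_comm]
    apply Finset.sum_congr rfl
    intro i _
    rw [Finset.sum_comm]
  rw [h1]
  have h2 : ∀ i ∈ S, ((Fintype.card F : ℝ) - 1) * Fintype.card V ≤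
      ∑ i' ∈ S, ∑ c : V, hh (e i) c * hh (e i') c := by
    intro i hi
    have h3 : ∑ c : V, hh (e i) c * hh (e i) c ≤ ∑ i' ∈ S, ∑ c : V, hh (e i) c * hh (e i') c := by
      apply Finset.single_le_sum (f := fun i' => ∑ c : V, hh (e i) c * hh (e i') c) _ hi
      intro i' hi'
      exact sum_hh_mul _ _ (he i hi) (he i' hi')
    have h4 := sum_hh_sq (e i) (he i hi)
    simp_rw [sq] at h4
    linarith
  calc ((Fintype.card F : ℝ) - 1) * S.card * Fintype.card V
      = ∑ i ∈ S, ((Fintype.card F : ℝ) - 1) * Fintype.card V := by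
        rw [Finset.sum_const, nsmul_eq_mul]; ring
    _ ≤ _ := Finset.sum_le_sum h2

end multi

section balla

variable {F : Type*} [Field F] [Fintype F] [DecidableEq F]
variable {V : Type u} [AddCommGroup V] [Module F V] [Fintype V]

/-- For one functional. -/
theorem balla_one (φ : Module.Dual F V) (P : V → ℝ) :
    (∑ c, P c * hh φ c) ^ 2 ≤
      ((Fintype.card F : ℝ) - 1) * ∑ c, ∑ c', P c * P c' * hh φ (c - c') := by
  classical
  set q : ℝ := (Fintype.card F : ℝ) with hq
  set p : F → ℝ := fun a => ∑ c : V, if φ c = a then P c else 0 with hp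
  set T : ℝ := ∑ c, P c with hT
  have hTp : T = ∑ a, p a := by
    rw [hT, hp]
    simp only
    rw [Finset.sum_comm]
    apply Finset.sum_congr rfl
    intro c _
    simp
  have h1 : ∑ c, P c * hh φ c = q * p 0 - T := by
    rw [hT, hp]
    simp only
    rw [Finset.mul_sum, ← Finset.sum_sub_distrib]
    apply Finset.sum_congr rfl
    intro c _
    unfold hh kerInd
    split_ifs <;> ring
  have h2 : ∑ c, ∑ c', P c * P c' * hh φ (c - c') = q * ∑ a, p a ^ 2 - T ^ 2 := by
    have h3 : ∑ a, p a ^ 2 = ∑ c, ∑ c', P c * P c' * kerInd φ (c - c') := by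
      have : ∀ a, p a ^ 2 = ∑ c, ∑ c', (if φ c = a then P c else 0) * (if φ c' = a then P c' else 0) := by
        intro a
        rw [hp]
        simp only
        rw [sq, Finset.sum_mul_sum]
      simp_rw [this]
      rw [Finset.sum_comm]
      apply Finset.sum_congr rfl
      intro c _
      rw [Finset.sum_comm]
      apply Finset.sum_congr rfl
      intro c' _
      unfold kerInd
      rw [Finset.sum_eq_single (φ c)]
      · by_cases h : φ c' = φ c
        · have : φ (c - c') = 0 := by rw [map_sub, h, sub_self]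
          simp [h, this]
        · have : φ (c - c') ≠ 0 := by
            rw [map_sub]
            intro h'
            exact h (sub_eq_zero.mp h').symm
          rw [if_neg h, if_neg this]; ring
      · intro b _ hb
        simp [Ne.symm hb]
      · simp
    rw [h3, hT, sq, Finset.sum_mul_sum, Finset.mul_sum, ← Finset.sum_sub_distrib]
    apply Finset.sum_congr rfl
    intro c _
    rw [Finset.mul_sum, ← Finset.sum_sub_distrib]
    apply Finset.sum_congr rfl
    intro c' _
    unfold hh
    ring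
  rw [h1, h2]
  -- Cauchy–Schwarz on nonzero values
  have h5 : ∑ a, p a = p 0 + ∑ a ∈ univ.erase (0 : F), p a := by
    rw [Finset.add_sum_erase _ _ (Finset.mem_univ _)]
  have h6 : ∑ a, p a ^ 2 = p 0 ^ 2 + ∑ a ∈ univ.erase (0 : F), p a ^ 2 := by
    rw [Finset.add_sum_erase _ (fun a => p a ^ 2) (Finset.mem_univ _)]
  have h7 : (∑ a ∈ univ.erase (0 : F), p a) ^ 2 ≤ (q - 1) * ∑ a ∈ univ.erase (0 : F), p a ^ 2 := by
    have := sq_sum_le_card_mul_sum_sq (s := univ.erase (0 : F)) (f := p)
    rw [Finset.card_erase_of_mem (Finset.mem_univ _), Finset.card_univ,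
      Nat.cast_sub Fintype.card_pos] at this
    simpa [hq] using this
  have hq1 : 1 ≤ q := by
    rw [hq]; exact_mod_cast Fintype.card_pos
  set A := ∑ a ∈ univ.erase (0 : F), p a
  set B := ∑ a ∈ univ.erase (0 : F), p a ^ 2
  rw [hTp, h5, h6]
  nlinarith [h7, mul_nonneg (by linarith : (0:ℝ) ≤ q) (by linarith [h7] : (0:ℝ) ≤ (q - 1) * B - A ^ 2)]

end balla

section balla2

variable {F : Type*} [Field F] [Fintype F] [DecidableEq F]
variable {V : Type u} [AddCommGroup V] [Module F V] [Fintype V]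
variable {ι : Type v}

theorem balla (e : ι → Module.Dual F V) (S : Finset ι) (P : V → ℝ) :
    (∑ c, P c * gS e S c) ^ 2 ≤
      (((Fintype.card F : ℝ) - 1) * S.card) * ∑ c, ∑ c', P c * P c' * gS e S (c - c') := by
  classical
  have h1 : ∑ c, P c * gS e S c = ∑ i ∈ S, ∑ c, P c * hh (e i) c := by
    unfold gS
    rw [Finset.sum_comm]
    apply Finset.sum_congr rfl
    intro c _
    rw [Finset.mul_sum]
  have h2 : ∑ c, ∑ c', P c * P c' * gS e S (c - c') =
      ∑ i ∈ S, ∑ c, ∑ c', P c * P c' * hh (e i) (c - c') := by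
    unfold gS
    symm
    rw [Finset.sum_comm]
    apply Finset.sum_congr rfl
    intro c _
    rw [Finset.sum_comm]
    apply Finset.sum_congr rfl
    intro c' _
    rw [Finset.mul_sum]
  rw [h1, h2]
  calc (∑ i ∈ S, ∑ c, P c * hh (e i) c) ^ 2
      ≤ S.card * ∑ i ∈ S, (∑ c, P c * hh (e i) c) ^ 2 := sq_sum_le_card_mul_sum_sq
    _ ≤ S.card * ∑ i ∈ S, ((Fintype.card F : ℝ) - 1) * ∑ c, ∑ c', P c * P c' * hh (e i) (c - c') := by
        apply mul_le_mul_of_nonneg_left _ (by positivity)
        apply Finset.sum_le_sum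
        intro i _
        exact balla_one (e i) P
    _ = _ := by rw [← Finset.mul_sum]; ring

end balla2

end Pool.Agent.NearPlotkin
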