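import Mathlib
import Pool.Agent.helper17.Core1

open Finset Module

namespace Pool.Agent.NearPlotkin

universe u v

theorem numB_final (D N X j : ℝ) (hj : 0 ≤ j) (hN : 8 * (j + 1) ^ 3 ≤ N) (hXD : X = 2 * N + D)
    (hDpos : 16 * (j + 1) ^ 3 < D)
    (h6 : N * (D / 2 + j - 2 * j ^ 2) ≤ 2 * j * (j + 1 / 2) ^ 2 * X) : False := by
  have h13 : (j + 1) ^ 3 = j ^ 3 + 3 * j ^ 2 + 3 * j + 1 := by ring
  have hj2 : 0 ≤ j ^ 2 := by positivity
  have hj3 : 0 ≤ j ^ 3 := by positivity
  rw [h13] at hDpos hN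
  have hNpos : 0 < N := by linarith
  rw [hXD] at h6
  have e8 : 8 * j * (j + 1 / 2) ^ 2 = 8 * j ^ 3 + 8 * j ^ 2 + 2 * j := by ring
  have h8 : 8 * j * (j + 1 / 2) ^ 2 ≤ N := by
    rw [e8]; linarith
  have h9 : 0 ≤ (N - 8 * j * (j + 1 / 2) ^ 2) * D :=
    mul_nonneg (by linarith) (by linarith)
  have h10 : N * (D / 4 + j - 2 * j ^ 2) ≤ N * (4 * j * (j + 1 / 2) ^ 2) := by linarith
  have h11 : D / 4 + j - 2 * j ^ 2 ≤ 4 * j * (j + 1 / 2) ^ 2 := le_of_mul_le_mul_left h10 hNpos
  have h12 : 4 * j * (j + 1 / 2) ^ 2 = 4 * j ^ 3 + 4 * j ^ 2 + j := by ring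
  rw [h12] at h11
  linarith

theorem numB_mid (X N j T Q D : ℝ) (hj : 0 ≤ j) (hN : 8 * (j + 1) ^ 3 ≤ N) (hX : 1 ≤ X)
    (hD : D = X - 2 * N) (hDpos : 16 * (j + 1) ^ 3 < D)
    (hT : T = j * (X - 1) + N) (hQ : j ^ 2 * (X - 1) + X * N - N ^ 2 + 2 * j * N ≤ Q)
    (hB : (j * T - Q) ^ 2 ≤ N * (j * T ^ 2 + (N - j) * Q)) :
    N * (D / 2 + j - 2 * j ^ 2) ≤ 2 * j * (j + 1 / 2) ^ 2 * X := by
  have h13 : (j + 1) ^ 3 = j ^ 3 + 3 * j ^ 2 + 3 * j + 1 := by ring
  have hj2 : 0 ≤ j ^ 2 := by positivity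
  have hj3 : 0 ≤ j ^ 3 := by positivity
  rw [h13] at hDpos hN
  have hNpos : 0 < N := by linarith
  have hDp : 0 < D := by linarith
  have hXpos : 0 < X := by linarith
  have hNX : N ≤ X / 2 := by linarith
  have h2 : 2 * j ^ 2 ≤ N := by linarith
  -- the bracket
  have hb0 : N * (D / 2 + j - 2 * j ^ 2) ≤ N * (X - 2 * N + j) - j ^ 2 * (X - 1) := by
    have h1 : N * (X - 2 * N + j) - j ^ 2 * (X - 1) = N * (D + j) - j ^ 2 * (2 * N + D) + j ^ 2 := by
      rw [hD]; ring
    rw [h1]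
    have h3 : 0 ≤ (N - 2 * j ^ 2) * D := mul_nonneg (by linarith) (by linarith)
    linarith
  have hbpos : 0 < D / 2 + j - 2 * j ^ 2 := by linarith
  have h4 : Q * (Q - 2 * j * T - N * (N - j)) ≤ j * T ^ 2 * (N - j) := by linarith
  have hQ0 : X * N / 2 ≤ Q := by
    have h5 : 0 ≤ j ^ 2 * (X - 1) := mul_nonneg hj2 (by linarith)
    have h6 : 0 ≤ j * N := mul_nonneg hj hNpos.le
    have h7 : 0 ≤ N * (X / 2 - N) := mul_nonneg hNpos.le (by linarith)
    linarith
  have hbr : N * (D / 2 + j - 2 * j ^ 2) ≤ Q - 2 * j * T - N * (N - j) := by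
    calc N * (D / 2 + j - 2 * j ^ 2) ≤ N * (X - 2 * N + j) - j ^ 2 * (X - 1) := hb0
      _ = (j ^ 2 * (X - 1) + X * N - N ^ 2 + 2 * j * N) - 2 * j * T - N * (N - j) := by
          rw [hT]; ring
      _ ≤ _ := by linarith
  have hNj : j ≤ N := by linarith
  have hTle : T ≤ (j + 1 / 2) * X := by rw [hT]; linarith
  have hTpos : 0 ≤ T := by
    rw [hT]
    have := mul_nonneg hj (by linarith : (0:ℝ) ≤ X - 1)
    linarith
  have hT2 : T ^ 2 ≤ ((j + 1 / 2) * X) ^ 2 := pow_le_pow_left₀ hTpos hTle 2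
  have h5 : (X * N / 2) * (N * (D / 2 + j - 2 * j ^ 2)) ≤ j * ((j + 1 / 2) * X) ^ 2 * N := by
    calc (X * N / 2) * (N * (D / 2 + j - 2 * j ^ 2))
        ≤ Q * (Q - 2 * j * T - N * (N - j)) := by
          apply mul_le_mul hQ0 hbr (mul_nonneg hNpos.le hbpos.le) (le_trans (by positivity) hQ0)
      _ ≤ j * T ^ 2 * (N - j) := h4
      _ ≤ j * ((j + 1 / 2) * X) ^ 2 * N := by
          apply mul_le_mul _ (by linarith) (by linarith) (by positivity)
          exact mul_le_mul_of_nonneg_left hT2 hj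
  have h7 : (X * N) * (N * (D / 2 + j - 2 * j ^ 2)) ≤ (X * N) * (2 * j * (j + 1 / 2) ^ 2 * X) := by
    linarith [h5]
  exact le_of_mul_le_mul_left h7 (by positivity)

/-- Numeric part of Lemma B. -/
theorem numB (X N j T Q : ℝ) (hj : 0 ≤ j) (hN : 8 * (j + 1) ^ 3 ≤ N) (hX : 1 ≤ X)
    (hT : T = j * (X - 1) + N) (hQ : j ^ 2 * (X - 1) + X * N - N ^ 2 + 2 * j * N ≤ Q)
    (hB : (j * T - Q) ^ 2 ≤ N * (j * T ^ 2 + (N - j) * Q)) :
    X ≤ 2 * N + 16 * (j + 1) ^ 3 := by
  by_contra hcon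
  push Not at hcon
  have hDpos : 16 * (j + 1) ^ 3 < X - 2 * N := by linarith
  exact numB_final (X - 2 * N) N X j hj hN (by ring) hDpos
    (numB_mid X N j T Q (X - 2 * N) hj hN hX rfl hDpos hT hQ hB)

section code

variable {F : Type*} [Field F] [Fintype F] [DecidableEq F]
variable {V : Type u} [AddCommGroup V] [Module F V] [Fintype V]
variable {ι : Type v} [Fintype ι]

/-- number of coordinates at which `c` vanishes -/
def zc (e : ι → Module.Dual F V) (c : V) : ℕ := (univ.filter (fun i => e i c = 0)).card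

/-- Abstract code: `V` is the code, `e i` its coordinate functionals. -/
structure Nice (e : ι → Module.Dual F V) (j : ℕ) : Prop where
  ne : ∀ i, e i ≠ 0
  up : ∀ c : V, c ≠ 0 → Fintype.card F * zc e c ≤ Fintype.card ι + j
  inj : ∀ c : V, c ≠ 0 → zc e c < Fintype.card ι

omit [Fintype V] in
theorem gS_univ (e : ι → Module.Dual F V) (c : V) :
    gS e univ c = (Fintype.card F : ℝ) * zc e c - Fintype.card ι := by
  rw [gS_eq]; simp [zc]

omit [Fintype F] [Fintype V] in
theorem zc_zero (e : ι → Module.Dual F V) : zc e 0 = Fintype.card ι := by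
  simp [zc]

variable {e : ι → Module.Dual F V} {j : ℕ}

theorem Nice.gle (h : Nice e j) {c : V} (hc : c ≠ 0) : gS e univ c ≤ j := by
  rw [gS_univ]
  have := h.up c hc
  have h2 : (Fintype.card F : ℝ) * zc e c ≤ Fintype.card ι + j := by exact_mod_cast this
  linarith

theorem gS_zero (e : ι → Module.Dual F V) :
    gS e univ (0 : V) = ((Fintype.card F : ℝ) - 1) * Fintype.card ι := by
  rw [gS_univ, zc_zero]; ring

variable [DecidableEq V]

/-- the weight function -/
noncomputable def PP (e : ι → Module.Dual F V) (j : ℕ) (c : V) : ℝ :=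
  if c = 0 then 0 else (j : ℝ) - gS e univ c

theorem Nice.PP_nonneg (h : Nice e j) (c : V) : 0 ≤ PP e j c := by
  unfold PP
  split_ifs with hc
  · exact le_refl _
  · have := h.gle hc; linarith

theorem Nice.sum_PP (h : Nice e j) :
    ∑ c, PP e j c = j * ((Fintype.card V : ℝ) - 1) + ((Fintype.card F : ℝ) - 1) * Fintype.card ι := by
  have h1 := sum_gS e univ (fun i _ => h.ne i)
  have h2 : ∑ c, PP e j c = ∑ c : V, ((j : ℝ) - gS e univ c) - ((j : ℝ) - gS e univ (0 : V)) := by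
    rw [← Finset.add_sum_erase univ (fun c => PP e j c) (Finset.mem_univ (0 : V)),
      ← Finset.add_sum_erase univ (fun c : V => ((j : ℝ) - gS e univ c)) (Finset.mem_univ (0 : V))]
    have : ∑ x ∈ univ.erase (0 : V), PP e j x = ∑ x ∈ univ.erase (0 : V), ((j : ℝ) - gS e univ x) := by
      apply Finset.sum_congr rfl
      intro c hc
      unfold PP
      rw [if_neg (Finset.ne_of_mem_erase hc)]
    rw [this]
    have h3 : PP e j (0 : V) = 0 := by simp [PP]
    rw [h3]; ring
  rw [h2, Finset.sum_sub_distrib, h1, gS_zero]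
  simp
  ring

theorem Nice.sum_PP_sq (h : Nice e j) :
    (j : ℝ) ^ 2 * ((Fintype.card V : ℝ) - 1)
      + Fintype.card V * (((Fintype.card F : ℝ) - 1) * Fintype.card ι)
      - (((Fintype.card F : ℝ) - 1) * Fintype.card ι) ^ 2
      + 2 * j * (((Fintype.card F : ℝ) - 1) * Fintype.card ι) ≤ ∑ c, PP e j c ^ 2 := by
  have h1 := sum_gS e univ (fun i _ => h.ne i)
  have h1' := sum_gS_sq e univ (fun i _ => h.ne i)
  have h2 : ∑ c, PP e j c ^ 2 =
      ∑ c : V, ((j : ℝ) - gS e univ c) ^ 2 - ((j : ℝ) - gS e univ (0 : V)) ^ 2 := by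
    rw [← Finset.add_sum_erase univ (fun c => PP e j c ^ 2) (Finset.mem_univ (0 : V)),
      ← Finset.add_sum_erase univ (fun c : V => ((j : ℝ) - gS e univ c) ^ 2)
        (Finset.mem_univ (0 : V))]
    have : ∑ x ∈ univ.erase (0 : V), PP e j x ^ 2 =
        ∑ x ∈ univ.erase (0 : V), ((j : ℝ) - gS e univ x) ^ 2 := by
      apply Finset.sum_congr rfl
      intro c hc
      unfold PP
      rw [if_neg (Finset.ne_of_mem_erase hc)]
    rw [this]
    have h3 : PP e j (0 : V) = 0 := by simp [PP]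
    rw [h3]; ring
  have h4 : ∑ c : V, ((j : ℝ) - gS e univ c) ^ 2 =
      (j : ℝ) ^ 2 * Fintype.card V - 2 * j * ∑ c : V, gS e univ c + ∑ c : V, gS e univ c ^ 2 := by
    have : (Fintype.card V : ℝ) = ∑ c : V, (1 : ℝ) := by simp
    rw [this, Finset.mul_sum, Finset.mul_sum, ← Finset.sum_sub_distrib, ← Finset.sum_add_distrib]
    apply Finset.sum_congr rfl
    intro c _
    ring
  rw [h2, h4, h1, gS_zero]
  rw [Finset.card_univ] at h1'
  nlinarith [h1']

theorem Nice.balla_ineq (h : Nice e j) :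
    (j * ∑ c, PP e j c - ∑ c, PP e j c ^ 2) ^ 2 ≤
      (((Fintype.card F : ℝ) - 1) * Fintype.card ι) *
        (j * (∑ c, PP e j c) ^ 2 +
          ((((Fintype.card F : ℝ) - 1) * Fintype.card ι) - j) * ∑ c, PP e j c ^ 2) := by
  have hb := balla e univ (PP e j)
  have h1 : ∑ c, PP e j c * gS e univ c = j * ∑ c, PP e j c - ∑ c, PP e j c ^ 2 := by
    rw [Finset.mul_sum, ← Finset.sum_sub_distrib]
    apply Finset.sum_congr rfl
    intro c _
    unfold PP
    split_ifs <;> ring
  have h2 : ∑ c, ∑ c', PP e j c * PP e j c' * gS e univ (c - c') ≤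
      j * (∑ c, PP e j c) ^ 2 +
          ((((Fintype.card F : ℝ) - 1) * Fintype.card ι) - j) * ∑ c, PP e j c ^ 2 := by
    have h3 : ∀ c : V, ∑ c', PP e j c * PP e j c' * gS e univ (c - c') ≤
        ∑ c', (j * (PP e j c * PP e j c') +
          if c = c' then ((((Fintype.card F : ℝ) - 1) * Fintype.card ι) - j) * PP e j c ^ 2 else 0) := by
      intro c
      apply Finset.sum_le_sum
      intro c' _
      split_ifs with hcc
      · subst hcc
        rw [sub_self, gS_zero]
        nlinarith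
      · have h5 := h.gle (sub_ne_zero.mpr hcc)
        have h6 := mul_nonneg (h.PP_nonneg c) (h.PP_nonneg c')
        nlinarith
    calc _ ≤ ∑ c : V, ∑ c' : V, (j * (PP e j c * PP e j c') +
          if c = c' then ((((Fintype.card F : ℝ) - 1) * Fintype.card ι) - j) * PP e j c ^ 2 else 0) :=
          Finset.sum_le_sum (fun c _ => h3 c)
      _ = _ := by
          simp_rw [Finset.sum_add_distrib]
          rw [sq, Finset.sum_mul_sum, Finset.mul_sum, Finset.mul_sum]
          congr 1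
          · apply Finset.sum_congr rfl
            intro c _
            rw [Finset.mul_sum]
          · apply Finset.sum_congr rfl
            intro c _
            simp
  rw [h1, Finset.card_univ] at hb
  have hq : 1 ≤ (Fintype.card F : ℝ) := by exact_mod_cast Fintype.card_pos
  have hN : 0 ≤ (((Fintype.card F : ℝ) - 1) * Fintype.card ι) :=
    mul_nonneg (by linarith) (by positivity)
  exact le_trans hb (mul_le_mul_of_nonneg_left h2 hN)

/-- Lemma B. -/
theorem Nice.lemmaB (h : Nice e j)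
    (hN : 8 * ((j : ℝ) + 1) ^ 3 ≤ ((Fintype.card F : ℝ) - 1) * Fintype.card ι) :
    (Fintype.card V : ℝ) ≤ 2 * (((Fintype.card F : ℝ) - 1) * Fintype.card ι)
      + 16 * ((j : ℝ) + 1) ^ 3 := by
  have hV : 1 ≤ (Fintype.card V : ℝ) := by
    have : 0 < Fintype.card V := Fintype.card_pos_iff.mpr ⟨0⟩
    exact_mod_cast this
  exact numB _ _ _ (∑ c, PP e j c) (∑ c, PP e j c ^ 2) (by positivity) hN hV h.sum_PP h.sum_PP_sq
    h.balla_ineq

/-- Step: existence of a heavy codeword. -/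
theorem Nice.heavy (h : Nice e j) (hn : Fintype.card F * Fintype.card ι ≤ Fintype.card V)
    (hn0 : 0 < Fintype.card ι) :
    ∃ c : V, c ≠ 0 ∧ Fintype.card F * (j + 1) * (Fintype.card F * zc e c) +
      (Fintype.card F - 1) * Fintype.card ι ≤ Fintype.card F * (j + 1) * Fintype.card ι := by
  by_contra hcon
  push Not at hcon
  set q : ℝ := (Fintype.card F : ℝ) with hq
  set n : ℝ := (Fintype.card ι : ℝ) with hnn
  set X : ℝ := (Fintype.card V : ℝ) with hX
  have hq2 : 2 ≤ q := by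
    have : 1 < Fintype.card F := Fintype.one_lt_card
    rw [hq]; exact_mod_cast this
  have hn0' : 0 < n := by rw [hnn]; exact_mod_cast hn0
  have hnX : q * n ≤ X := by rw [hq, hnn, hX]; exact_mod_cast hn
  set τ : ℝ := j + (q - 1) * n / (q * (j + 1)) with hτ
  have hj0 : (0 : ℝ) ≤ j := by positivity
  have hlt : ∀ c : V, PP e j c ≤ τ := by
    intro c
    unfold PP
    split_ifs with hc
    · rw [hτ]
      have : 0 ≤ (q - 1) * n / (q * (j + 1)) := by
        apply div_nonneg
        · apply mul_nonneg <;> linarith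
        · positivity
      linarith
    · have h1 := hcon c hc
      have h2 : q * (j + 1) * n < q * (j + 1) * (q * zc e c) + (q - 1) * n := by
        have h3 : ((Fintype.card F * (j + 1) * Fintype.card ι : ℕ) : ℝ) <
            ((Fintype.card F * (j + 1) * (Fintype.card F * zc e c) +
              (Fintype.card F - 1) * Fintype.card ι : ℕ) : ℝ) := by exact_mod_cast h1
        have h4 : ((Fintype.card F - 1 : ℕ) : ℝ) = q - 1 := by
          rw [Nat.cast_sub Fintype.card_pos]; simp [hq]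
        push_cast [h4] at h3
        simpa using h3
      rw [gS_univ]
      have hpos : 0 < q * ((j:ℝ) + 1) := by positivity
      have h5 : -(q * zc e c - n) < (q - 1) * n / (q * (j + 1)) := by
        rw [lt_div_iff₀ hpos]
        nlinarith
      rw [hτ]
      linarith
  have hQT : ∑ c, PP e j c ^ 2 ≤ τ * ∑ c, PP e j c := by
    rw [Finset.mul_sum]
    apply Finset.sum_le_sum
    intro c _
    have := hlt c
    have h0 := h.PP_nonneg c
    nlinarith
  have hT := h.sum_PP
  have hQ := h.sum_PP_sq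
  rw [hT] at hQT
  have h6 : (j:ℝ) ^ 2 * (X - 1) + X * ((q - 1) * n) - ((q - 1) * n) ^ 2 + 2 * j * ((q - 1) * n) ≤
      τ * (j * (X - 1) + (q - 1) * n) := le_trans hQ hQT
  set N : ℝ := (q - 1) * n with hN
  have hNpos : 0 < N := by rw [hN]; apply mul_pos <;> linarith
  have h7 : N * (X - N + j) ≤ N / (q * (j + 1)) * (j * (X - 1) + N) := by
    rw [hτ] at h6
    have : (j + N / (q * (↑j + 1))) * (j * (X - 1) + N) =
      j * (j * (X - 1) + N) + N / (q * (j + 1)) * (j * (X - 1) + N) := by ring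
    rw [this] at h6
    nlinarith
  have hpos : 0 < q * ((j:ℝ) + 1) := by positivity
  have h8 : q * (j + 1) * (X - N + j) ≤ j * (X - 1) + N := by
    have h9 : N / (q * (j + 1)) * (j * (X - 1) + N) = N * ((j * (X - 1) + N) / (q * (j + 1))) := by
      field_simp
    rw [h9] at h7
    have h10 := le_of_mul_le_mul_left h7 hNpos
    rw [le_div_iff₀ hpos] at h10
    linarith
  have h11 : X ≤ q * (X - N) := by
    rw [hN]
    nlinarith
  have hNX : N < X := by
    rw [hN]; nlinarith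
  nlinarith [mul_nonneg hj0 hj0, mul_nonneg (mul_nonneg (by linarith : (0:ℝ) ≤ q) hj0) hj0,
    mul_le_mul_of_nonneg_left h11 (by linarith : (0:ℝ) ≤ (j:ℝ) + 1)]

end code

end Pool.Agent.NearPlotkin
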