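import Mathlib
import Pool.Agent.helper17.Core2

open Finset Module

namespace Pool.Agent.NearPlotkin

universe u v

section residual

variable {F : Type*} [Field F] [Fintype F] [DecidableEq F]
variable {V : Type u} [AddCommGroup V] [Module F V]
variable {ι : Type v} [Fintype ι]

/-- Coordinates of `Z(c₁)` at which `c` vanishes. -/
def zz (e : ι → Module.Dual F V) (c₁ c : V) : ℕ :=
  (univ.filter (fun i => e i c₁ = 0 ∧ e i c = 0)).card

/-- For one coordinate with `e i c₁ ≠ 0` exactly one `a` has `e i (c + a • c₁) = 0`. -/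
theorem sum_one (φ : Module.Dual F V) {c₁ : V} (h : φ c₁ ≠ 0) (c : V) :
    ∑ a : F, (if φ (c + a • c₁) = 0 then 1 else 0 : ℕ) = 1 := by
  rw [Finset.sum_eq_single (- φ c / φ c₁)]
  · rw [if_pos]
    simp only [map_add, map_smul, smul_eq_mul]
    field_simp
    ring
  · intro a _ ha
    rw [if_neg]
    intro h0
    apply ha
    simp only [map_add, map_smul, smul_eq_mul] at h0
    field_simp
    linear_combination h0
  · simp

theorem sum_line (e : ι → Module.Dual F V) (c₁ c : V) :
    ∑ a : F, zc e (c + a • c₁) + zc e c₁ =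
      Fintype.card F * zz e c₁ c + Fintype.card ι := by
  have h1 : ∀ x : V, zc e x = ∑ i, if e i x = 0 then 1 else 0 := by
    intro x; unfold zc; rw [Finset.card_filter]
  have h2 : zz e c₁ c = ∑ i, if (e i c₁ = 0 ∧ e i c = 0) then 1 else 0 := by
    unfold zz; rw [Finset.card_filter]
  have h3 : Fintype.card ι = ∑ i : ι, 1 := by simp
  rw [h2, h3, h1 c₁]
  simp_rw [h1]
  rw [Finset.sum_comm, Finset.mul_sum, ← Finset.sum_add_distrib, ← Finset.sum_add_distrib]
  apply Finset.sum_congr rfl
  intro i _
  by_cases hi : e i c₁ = 0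
  · simp only [map_add, map_smul, hi, smul_zero, add_zero, true_and, if_true]
    by_cases hc : e i c = 0 <;> simp [hc]
  · rw [sum_one (e i) hi c]
    simp [hi]

variable {e : ι → Module.Dual F V} {j : ℕ}

/-- The residual inequality. -/
theorem Nice.zz_le (h : Nice e j) {c₁ c : V} (hc : c ∉ Submodule.span F {c₁}) :
    Fintype.card F * zz e c₁ c ≤ zc e c₁ + j := by
  have h1 := sum_line e c₁ c
  have h2 : ∀ a : F, Fintype.card F * zc e (c + a • c₁) ≤ Fintype.card ι + j := by
    intro a
    apply h.up
    intro h0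
    apply hc
    rw [Submodule.mem_span_singleton]
    refine ⟨-a, ?_⟩
    rw [neg_smul]
    exact (eq_neg_of_add_eq_zero_left h0).symm
  have h3 : Fintype.card F * ∑ a : F, zc e (c + a • c₁) ≤
      Fintype.card F * (Fintype.card ι + j) := by
    rw [Finset.mul_sum]
    calc _ ≤ ∑ a : F, (Fintype.card ι + j) := Finset.sum_le_sum (fun a _ => h2 a)
      _ = _ := by simp
  have h4 : ∑ a : F, zc e (c + a • c₁) ≤ Fintype.card ι + j :=
    Nat.le_of_mul_le_mul_left h3 Fintype.card_pos
  omega

theorem Nice.residual [Fintype V] (h : Nice e j) {c₁ : V} (hc : c₁ ≠ 0)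
    (hz : j < (Fintype.card F - 1) * zc e c₁) :
    ∃ (V' : Type u) (_ : AddCommGroup V') (_ : Module F V') (_ : Fintype V')
      (ι' : Type v) (_ : Fintype ι') (e' : ι' → Module.Dual F V'),
      Nice e' j ∧ finrank F V' + 1 = finrank F V ∧ Fintype.card ι' = zc e c₁ := by
  classical
  have hfin : Module.Finite F V := inferInstance
  let W := Submodule.span F {c₁}
  have hW : ∀ i : {i // e i c₁ = 0}, W ≤ LinearMap.ker (e i) := by
    intro i
    rw [Submodule.span_le]
    intro x hx
    rw [Set.mem_singleton_iff] at hx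
    subst hx
    exact i.2
  let e' : {i // e i c₁ = 0} → Module.Dual F (V ⧸ W) := fun i => W.liftQ (e i) (hW i)
  have hcard : Fintype.card {i // e i c₁ = 0} = zc e c₁ := by
    rw [Fintype.card_subtype]; rfl
  have hzc : ∀ c : V, zc e' (W.mkQ c) = zz e c₁ c := by
    intro c
    unfold zc zz
    have : ∀ i : {i // e i c₁ = 0}, e' i (W.mkQ c) = e i c := by
      intro i
      simp [e']
    simp_rw [this]
    rw [← Fintype.card_subtype, ← Fintype.card_subtype]
    apply Fintype.card_congr
    exact Equiv.subtypeSubtypeEquivSubtypeInter (fun i => e i c₁ = 0) (fun i => e i c = 0)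
  have hmk : ∀ x : V ⧸ W, x ≠ 0 → ∃ c : V, W.mkQ c = x ∧ c ∉ W := by
    intro x hx
    obtain ⟨c, rfl⟩ := W.mkQ_surjective x
    refine ⟨c, rfl, ?_⟩
    intro hcW
    apply hx
    simpa using hcW
  refine ⟨V ⧸ W, inferInstance, inferInstance, Fintype.ofFinite _, {i // e i c₁ = 0},
    inferInstance, e', ?_, ?_, hcard⟩
  · refine ⟨?_, ?_, ?_⟩
    · intro i h0
      apply h.ne i
      ext c
      have : e' i (W.mkQ c) = e i c := by simp [e']
      rw [← this, h0]
      simp
    · intro x hx
      obtain ⟨c, rfl, hcW⟩ := hmk x hx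
      rw [hzc, hcard]
      exact h.zz_le hcW
    · intro x hx
      obtain ⟨c, rfl, hcW⟩ := hmk x hx
      rw [hzc, hcard]
      have h1 := h.zz_le hcW
      have h2 : 1 < Fintype.card F := Fintype.one_lt_card
      by_contra hcon
      push Not at hcon
      have h3 : Fintype.card F * zc e c₁ ≤ Fintype.card F * zz e c₁ c :=
        Nat.mul_le_mul_left _ hcon
      have h4 : Fintype.card F * zc e c₁ = (Fintype.card F - 1) * zc e c₁ + zc e c₁ := by
        conv_lhs => rw [← Nat.sub_add_cancel h2.le]
        rw [Nat.add_mul, one_mul]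
      omega
  · have h1 := Submodule.finrank_quotient_add_finrank W
    have h2 : finrank F W = 1 := finrank_span_singleton hc
    omega

end residual

end Pool.Agent.NearPlotkin
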