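import Mathlib
import Pool.Agent.helper17.Core3

open Finset Module

namespace Pool.Agent.NearPlotkin

universe u v

section nearfull

variable {F : Type*} [Field F] [Fintype F] [DecidableEq F]
variable {V : Type u} [AddCommGroup V] [Module F V]
variable {ι : Type v} [Fintype ι]

/-- The support of `c₀`. -/
def su (e : ι → Module.Dual F V) (c₀ : V) : Finset ι := univ.filter (fun i => e i c₀ ≠ 0)

omit [Fintype F] in
theorem su_card (e : ι → Module.Dual F V) (c₀ : V) : (su e c₀).card + zc e c₀ = Fintype.card ι := by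
  unfold su zc
  have := Finset.card_filter_add_card_filter_not (s := (univ : Finset ι)) (fun i => e i c₀ = 0)
  rw [Finset.card_univ] at this
  simp only [ne_eq]
  omega

theorem gS_line_one (φ : Module.Dual F V) {c₀ : V} (h : φ c₀ ≠ 0) (c : V) :
    ∑ a : F, hh φ (c + a • c₀) = 0 := by
  have h1 := sum_one φ h c
  have h2 : ∑ a : F, kerInd φ (c + a • c₀) = 1 := by
    have : ((∑ a : F, (if φ (c + a • c₀) = 0 then 1 else 0 : ℕ) : ℕ) : ℝ) = 1 := by
      rw [h1]; simp
    push_cast at this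
    unfold kerInd
    exact this
  unfold hh
  rw [Finset.sum_sub_distrib, ← Finset.mul_sum, h2]
  simp

theorem gS_line (e : ι → Module.Dual F V) (c₀ c : V) :
    ∑ a : F, gS e (su e c₀) (c + a • c₀) = 0 := by
  unfold gS
  rw [Finset.sum_comm]
  apply Finset.sum_eq_zero
  intro i hi
  apply gS_line_one
  simpa [su] using hi

variable {e : ι → Module.Dual F V} {j : ℕ}

theorem Nice.gS_su_le (h : Nice e j) {c : V} (c₀ : V) (hc : c ≠ 0) :
    gS e (su e c₀) c ≤ (j : ℝ) + zc e c₀ := by
  rw [gS_eq]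
  have h1 := h.up c hc
  have h2 : ((su e c₀).filter (fun i => e i c = 0)).card ≤ zc e c := by
    unfold zc
    apply Finset.card_le_card
    intro i hi
    simp only [Finset.mem_filter, Finset.mem_univ, true_and] at hi ⊢
    exact hi.2
  have h3 := su_card e c₀
  have h4 : Fintype.card F * ((su e c₀).filter (fun i => e i c = 0)).card ≤
      (su e c₀).card + zc e c₀ + j := by
    rw [h3]
    exact le_trans (Nat.mul_le_mul_left _ h2) h1
  have h5 : (Fintype.card F : ℝ) * (((su e c₀).filter (fun i => e i c = 0)).card : ℝ) ≤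
      (su e c₀).card + zc e c₀ + j := by exact_mod_cast h4
  linarith

theorem Nice.gS_su_ge (h : Nice e j) {c c₀ : V} (hc : c ∉ Submodule.span F {c₀}) :
    -(((Fintype.card F : ℝ) - 1) * (j + zc e c₀)) ≤ gS e (su e c₀) c := by
  classical
  have h1 := gS_line e c₀ c
  rw [← Finset.add_sum_erase univ _ (Finset.mem_univ (0 : F))] at h1
  simp only [zero_smul, add_zero] at h1
  have h2 : ∑ a ∈ univ.erase (0 : F), gS e (su e c₀) (c + a • c₀) ≤
      ∑ a ∈ univ.erase (0 : F), ((j : ℝ) + zc e c₀) := by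
    apply Finset.sum_le_sum
    intro a _
    apply h.gS_su_le
    intro h0
    apply hc
    rw [Submodule.mem_span_singleton]
    refine ⟨-a, ?_⟩
    rw [neg_smul]
    exact (eq_neg_of_add_eq_zero_left h0).symm
  rw [Finset.sum_const, Finset.card_erase_of_mem (Finset.mem_univ _), Finset.card_univ,
    nsmul_eq_mul, Nat.cast_sub Fintype.card_pos] at h2
  push_cast at h2
  linarith

variable [Fintype V]

/-- The near-full inequality. -/
theorem Nice.nearfull (h : Nice e j) {c₀ : V} (hc : c₀ ≠ 0) :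
    (Fintype.card F : ℝ) * ((su e c₀).card : ℝ) * Fintype.card V ≤
      (Fintype.card F : ℝ) ^ 2 * ((su e c₀).card : ℝ) ^ 2 +
      (Fintype.card F : ℝ) * ((Fintype.card V : ℝ) - Fintype.card F) * ((j : ℝ) + zc e c₀) ^ 2 := by
  classical
  set q : ℝ := (Fintype.card F : ℝ) with hq
  set w : ℝ := ((su e c₀).card : ℝ) with hw
  set X : ℝ := (Fintype.card V : ℝ) with hX
  set J : ℝ := (j : ℝ) + zc e c₀ with hJ
  have hq2 : 2 ≤ q := by
    have : 1 < Fintype.card F := Fintype.one_lt_card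
    rw [hq]; exact_mod_cast this
  -- the line as a finset
  let L : Finset V := univ.image (fun a : F => a • c₀)
  have hLinj : Function.Injective (fun a : F => a • c₀) := by
    intro a b hab
    exact smul_left_injective F hc hab
  have hLmem : ∀ c : V, c ∉ L → c ∉ Submodule.span F {c₀} := by
    intro c hcL hcs
    apply hcL
    rw [Submodule.mem_span_singleton] at hcs
    obtain ⟨a, rfl⟩ := hcs
    exact Finset.mem_image_of_mem _ (Finset.mem_univ a)
  have hLcard : (L.card : ℝ) = q := by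
    rw [Finset.card_image_of_injective _ hLinj, Finset.card_univ]
  have hLsum : ∀ g : V → ℝ, ∑ c ∈ L, g c = ∑ a : F, g (a • c₀) := by
    intro g
    rw [Finset.sum_image]
    intro a _ b _ hab
    exact hLinj hab
  set g : V → ℝ := gS e (su e c₀) with hg
  have hg0 : g 0 = (q - 1) * w := by
    rw [hg, gS_eq]
    simp only [map_zero, Finset.filter_true]
    rw [← hq, ← hw]; ring
  have hga : ∀ a : F, a ≠ 0 → g (a • c₀) = - w := by
    intro a ha
    rw [hg, gS_eq]
    have : ((su e c₀).filter (fun i => e i (a • c₀) = 0)) = ∅ := by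
      apply Finset.filter_eq_empty_iff.mpr
      intro i hi
      have h1 : e i c₀ ≠ 0 := by simpa [su] using hi
      simp [map_smul, ha, h1]
    rw [this]
    simp [hw]
  have hL1 : ∑ c ∈ L, g c = 0 := by
    rw [hLsum, ← Finset.add_sum_erase univ _ (Finset.mem_univ (0 : F)), zero_smul, hg0]
    rw [Finset.sum_congr rfl (fun a ha => hga a (Finset.ne_of_mem_erase ha))]
    rw [Finset.sum_const, Finset.card_erase_of_mem (Finset.mem_univ _), Finset.card_univ,
      nsmul_eq_mul, Nat.cast_sub Fintype.card_pos]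
    push_cast
    rw [← hq]; ring
  have hL2 : ∑ c ∈ L, g c ^ 2 = q * (q - 1) * w ^ 2 := by
    rw [hLsum (fun c => g c ^ 2), ← Finset.add_sum_erase univ _ (Finset.mem_univ (0 : F)),
      zero_smul, hg0]
    rw [Finset.sum_congr rfl (fun a ha => by rw [hga a (Finset.ne_of_mem_erase ha)])]
    rw [Finset.sum_const, Finset.card_erase_of_mem (Finset.mem_univ _), Finset.card_univ,
      nsmul_eq_mul, Nat.cast_sub Fintype.card_pos]
    push_cast
    rw [← hq]; ring
  have hne : ∀ i ∈ su e c₀, e i ≠ 0 := fun i _ => h.ne i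
  have hA1 : ∑ c : V, g c = 0 := sum_gS e (su e c₀) hne
  have hA2 : (q - 1) * w * X ≤ ∑ c : V, g c ^ 2 := sum_gS_sq e (su e c₀) hne
  have hC1 : ∑ c ∈ Lᶜ, g c = 0 := by
    have := Finset.sum_add_sum_compl L g
    rw [hL1, hA1] at this
    linarith
  have hC2 : (q - 1) * w * X - q * (q - 1) * w ^ 2 ≤ ∑ c ∈ Lᶜ, g c ^ 2 := by
    have := Finset.sum_add_sum_compl L (fun c => g c ^ 2)
    rw [hL2] at this
    linarith
  have hCcard : ((Lᶜ).card : ℝ) = X - q := by
    rw [Finset.card_compl, Nat.cast_sub (Finset.card_le_univ _), hLcard]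
  have hup : ∑ c ∈ Lᶜ, g c ^ 2 ≤ (q - 1) * J ^ 2 * (X - q) := by
    have h1 : ∑ c ∈ Lᶜ, g c ^ 2 ≤ ∑ c ∈ Lᶜ, ((q - 1) * J ^ 2 - (q - 2) * J * g c) := by
      apply Finset.sum_le_sum
      intro c hcL
      have hcs : c ∉ Submodule.span F {c₀} := hLmem c (Finset.mem_compl.mp hcL)
      have hcne : c ≠ 0 := by
        rintro rfl
        exact hcs (Submodule.zero_mem _)
      have h2 := h.gS_su_le c₀ hcne
      have h3 := h.gS_su_ge hcs
      have h4 : 0 ≤ (J - g c) * (g c + (q - 1) * J) :=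
        mul_nonneg (by linarith) (by linarith)
      nlinarith [h4]
    have h2 : ∑ c ∈ Lᶜ, ((q - 1) * J ^ 2 - (q - 2) * J * g c) =
        (Lᶜ).card * ((q - 1) * J ^ 2) - (q - 2) * J * ∑ c ∈ Lᶜ, g c := by
      rw [Finset.sum_sub_distrib, Finset.sum_const, nsmul_eq_mul, Finset.mul_sum]
    rw [h2, hC1, hCcard] at h1
    linarith
  have h5 : (q - 1) * (w * X - q * w ^ 2) ≤ (q - 1) * (J ^ 2 * (X - q)) := by
    linarith
  have h6 : w * X - q * w ^ 2 ≤ J ^ 2 * (X - q) :=
    le_of_mul_le_mul_left h5 (by linarith)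
  have h7 := mul_le_mul_of_nonneg_left h6 (by linarith : (0:ℝ) ≤ q)
  linarith

/-- In terms of `Y = q^(k-1)`. -/
theorem Nice.nearfull' (h : Nice e j) {c₀ : V} (hc : c₀ ≠ 0) {Y : ℕ}
    (hY : Fintype.card V = Fintype.card F * Y) :
    ((su e c₀).card : ℝ) * Y ≤
      ((su e c₀).card : ℝ) ^ 2 + ((Y : ℝ) - 1) * ((j : ℝ) + zc e c₀) ^ 2 := by
  have h1 := h.nearfull hc
  have hq : (0 : ℝ) < (Fintype.card F : ℝ) := by exact_mod_cast Fintype.card_pos
  rw [hY] at h1
  push_cast at h1
  have h2 : ((Fintype.card F : ℝ) ^ 2) * (((su e c₀).card : ℝ) * Y) ≤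
      ((Fintype.card F : ℝ) ^ 2) * (((su e c₀).card : ℝ) ^ 2 +
        ((Y : ℝ) - 1) * ((j : ℝ) + zc e c₀) ^ 2) := by linarith
  exact le_of_mul_le_mul_left h2 (by positivity)

end nearfull

end Pool.Agent.NearPlotkin
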