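import Mathlib
import Pool.Agent.helper17.Core4

open Finset Module

namespace Pool.Agent.NearPlotkin

universe u v

section sub

variable {F : Type*} [Field F] [Fintype F] [DecidableEq F]
variable {V : Type u} [AddCommGroup V] [Module F V] [Fintype V]
variable {ι : Type v} [Fintype ι]

theorem card_sub_eq (φ : Module.Dual F V) (U : Submodule F V) [Fintype U]
    (h : ¬ U ≤ LinearMap.ker φ) :
    Fintype.card F * (univ.filter (fun c : U => φ c = 0)).card = Fintype.card U := by
  have hne : φ ∘ₗ U.subtype ≠ 0 := by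
    intro h0
    apply h
    intro x hx
    have := LinearMap.congr_fun h0 ⟨x, hx⟩
    simpa using this
  have h2 : (univ.filter (fun c : U => (φ ∘ₗ U.subtype) c = 0)).card * Fintype.card F =
      Fintype.card U := card_ker_mul (φ ∘ₗ U.subtype) hne
  rw [mul_comm] at h2
  exact h2

omit [Fintype F] [Fintype V] in
theorem card_sub_top (φ : Module.Dual F V) (U : Submodule F V) [Fintype U]
    (h : U ≤ LinearMap.ker φ) :
    (univ.filter (fun c : U => φ c = 0)).card = Fintype.card U := by
  rw [Finset.filter_true_of_mem, Finset.card_univ]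
  intro x _
  exact h x.2

theorem card_sub_le (φ : Module.Dual F V) (U : Submodule F V) [Fintype U] :
    Fintype.card U ≤ Fintype.card F * (univ.filter (fun c : U => φ c = 0)).card := by
  by_cases h : U ≤ LinearMap.ker φ
  · rw [card_sub_top φ U h]
    exact Nat.le_mul_of_pos_left _ Fintype.card_pos
  · rw [card_sub_eq φ U h]

open Classical in
/-- Number of coordinates in the support of `c₀` vanishing on `U`. -/
noncomputable def nu (e : ι → Module.Dual F V) (c₀ : V) (U : Submodule F V) : ℕ :=
  ((su e c₀).filter (fun i => U ≤ LinearMap.ker (e i))).card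

variable {e : ι → Module.Dual F V} {j : ℕ}

/-- zeros of `c` on the support of `c₀` -/
def ss (e : ι → Module.Dual F V) (c₀ c : V) : ℕ :=
  ((su e c₀).filter (fun i => e i c = 0)).card

omit [Fintype F] [Fintype V] in
theorem zc_split (e : ι → Module.Dual F V) (c₀ c : V) : zc e c = zz e c₀ c + ss e c₀ c := by
  unfold zc zz ss su
  rw [← Finset.card_filter_add_card_filter_not (s := univ.filter (fun i => e i c = 0))
    (fun i => e i c₀ = 0), Finset.filter_filter, Finset.filter_filter, Finset.filter_filter]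
  congr 2
  · ext i; simp [and_comm]
  · ext i; simp [and_comm]

theorem sum_ss (e : ι → Module.Dual F V) (c₀ : V) (U : Submodule F V) [Fintype U] :
    Fintype.card F * ∑ c : U, ss e c₀ c + nu e c₀ U * Fintype.card U =
      Fintype.card F * nu e c₀ U * Fintype.card U + (su e c₀).card * Fintype.card U := by
  classical
  have h1 : ∀ c : U, ss e c₀ c = ∑ i ∈ su e c₀, if e i c = 0 then 1 else 0 := by
    intro c; unfold ss; rw [Finset.card_filter]
  simp_rw [h1]
  rw [Finset.sum_comm]
  have h2 : ∀ i : ι, ∑ c : U, (if e i c = 0 then 1 else 0 : ℕ) =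
      (univ.filter (fun c : U => e i c = 0)).card := by
    intro i; rw [Finset.card_filter]
  simp_rw [h2]
  have h3 : (su e c₀).card = nu e c₀ U +
      ((su e c₀).filter (fun i => ¬ U ≤ LinearMap.ker (e i))).card := by
    unfold nu
    rw [← Finset.card_filter_add_card_filter_not (s := su e c₀)
      (fun i => U ≤ LinearMap.ker (e i))]
  have h4 : ∑ i ∈ su e c₀, (univ.filter (fun c : U => e i c = 0)).card =
      ∑ i ∈ (su e c₀).filter (fun i => U ≤ LinearMap.ker (e i)),
        (univ.filter (fun c : U => e i c = 0)).card +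
      ∑ i ∈ (su e c₀).filter (fun i => ¬ U ≤ LinearMap.ker (e i)),
        (univ.filter (fun c : U => e i c = 0)).card := by
    rw [Finset.sum_filter_add_sum_filter_not]
  have h5 : ∑ i ∈ (su e c₀).filter (fun i => U ≤ LinearMap.ker (e i)),
        (univ.filter (fun c : U => e i c = 0)).card = nu e c₀ U * Fintype.card U := by
    rw [Finset.sum_congr rfl (fun i hi => card_sub_top (e i) U (Finset.mem_filter.mp hi).2),
      Finset.sum_const, smul_eq_mul]
    rfl
  have h6 : Fintype.card F * ∑ i ∈ (su e c₀).filter (fun i => ¬ U ≤ LinearMap.ker (e i)),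
        (univ.filter (fun c : U => e i c = 0)).card =
      ((su e c₀).filter (fun i => ¬ U ≤ LinearMap.ker (e i))).card * Fintype.card U := by
    rw [Finset.mul_sum,
      Finset.sum_congr rfl (fun i hi => card_sub_eq (e i) U (Finset.mem_filter.mp hi).2),
      Finset.sum_const, smul_eq_mul]
  rw [h4, h5, Nat.mul_add, h6, h3]
  ring

theorem sum_zz (e : ι → Module.Dual F V) (c₀ : V) (U : Submodule F V) [Fintype U] :
    zc e c₀ * Fintype.card U ≤ Fintype.card F * ∑ c : U, zz e c₀ c := by
  classical
  have h1 : ∀ c : U, zz e c₀ c =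
      ∑ i ∈ univ.filter (fun i => e i c₀ = 0), if e i c = 0 then 1 else 0 := by
    intro c; unfold zz
    rw [← Finset.card_filter, Finset.filter_filter]
  simp_rw [h1]
  rw [Finset.sum_comm, Finset.mul_sum]
  have h2 : ∀ i : ι, ∑ c : U, (if e i c = 0 then 1 else 0 : ℕ) =
      (univ.filter (fun c : U => e i c = 0)).card := by
    intro i; rw [Finset.card_filter]
  simp_rw [h2]
  calc zc e c₀ * Fintype.card U = ∑ i ∈ univ.filter (fun i => e i c₀ = 0), Fintype.card U := by
        rw [Finset.sum_const, smul_eq_mul]; rfl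
    _ ≤ _ := Finset.sum_le_sum (fun i _ => card_sub_le (e i) U)

/-- Inequality (7). -/
theorem Nice.subspace (h : Nice e j) {c₀ : V} (U : Submodule F V) [Fintype U] (hU : c₀ ∉ U) :
    Fintype.card ι + j ≤
      Fintype.card U * (nu e c₀ U + j) + Fintype.card F * zc e c₀ := by
  classical
  have hq : 1 < Fintype.card F := Fintype.one_lt_card
  -- pointwise
  have hpt : ∀ c : U, c ≠ 0 →
      (Fintype.card F : ℝ) * (((Fintype.card F : ℝ) - 1) * zz e c₀ c + (su e c₀).card - ss e c₀ c) ≤
        ((Fintype.card F : ℝ) - 1) * ((Fintype.card ι : ℝ) + j) := by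
    intro c hc
    have h1 := sum_line e c₀ (c : V)
    rw [← Finset.add_sum_erase univ _ (Finset.mem_univ (0 : F))] at h1
    simp only [zero_smul, add_zero] at h1
    have h2 : ∀ a ∈ univ.erase (0 : F), Fintype.card F * zc e ((c : V) + a • c₀) ≤
        Fintype.card ι + j := by
      intro a ha
      apply h.up
      intro h0
      apply hU
      have ha0 : a ≠ 0 := Finset.ne_of_mem_erase ha
      have h3 : a • c₀ = -(c : V) := by
        rw [add_comm] at h0
        exact eq_neg_of_add_eq_zero_left h0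
      have h4 : c₀ = a⁻¹ • (-(c : V)) := by
        rw [← h3, smul_smul, inv_mul_cancel₀ ha0, one_smul]
      rw [h4]
      exact U.smul_mem _ (U.neg_mem c.2)
    have h5 : Fintype.card F * ∑ a ∈ univ.erase (0 : F), zc e ((c : V) + a • c₀) ≤
        (Fintype.card F - 1) * (Fintype.card ι + j) := by
      rw [Finset.mul_sum]
      calc _ ≤ ∑ a ∈ univ.erase (0 : F), (Fintype.card ι + j) := Finset.sum_le_sum h2
        _ = _ := by
          rw [Finset.sum_const, Finset.card_erase_of_mem (Finset.mem_univ _), Finset.card_univ,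
            smul_eq_mul]
    have h6 := zc_split e c₀ (c : V)
    have h7 := su_card e c₀
    have h1' : ((zc e (c : V) : ℕ) : ℝ) +
        ((∑ a ∈ univ.erase (0 : F), zc e ((c : V) + a • c₀) : ℕ) : ℝ) + (zc e c₀ : ℝ) =
        (Fintype.card F : ℝ) * (zz e c₀ c : ℝ) + (Fintype.card ι : ℝ) := by exact_mod_cast h1
    have h5' : (Fintype.card F : ℝ) *
        ((∑ a ∈ univ.erase (0 : F), zc e ((c : V) + a • c₀) : ℕ) : ℝ) ≤
        ((Fintype.card F : ℝ) - 1) * ((Fintype.card ι : ℝ) + j) := by
      have : ((Fintype.card F * ∑ a ∈ univ.erase (0 : F), zc e ((c : V) + a • c₀) : ℕ) : ℝ) ≤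
        (((Fintype.card F - 1) * (Fintype.card ι + j) : ℕ) : ℝ) := by exact_mod_cast h5
      push_cast [Nat.cast_sub hq.le] at this
      push_cast
      exact this
    have h6' : (zc e (c : V) : ℝ) = zz e c₀ c + ss e c₀ c := by exact_mod_cast h6
    have h7' : ((su e c₀).card : ℝ) + zc e c₀ = Fintype.card ι := by exact_mod_cast h7
    have h8 : ((∑ a ∈ univ.erase (0 : F), zc e ((c : V) + a • c₀) : ℕ) : ℝ) =
        (((Fintype.card F : ℝ) - 1) * zz e c₀ c + (su e c₀).card - ss e c₀ c) := by
      linarith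
    rw [h8] at h5'
    exact h5'
  have h0 : (Fintype.card F : ℝ) *
      (((Fintype.card F : ℝ) - 1) * zz e c₀ ((0 : U) : V) + (su e c₀).card - ss e c₀ ((0 : U) : V)) =
        (Fintype.card F : ℝ) * ((Fintype.card F : ℝ) - 1) * zc e c₀ := by
    have h1 : zz e c₀ ((0 : U) : V) = zc e c₀ := by simp [zz, zc]
    have h2 : ss e c₀ ((0 : U) : V) = (su e c₀).card := by simp [ss]
    rw [h1, h2]; ring
  have hsum : ∑ c : U, ((Fintype.card F : ℝ) *
      (((Fintype.card F : ℝ) - 1) * zz e c₀ c + (su e c₀).card - ss e c₀ c)) ≤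
      ((Fintype.card U : ℝ) - 1) * (((Fintype.card F : ℝ) - 1) * ((Fintype.card ι : ℝ) + j)) +
        (Fintype.card F : ℝ) * ((Fintype.card F : ℝ) - 1) * zc e c₀ := by
    rw [← Finset.add_sum_erase univ _ (Finset.mem_univ (0 : U)), h0]
    have : ∑ c ∈ univ.erase (0 : U), ((Fintype.card F : ℝ) *
        (((Fintype.card F : ℝ) - 1) * zz e c₀ c + (su e c₀).card - ss e c₀ c)) ≤
        ∑ c ∈ univ.erase (0 : U), (((Fintype.card F : ℝ) - 1) * ((Fintype.card ι : ℝ) + j)) :=
      Finset.sum_le_sum (fun c hc => hpt c (Finset.ne_of_mem_erase hc))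
    rw [Finset.sum_const, Finset.card_erase_of_mem (Finset.mem_univ _), Finset.card_univ,
      nsmul_eq_mul, Nat.cast_sub Fintype.card_pos] at this
    push_cast at this
    linarith
  have hS := sum_ss e c₀ U
  have hZ := sum_zz e c₀ U
  have hS' : (Fintype.card F : ℝ) * ((∑ c : U, ss e c₀ c : ℕ) : ℝ) +
      nu e c₀ U * Fintype.card U =
      (Fintype.card F : ℝ) * nu e c₀ U * Fintype.card U + (su e c₀).card * Fintype.card U := by
    exact_mod_cast hS
  have hZ' : (zc e c₀ : ℝ) * Fintype.card U ≤
      (Fintype.card F : ℝ) * ((∑ c : U, zz e c₀ c : ℕ) : ℝ) := by exact_mod_cast hZ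
  have hexp : ∑ c : U, ((Fintype.card F : ℝ) *
      (((Fintype.card F : ℝ) - 1) * zz e c₀ c + (su e c₀).card - ss e c₀ c)) =
      ((Fintype.card F : ℝ) - 1) * ((Fintype.card F : ℝ) * ((∑ c : U, zz e c₀ c : ℕ) : ℝ)) +
      (Fintype.card F : ℝ) * ((su e c₀).card * Fintype.card U) -
      (Fintype.card F : ℝ) * ((∑ c : U, ss e c₀ c : ℕ) : ℝ) := by
    have : (Fintype.card U : ℝ) = ∑ c : U, (1 : ℝ) := by simp
    rw [this]
    push_cast
    simp only [Finset.mul_sum]
    rw [← Finset.sum_add_distrib, ← Finset.sum_sub_distrib]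
    apply Finset.sum_congr rfl
    intro c _
    ring
  rw [hexp] at hsum
  have h7 := su_card e c₀
  have h7' : ((su e c₀).card : ℝ) + zc e c₀ = Fintype.card ι := by exact_mod_cast h7
  have hq' : (0 : ℝ) < (Fintype.card F : ℝ) - 1 := by
    have : (1 : ℝ) < (Fintype.card F : ℝ) := by exact_mod_cast hq
    linarith
  have hfin : ((Fintype.card F : ℝ) - 1) * ((Fintype.card ι : ℝ) + j) ≤
      ((Fintype.card F : ℝ) - 1) *
        ((Fintype.card U : ℝ) * (nu e c₀ U + j) + Fintype.card F * zc e c₀) := by
    have h9 := mul_le_mul_of_nonneg_left hZ' hq'.le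
    rw [← h7'] at hsum ⊢
    linarith
  have := le_of_mul_le_mul_left hfin hq'
  exact_mod_cast this

end sub

end Pool.Agent.NearPlotkin
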