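import Mathlib
import Pool.Agent.helper17.Core5

open Finset Module

namespace Pool.Agent.NearPlotkin

universe u v

section greedy

variable {F : Type*} [Field F]
variable {V : Type u} [AddCommGroup V] [Module F V]

theorem smul_of_ker_le (ψ φ : Module.Dual F V) (h : LinearMap.ker ψ ≤ LinearMap.ker φ) :
    ∃ μ : F, φ = μ • ψ := by
  by_cases hψ : ψ = 0
  · refine ⟨0, ?_⟩
    ext x
    have hx : x ∈ LinearMap.ker ψ := by rw [hψ]; simp
    have := h hx
    simpa using this
  · obtain ⟨v, hv⟩ : ∃ v, ψ v ≠ 0 := by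
      by_contra hcon
      push Not at hcon
      exact hψ (LinearMap.ext (by simpa using hcon))
    refine ⟨φ v / ψ v, ?_⟩
    ext x
    have hx : x - (ψ x / ψ v) • v ∈ LinearMap.ker ψ := by
      rw [LinearMap.mem_ker, map_sub, map_smul, smul_eq_mul]
      field_simp
      ring
    have h2 := h hx
    rw [LinearMap.mem_ker, map_sub, map_smul, smul_eq_mul, sub_eq_zero] at h2
    rw [LinearMap.smul_apply, smul_eq_mul, h2]
    ring

variable [Fintype F] [DecidableEq F] [Fintype V]

omit [DecidableEq F] in
theorem card_dual [Fintype (Module.Dual F V)] :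
    Fintype.card (Module.Dual F V) = Fintype.card V := by
  have h1 : Fintype.card (Module.Dual F V) = Fintype.card F ^ finrank F (Module.Dual F V) :=
    Module.card_eq_pow_finrank
  have h2 : Fintype.card V = Fintype.card F ^ finrank F V := Module.card_eq_pow_finrank
  rw [h1, h2, Subspace.dual_finrank_eq]

variable {ι : Type v} [Fintype ι]
variable {e : ι → Module.Dual F V} {j : ℕ}

/-- Base step. -/
theorem Nice.base (h : Nice e j) {c₀ : V} (hc : c₀ ≠ 0) {Y : ℕ}
    (hY : Fintype.card V = Fintype.card F * Y) (hw : (su e c₀).card < Y) :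
    ∃ U : Submodule F V, finrank F U + 1 = finrank F V ∧ c₀ ∉ U ∧ nu e c₀ U = 0 := by
  classical
  have : Finite (Module.Dual F V) := Module.finite_of_finite F
  let _ : Fintype (Module.Dual F V) := Fintype.ofFinite _
  have hq : 1 < Fintype.card F := Fintype.one_lt_card
  have hev : Module.Dual.eval F V c₀ ≠ 0 := by
    rw [Ne, Module.eval_apply_eq_zero_iff]
    exact hc
  have h1 : (univ.filter (fun ψ : Module.Dual F V => ψ c₀ = 0)).card * Fintype.card F =
      Fintype.card (Module.Dual F V) := card_ker_mul (Module.Dual.eval F V c₀) hev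
  rw [card_dual, hY, mul_comm] at h1
  have h2 : (univ.filter (fun ψ : Module.Dual F V => ψ c₀ = 0)).card = Y :=
    Nat.eq_of_mul_eq_mul_left (by omega) h1
  have h3 : (univ.filter (fun ψ : Module.Dual F V => ¬ ψ c₀ = 0)).card = (Fintype.card F - 1) * Y := by
    have := Finset.card_filter_add_card_filter_not (s := (univ : Finset (Module.Dual F V)))
      (fun ψ => ψ c₀ = 0)
    rw [Finset.card_univ, card_dual, hY, h2] at this
    have h4 : Fintype.card F * Y = (Fintype.card F - 1) * Y + Y := by
      conv_lhs => rw [← Nat.sub_add_cancel hq.le]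
      rw [Nat.add_mul, one_mul]
    omega
  let B : Finset (Module.Dual F V) :=
    ((su e c₀) ×ˢ (univ.erase (0 : F))).image (fun p => p.2 • e p.1)
  have hB : B.card ≤ (su e c₀).card * (Fintype.card F - 1) := by
    refine le_trans Finset.card_image_le ?_
    rw [Finset.card_product, Finset.card_erase_of_mem (Finset.mem_univ _), Finset.card_univ]
  have hlt : B.card < (univ.filter (fun ψ : Module.Dual F V => ¬ ψ c₀ = 0)).card := by
    rw [h3]
    refine lt_of_le_of_lt hB ?_
    rw [mul_comm]
    exact Nat.mul_lt_mul_of_pos_left hw (by omega)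
  obtain ⟨ψ, hψ, hψB⟩ := Finset.exists_mem_notMem_of_card_lt_card hlt
  rw [Finset.mem_filter] at hψ
  have hψ0 : ψ ≠ 0 := by
    rintro rfl
    exact hψ.2 (by simp)
  refine ⟨LinearMap.ker ψ, Module.Dual.finrank_ker_add_one_of_ne_zero hψ0, hψ.2, ?_⟩
  unfold nu
  rw [Finset.card_eq_zero, Finset.filter_eq_empty_iff]
  intro i hi hle
  obtain ⟨μ, hμ⟩ := smul_of_ker_le ψ (e i) hle
  have hμ0 : μ ≠ 0 := by
    rintro rfl
    apply h.ne i
    rw [hμ, zero_smul]
  apply hψB
  rw [Finset.mem_image]
  refine ⟨(i, μ⁻¹), ?_, ?_⟩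
  · rw [Finset.mem_product]
    exact ⟨hi, Finset.mem_erase.mpr ⟨inv_ne_zero hμ0, Finset.mem_univ _⟩⟩
  · simp only
    rw [hμ, smul_smul, inv_mul_cancel₀ hμ0, one_smul]

/-- Averaging step. -/
theorem nu_step (e : ι → Module.Dual F V) (c₀ : V) (U : Submodule F V) [Fintype U]
    (hU : 1 < Fintype.card U) :
    ∃ U' : Submodule F V, U' ≤ U ∧ finrank F U' + 1 = finrank F U ∧
      (Fintype.card U - 1) * nu e c₀ U' + (Fintype.card F - 1) * nu e c₀ U ≤
        (Fintype.card U - 1) * nu e c₀ U + (Fintype.card F - 1) * (su e c₀).card := by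
  classical
  have : Finite (Module.Dual F U) := Module.finite_of_finite F
  let _ : Fintype (Module.Dual F U) := Fintype.ofFinite _
  have hcard : Fintype.card (Module.Dual F U) = Fintype.card U := card_dual
  -- hyperplanes
  let H : Module.Dual F U → Submodule F V := fun ψ => (LinearMap.ker ψ).map U.subtype
  have hH : ∀ ψ i, H ψ ≤ LinearMap.ker (e i) ↔
      LinearMap.ker ψ ≤ LinearMap.ker ((e i) ∘ₗ U.subtype) := by
    intro ψ i
    rw [Submodule.map_le_iff_le_comap, LinearMap.ker_comp]
  let T : Finset (Module.Dual F U) := univ.erase 0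
  have hT : T.card = Fintype.card U - 1 := by
    rw [Finset.card_erase_of_mem (Finset.mem_univ _), Finset.card_univ, hcard]
  have hTne : T.Nonempty := by
    rw [← Finset.card_pos, hT]; omega
  have hsum : ∑ ψ ∈ T, nu e c₀ (H ψ) ≤
      (Fintype.card U - 1) * nu e c₀ U +
        (Fintype.card F - 1) * ((su e c₀).filter (fun i => ¬ U ≤ LinearMap.ker (e i))).card := by
    have h1 : ∀ ψ, nu e c₀ (H ψ) = ∑ i ∈ su e c₀, if H ψ ≤ LinearMap.ker (e i) then 1 else 0 := by
      intro ψ; unfold nu; rw [Finset.card_filter]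
    simp_rw [h1]
    rw [Finset.sum_comm]
    simp_rw [← Finset.card_filter]
    rw [← Finset.sum_filter_add_sum_filter_not (su e c₀) (fun i => U ≤ LinearMap.ker (e i))]
    apply Nat.add_le_add
    · calc _ ≤ ∑ i ∈ (su e c₀).filter (fun i => U ≤ LinearMap.ker (e i)), T.card :=
            Finset.sum_le_sum (fun i _ => Finset.card_filter_le _ _)
        _ = _ := by
            rw [Finset.sum_const, smul_eq_mul, hT, mul_comm]; rfl
    · calc _ ≤ ∑ i ∈ (su e c₀).filter (fun i => ¬ U ≤ LinearMap.ker (e i)),
              (Fintype.card F - 1) := by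
            apply Finset.sum_le_sum
            intro i hi
            have hi2 := (Finset.mem_filter.mp hi).2
            have hne : (e i) ∘ₗ U.subtype ≠ 0 := by
              intro h0
              apply hi2
              intro x hx
              have := LinearMap.congr_fun h0 ⟨x, hx⟩
              simpa using this
            have hsub : T.filter (fun ψ => H ψ ≤ LinearMap.ker (e i)) ⊆
                (univ.erase (0 : F)).image (fun a => a • ((e i) ∘ₗ U.subtype)) := by
              intro ψ hψ
              rw [Finset.mem_filter] at hψ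
              obtain ⟨μ, hμ⟩ := smul_of_ker_le ψ _ ((hH ψ i).mp hψ.2)
              have hμ0 : μ ≠ 0 := by
                rintro rfl
                apply hne
                rw [hμ, zero_smul]
              rw [Finset.mem_image]
              refine ⟨μ⁻¹, Finset.mem_erase.mpr ⟨inv_ne_zero hμ0, Finset.mem_univ _⟩, ?_⟩
              rw [hμ, smul_smul, inv_mul_cancel₀ hμ0, one_smul]
            refine le_trans (Finset.card_le_card hsub) ?_
            refine le_trans Finset.card_image_le ?_
            rw [Finset.card_erase_of_mem (Finset.mem_univ _), Finset.card_univ]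
        _ = _ := by rw [Finset.sum_const, smul_eq_mul, mul_comm]
  obtain ⟨ψ, hψT, hψ⟩ : ∃ ψ ∈ T, T.card * nu e c₀ (H ψ) ≤
      (Fintype.card U - 1) * nu e c₀ U +
        (Fintype.card F - 1) * ((su e c₀).filter (fun i => ¬ U ≤ LinearMap.ker (e i))).card := by
    by_contra hcon
    push Not at hcon
    have h2 : ∑ ψ ∈ T, ((Fintype.card U - 1) * nu e c₀ U +
        (Fintype.card F - 1) * ((su e c₀).filter (fun i => ¬ U ≤ LinearMap.ker (e i))).card) <
        ∑ ψ ∈ T, T.card * nu e c₀ (H ψ) := Finset.sum_lt_sum_of_nonempty hTne hcon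
    rw [Finset.sum_const, smul_eq_mul, ← Finset.mul_sum] at h2
    exact absurd hsum (not_le.mpr (lt_of_mul_lt_mul_left h2 (Nat.zero_le _)))
  have hψ0 : ψ ≠ 0 := Finset.ne_of_mem_erase hψT
  refine ⟨H ψ, ?_, ?_, ?_⟩
  · rintro x ⟨y, _, rfl⟩
    exact y.2
  · have h3 := Module.Dual.finrank_ker_add_one_of_ne_zero hψ0
    have h4 : finrank F (H ψ) = finrank F (LinearMap.ker ψ) :=
      Submodule.finrank_map_subtype_eq U _
    omega
  · rw [hT] at hψ
    have h5 : (su e c₀).card = nu e c₀ U +
        ((su e c₀).filter (fun i => ¬ U ≤ LinearMap.ker (e i))).card := by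
      unfold nu
      rw [← Finset.card_filter_add_card_filter_not (s := su e c₀)
        (fun i => U ≤ LinearMap.ker (e i))]
    rw [h5, Nat.mul_add]
    omega

end greedy

end Pool.Agent.NearPlotkin
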