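import Mathlib
import Pool.Agent.helper17.Core6

open Finset Module

namespace Pool.Agent.NearPlotkin

universe u v

section greedy

variable {F : Type*} [Field F] [Fintype F] [DecidableEq F]
variable {V : Type u} [AddCommGroup V] [Module F V] [Fintype V]
variable {ι : Type v} [Fintype ι]
variable {e : ι → Module.Dual F V} {j : ℕ}

theorem Nice.greedy_key (h : Nice e j) {c₀ : V} {Y D s : ℕ}
    (hY : Fintype.card V = Fintype.card F * Y)
    (hz : (Fintype.card F - 1) * zc e c₀ ≤ j) (hD : Y ≤ (su e c₀).card + D)
    (hbig : D < Fintype.card F ^ (finrank F V - (j + 1))) (hs : s ≤ j)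
    (U : Submodule F V) [Fintype U] (hUr : finrank F U + (s + 1) = finrank F V) (hUc : c₀ ∉ U) :
    Fintype.card F ^ s ≤ nu e c₀ U + j ∧ D < Fintype.card U ∧
      Fintype.card U * Fintype.card F ^ s = Y := by
  have hq : 1 < Fintype.card F := Fintype.one_lt_card
  have h1 := h.subspace U hUc
  have h2 : Fintype.card U = Fintype.card F ^ finrank F U := Module.card_eq_pow_finrank
  have h3 : Fintype.card V = Fintype.card F ^ finrank F V := Module.card_eq_pow_finrank
  have h4 : Fintype.card U * Fintype.card F ^ s = Y := by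
    have : Fintype.card F * (Fintype.card U * Fintype.card F ^ s) = Fintype.card F * Y := by
      rw [← hY, h3, ← hUr, h2, ← pow_add, ← pow_succ', add_assoc]
    exact Nat.eq_of_mul_eq_mul_left (by omega) this
  have h5 : D < Fintype.card U := by
    refine lt_of_lt_of_le hbig ?_
    rw [h2]
    apply Nat.pow_le_pow_right (by omega)
    omega
  have h6 := su_card e c₀
  have h7 : Fintype.card F * zc e c₀ = (Fintype.card F - 1) * zc e c₀ + zc e c₀ := by
    conv_lhs => rw [← Nat.sub_add_cancel hq.le]
    rw [Nat.add_mul, one_mul]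
  refine ⟨?_, h5, h4⟩
  have h8 : Y < Fintype.card U * (nu e c₀ U + j + 1) := by
    have : Y ≤ Fintype.card U * (nu e c₀ U + j) + D := by omega
    rw [Nat.mul_succ]
    omega
  rw [← h4] at h8
  have := Nat.lt_of_mul_lt_mul_left h8
  omega

theorem Nice.greedy (h : Nice e j) {c₀ : V} (hc : c₀ ≠ 0) {Y D : ℕ}
    (hY : Fintype.card V = Fintype.card F * Y) (hn : Fintype.card ι + j < Y)
    (hz : (Fintype.card F - 1) * zc e c₀ ≤ j) (hD : Y ≤ (su e c₀).card + D)
    (hbig : D < Fintype.card F ^ (finrank F V - (j + 1))) : False := by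
  classical
  have hq : 1 < Fintype.card F := Fintype.one_lt_card
  have hsu := su_card e c₀
  have hD1 : 1 ≤ D := by omega
  have claim : ∀ s, s ≤ j → ∃ U : Submodule F V, finrank F U + (s + 1) = finrank F V ∧
      c₀ ∉ U ∧ nu e c₀ U + (s + 1) ≤ Fintype.card F ^ s := by
    intro s
    induction s with
    | zero =>
      intro _
      obtain ⟨U, h1, h2, h3⟩ := h.base hc hY (by omega)
      exact ⟨U, h1, h2, by rw [h3]; simp⟩
    | succ s ih =>
      intro hs
      obtain ⟨U, h1, h2, h3⟩ := ih (by omega)
      obtain ⟨k1, k2, k3⟩ := h.greedy_key hY hz hD hbig (s := s) (by omega) U h1 h2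
      obtain ⟨U', g1, g2, g3⟩ := nu_step e c₀ U (by omega)
      refine ⟨U', by omega, fun hcU => h2 (g1 hcU), ?_⟩
      by_contra hcon
      push Not at hcon
      obtain ⟨Q, hQ⟩ : ∃ Q, Fintype.card F = Q + 1 := ⟨Fintype.card F - 1, by omega⟩
      obtain ⟨M, hM⟩ : ∃ M, Fintype.card U = M + 1 := ⟨Fintype.card U - 1, by omega⟩
      have hQ1 : Fintype.card F - 1 = Q := by omega
      have hM1 : Fintype.card U - 1 = M := by omega
      rw [hQ1, hM1] at g3
      have h4 : Fintype.card F ^ (s + 1) = Q * Fintype.card F ^ s + Fintype.card F ^ s := by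
        rw [pow_succ, hQ]; ring
      have h5 : nu e c₀ U + Q * Fintype.card F ^ s ≤ nu e c₀ U' := by omega
      have h6 : M * (nu e c₀ U + Q * Fintype.card F ^ s) ≤ M * nu e c₀ U' :=
        Nat.mul_le_mul_left _ h5
      have h7 : Q * (M * Fintype.card F ^ s + nu e c₀ U) ≤ Q * (su e c₀).card := by
        have : M * (nu e c₀ U + Q * Fintype.card F ^ s) =
          M * nu e c₀ U + Q * (M * Fintype.card F ^ s) := by ring
        rw [Nat.mul_add]
        omega
      have h8 : M * Fintype.card F ^ s + nu e c₀ U ≤ (su e c₀).card :=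
        Nat.le_of_mul_le_mul_left h7 (by omega)
      have h9 : Y = M * Fintype.card F ^ s + Fintype.card F ^ s := by
        rw [← k3, hM]; ring
      omega
  obtain ⟨U, h1, h2, h3⟩ := claim j (le_refl _)
  obtain ⟨k1, k2, k3⟩ := h.greedy_key hY hz hD hbig (le_refl _) U h1 h2
  omega

end greedy

section shorten

variable {F : Type*} [Field F] [Fintype F] [DecidableEq F]
variable {V : Type u} [AddCommGroup V] [Module F V] [Fintype V]
variable {ι : Type v} [Fintype ι]
variable {e : ι → Module.Dual F V} {j : ℕ}

omit [Fintype V] in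
theorem Nice.exists_ne (h : Nice e j) {c : V} (hc : c ≠ 0) : ∃ i, e i c ≠ 0 := by
  by_contra hcon
  push Not at hcon
  have h1 := h.inj c hc
  have : zc e c = Fintype.card ι := by
    unfold zc
    rw [Finset.filter_true_of_mem (fun i _ => hcon i), Finset.card_univ]
  omega

theorem Nice.finrank_le (h : Nice e j) : finrank F V ≤ Fintype.card ι := by
  have hfin : Module.Finite F V := inferInstance
  have hinj : Function.Injective (LinearMap.pi e : V →ₗ[F] (ι → F)) := by
    rw [← LinearMap.ker_eq_bot, LinearMap.ker_eq_bot']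
    intro c hc
    by_contra hne
    obtain ⟨i, hi⟩ := h.exists_ne hne
    exact hi (by simpa using congr_fun hc i)
  have := LinearMap.finrank_le_finrank_of_injective hinj
  rwa [Module.finrank_fintype_fun_eq_card] at this

theorem Nice.shorten (h : Nice e j) {r : ℕ} (hr : j < (Fintype.card F - 1) * r)
    (hk : r ≤ finrank F V) :
    Fintype.card F ^ (finrank F V - r) ≤ (Fintype.card F - 1) * Fintype.card ι := by
  classical
  have hq : 1 < Fintype.card F := Fintype.one_lt_card
  have hrn : r ≤ (univ : Finset ι).card := by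
    rw [Finset.card_univ]; exact le_trans hk h.finrank_le
  obtain ⟨R, _, hR⟩ := Finset.exists_subset_card_eq hrn
  let L : V →ₗ[F] (R → F) := LinearMap.pi (fun i : R => e i)
  let U := LinearMap.ker L
  have hU1 : finrank F V ≤ finrank F U + r := by
    have h1 := LinearMap.finrank_range_add_finrank_ker L
    have h2 : finrank F (LinearMap.range L) ≤ finrank F (R → F) := Submodule.finrank_le _
    rw [Module.finrank_fintype_fun_eq_card, Fintype.card_coe, hR] at h2
    have h3 : finrank F U = finrank F (LinearMap.ker L) := rfl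
    omega
  have hU2 : ∀ i ∈ R, U ≤ LinearMap.ker (e i) := by
    intro i hi x hx
    have : L x ⟨i, hi⟩ = 0 := by
      rw [LinearMap.mem_ker.mp hx]; rfl
    simpa [L] using this
  have hcU : Fintype.card U = Fintype.card F ^ finrank F U := Module.card_eq_pow_finrank
  -- double counting
  have hsum1 : Fintype.card F * ∑ c : U, zc e (c : V) + Fintype.card F * 0 ≤
      (Fintype.card U - 1) * (Fintype.card ι + j) + Fintype.card F * Fintype.card ι := by
    rw [Finset.mul_sum, ← Finset.add_sum_erase univ _ (Finset.mem_univ (0 : U))]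
    have h1 : ∑ c ∈ univ.erase (0 : U), Fintype.card F * zc e (c : V) ≤
        ∑ c ∈ univ.erase (0 : U), (Fintype.card ι + j) := by
      apply Finset.sum_le_sum
      intro c hc
      apply h.up
      have := Finset.ne_of_mem_erase hc
      simpa using this
    rw [Finset.sum_const, Finset.card_erase_of_mem (Finset.mem_univ _), Finset.card_univ,
      smul_eq_mul] at h1
    have h2 : zc e ((0 : U) : V) = Fintype.card ι := by
      rw [Submodule.coe_zero, zc_zero]
    rw [h2]
    omega
  have hsum2 : Fintype.card F * (r * Fintype.card U) + (Fintype.card ι - r) * Fintype.card U ≤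
      Fintype.card F * ∑ c : U, zc e (c : V) := by
    have h1 : ∀ c : U, zc e (c : V) = ∑ i, if e i c = 0 then 1 else 0 := by
      intro c; unfold zc; rw [Finset.card_filter]
    simp_rw [h1]
    rw [Finset.sum_comm]
    have h2 : ∀ i : ι, ∑ c : U, (if e i c = 0 then 1 else 0 : ℕ) =
        (univ.filter (fun c : U => e i c = 0)).card := by
      intro i; rw [Finset.card_filter]
    simp_rw [h2]
    rw [← Finset.sum_add_sum_compl R, Nat.mul_add]
    apply Nat.add_le_add
    · rw [Finset.sum_congr rfl (fun i hi => card_sub_top (e i) U (hU2 i hi)), Finset.sum_const,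
        smul_eq_mul, hR]
    · rw [Finset.mul_sum]
      calc (Fintype.card ι - r) * Fintype.card U = ∑ i ∈ Rᶜ, Fintype.card U := by
            rw [Finset.sum_const, smul_eq_mul, Finset.card_compl, hR]
        _ ≤ _ := Finset.sum_le_sum (fun i _ => card_sub_le (e i) U)
  obtain ⟨Q, hQ⟩ : ∃ Q, Fintype.card F = Q + 1 := ⟨Fintype.card F - 1, by omega⟩
  obtain ⟨M, hM⟩ : ∃ M, Fintype.card U = M + 1 := ⟨Fintype.card U - 1, by
    have : 0 < Fintype.card U := Fintype.card_pos
    omega⟩
  have hQ1 : Fintype.card F - 1 = Q := by omega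
  have hM1 : Fintype.card U - 1 = M := by omega
  rw [Finset.card_univ] at hrn
  obtain ⟨m, hm⟩ : ∃ m, Fintype.card ι = r + m := ⟨Fintype.card ι - r, by omega⟩
  have hm1 : Fintype.card ι - r = m := by omega
  have hle : Fintype.card F ^ (finrank F V - r) ≤ Fintype.card U := by
    rw [hcU]
    apply Nat.pow_le_pow_right (by omega)
    omega
  refine le_trans hle ?_
  rw [hQ1] at hr ⊢
  rw [hM1] at hsum1
  rw [hm1] at hsum2
  have hfin := le_trans hsum2 (by simpa using hsum1)
  rw [hM, hQ, hm] at hfin
  rw [hM, hm]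
  obtain ⟨t, ht⟩ : ∃ t, Q * r = j + 1 + t := ⟨Q * r - j - 1, by omega⟩
  nlinarith [Nat.zero_le (M * t), Nat.zero_le t, Nat.zero_le M]

end shorten

end Pool.Agent.NearPlotkin
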