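import Mathlib
import Pool.Agent.helper17.Core7

open Finset Module

namespace Pool.Agent.NearPlotkin

universe u v

section stages

variable {F : Type*} [Field F] [Fintype F] [DecidableEq F]
variable {V : Type u} [AddCommGroup V] [Module F V] [Fintype V]
variable {ι : Type v} [Fintype ι]
variable {e : ι → Module.Dual F V} {j : ℕ}

theorem z_le_of {q z j : ℕ} (hq : 1 < q) (hz : (q - 1) * z ≤ j) : z ≤ j := by
  have : 1 * z ≤ (q - 1) * z := Nat.mul_le_mul_right _ (by omega)
  omega

/-- Last stage. -/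
theorem Nice.final_stage (h : Nice e j) {r : ℕ} (hr : j < (Fintype.card F - 1) * r)
    (hrk : r ≤ finrank F V) (hbig : 16 * (j + 1) ^ 4 < Fintype.card F ^ (finrank F V - r))
    (hinv : (Fintype.card F - 1) * Fintype.card ι * (2 * j + 3) ≤ (j + 1) * Fintype.card V) :
    False := by
  classical
  have hq : 1 < Fintype.card F := Fintype.one_lt_card
  have h1 := h.shorten hr hrk
  have h2 : 16 * (j + 1) ^ 4 < (Fintype.card F - 1) * Fintype.card ι := lt_of_lt_of_le hbig h1
  have hc1 : ((Fintype.card F - 1 : ℕ) : ℝ) = (Fintype.card F : ℝ) - 1 := by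
    rw [Nat.cast_sub hq.le]; simp
  have h3 : 16 * ((j : ℝ) + 1) ^ 4 < ((Fintype.card F : ℝ) - 1) * Fintype.card ι := by
    rw [← hc1]; exact_mod_cast h2
  have h4 : ((Fintype.card F : ℝ) - 1) * Fintype.card ι * (2 * j + 3) ≤
      (j + 1) * Fintype.card V := by
    rw [← hc1]; exact_mod_cast hinv
  set N : ℝ := ((Fintype.card F : ℝ) - 1) * Fintype.card ι with hN
  have hj : (0 : ℝ) ≤ j := by positivity
  have h34 : ((j : ℝ) + 1) ^ 3 ≤ ((j : ℝ) + 1) ^ 4 :=
    pow_le_pow_right₀ (by linarith) (by norm_num)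
  have hj3 : (0 : ℝ) ≤ ((j : ℝ) + 1) ^ 3 := by positivity
  have h5 := h.lemmaB (by rw [← hN]; linarith)
  rw [← hN] at h5
  have h6 : ((j : ℝ) + 1) * Fintype.card V ≤ (j + 1) * (2 * N + 16 * ((j : ℝ) + 1) ^ 3) :=
    mul_le_mul_of_nonneg_left h5 (by linarith)
  have h7 : ((j : ℝ) + 1) * (2 * N + 16 * ((j : ℝ) + 1) ^ 3) =
      (2 * j + 3) * N - N + 16 * ((j : ℝ) + 1) ^ 4 := by ring
  linarith

/-- Near-full codeword at an intermediate stage. -/
theorem Nice.mid_stage (h : Nice e j) {c₀ : V} (hc : c₀ ≠ 0)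
    (hz : (Fintype.card F - 1) * zc e c₀ ≤ j)
    {r : ℕ} (hr : j < (Fintype.card F - 1) * r)
    (hrk : r ≤ finrank F V)
    (hbig : 16 * (j + 1) ^ 4 * Fintype.card F < Fintype.card F ^ (finrank F V - r))
    (hinv : Fintype.card ι * (Fintype.card F * (j + 1) + (Fintype.card F - 1)) ≤
      (j + 1) * Fintype.card V) :
    False := by
  have hq : 1 < Fintype.card F := Fintype.one_lt_card
  have h1 := h.shorten hr hrk
  have h2 := lt_of_lt_of_le hbig h1
  have hzj := z_le_of hq hz
  have hc1 : ((Fintype.card F - 1 : ℕ) : ℝ) = (Fintype.card F : ℝ) - 1 := by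
    rw [Nat.cast_sub hq.le]; simp
  have hX : Fintype.card V = Fintype.card F ^ finrank F V := Module.card_eq_pow_finrank
  have hk1 : 1 ≤ finrank F V := by
    have : 0 < finrank F V := by
      have : Nontrivial V := ⟨c₀, 0, hc⟩
      exact Module.finrank_pos
    exact this
  obtain ⟨Y, hY⟩ : ∃ Y, Fintype.card V = Fintype.card F * Y :=
    ⟨Fintype.card F ^ (finrank F V - 1), by rw [hX, ← pow_succ', Nat.sub_add_cancel hk1]⟩
  have hYpos : 0 < Y := by
    rcases Nat.eq_zero_or_pos Y with h0 | h0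
    · rw [h0, mul_zero] at hY
      have : 0 < Fintype.card V := Fintype.card_pos_iff.mpr ⟨0⟩
      omega
    · exact h0
  have h3 := h.nearfull' hc hY
  have h4 := su_card e c₀
  have h3' : (Fintype.card ι : ℝ) * (Fintype.card F * (j + 1) + ((Fintype.card F : ℝ) - 1)) ≤
      (j + 1) * (Fintype.card F * Y) := by
    rw [← hc1]; rw [hY] at hinv; exact_mod_cast hinv
  have h2' : 16 * ((j : ℝ) + 1) ^ 4 * Fintype.card F <
      ((Fintype.card F : ℝ) - 1) * Fintype.card ι := by
    rw [← hc1]; exact_mod_cast h2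
  have h4' : ((su e c₀).card : ℝ) + zc e c₀ = Fintype.card ι := by exact_mod_cast h4
  have hz' : ((Fintype.card F : ℝ) - 1) * zc e c₀ ≤ j := by
    rw [← hc1]; exact_mod_cast hz
  have hzj' : (zc e c₀ : ℝ) ≤ j := by exact_mod_cast hzj
  have hq' : (2 : ℝ) ≤ Fintype.card F := by exact_mod_cast hq
  have hY' : (1 : ℝ) ≤ Y := by exact_mod_cast hYpos
  generalize (Fintype.card F : ℝ) = q at *
  generalize (Fintype.card ι : ℝ) = n at *
  generalize hw : ((su e c₀).card : ℝ) = w at *
  generalize hzz : (zc e c₀ : ℝ) = z at *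
  generalize (Y : ℝ) = y at *
  have hj : (0 : ℝ) ≤ j := by positivity
  generalize (j : ℝ) = x at *
  have hw0 : 0 ≤ w := by rw [← hw]; positivity
  have hz0 : 0 ≤ z := by rw [← hzz]; positivity
  set A : ℝ := q * (x + 1) + (q - 1) with hA
  have hA0 : 0 < A := by rw [hA]; nlinarith
  -- (y - w) A ≥ y (q - 1)
  have e1 : w * A ≤ (x + 1) * (q * y) := by
    have : w * A ≤ n * A := mul_le_mul_of_nonneg_right (by linarith) hA0.le
    linarith
  have e2 : y * (q - 1) ≤ (y - w) * A := by
    have : (y - w) * A = y * A - w * A := by ring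
    rw [this]
    have : y * A = (x + 1) * (q * y) + y * (q - 1) := by rw [hA]; ring
    linarith
  have e3 : w * (y - w) ≤ y * (x + z) ^ 2 := by nlinarith [sq_nonneg (x + z)]
  have e4 : w * (y * (q - 1)) ≤ w * ((y - w) * A) := mul_le_mul_of_nonneg_left e2 hw0
  have e5 : (w * (y - w)) * A ≤ (y * (x + z) ^ 2) * A := mul_le_mul_of_nonneg_right e3 hA0.le
  have e6 : y * (w * (q - 1)) ≤ y * ((x + z) ^ 2 * A) := by linarith
  have e7 : w * (q - 1) ≤ (x + z) ^ 2 * A := le_of_mul_le_mul_left e6 (by linarith)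
  have e8 : (x + z) ^ 2 ≤ 4 * x ^ 2 := by nlinarith
  have e9 : (x + z) ^ 2 * A ≤ 4 * x ^ 2 * A := mul_le_mul_of_nonneg_right e8 hA0.le
  have e10 : A ≤ q * (x + 2) := by rw [hA]; linarith
  have e11 : 4 * x ^ 2 * A ≤ 4 * x ^ 2 * (q * (x + 2)) :=
    mul_le_mul_of_nonneg_left e10 (by positivity)
  have e12 : (q - 1) * n ≤ 4 * x ^ 2 * (q * (x + 2)) + x := by
    rw [← h4']
    linarith
  have e13 : 4 * x ^ 2 * (x + 2) + x ≤ 16 * (x + 1) ^ 4 := by
    have : 16 * (x + 1) ^ 4 - (4 * x ^ 2 * (x + 2) + x) =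
      16 * x ^ 4 + 60 * x ^ 3 + 88 * x ^ 2 + 63 * x + 16 := by ring
    have : 0 ≤ 16 * x ^ 4 + 60 * x ^ 3 + 88 * x ^ 2 + 63 * x + 16 := by positivity
    linarith
  have e14 : q * (4 * x ^ 2 * (x + 2) + x) ≤ q * (16 * (x + 1) ^ 4) :=
    mul_le_mul_of_nonneg_left e13 (by linarith)
  have e15 : x ≤ q * x := by nlinarith
  linarith

/-- Near-full codeword at stage `0`. -/
theorem Nice.zero_stage (h : Nice e j) {c₀ : V} (hc : c₀ ≠ 0)
    (hz : (Fintype.card F - 1) * zc e c₀ ≤ j)
    (hbig : 16 * (j + 1) ^ 4 < Fintype.card F ^ (finrank F V - (j + 1)))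
    {r : ℕ} (hr : j < (Fintype.card F - 1) * r)
    (hrk : r ≤ finrank F V)
    (hbig2 : 16 * (j + 1) ^ 4 * Fintype.card F < Fintype.card F ^ (finrank F V - r))
    (hn : Fintype.card ι + j < Fintype.card F ^ (finrank F V - 1)) :
    False := by
  have hq : 1 < Fintype.card F := Fintype.one_lt_card
  have h1 := h.shorten hr hrk
  have h2 := lt_of_lt_of_le hbig2 h1
  have hzj := z_le_of hq hz
  have hX : Fintype.card V = Fintype.card F ^ finrank F V := Module.card_eq_pow_finrank
  have hk1 : 1 ≤ finrank F V := by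
    have : 0 < finrank F V := by
      have : Nontrivial V := ⟨c₀, 0, hc⟩
      exact Module.finrank_pos
    exact this
  set Y : ℕ := Fintype.card F ^ (finrank F V - 1) with hYdef
  have hY : Fintype.card V = Fintype.card F * Y := by
    rw [hX, hYdef, ← pow_succ', Nat.sub_add_cancel hk1]
  have h3 := h.nearfull' hc hY
  have h4 := su_card e c₀
  have hYle : Y ≤ (su e c₀).card + 2 * (j + zc e c₀) ^ 2 := by
    by_contra hcon
    push Not at hcon
    have hcon' : ((su e c₀).card : ℝ) + 2 * ((j : ℝ) + zc e c₀) ^ 2 < Y := by exact_mod_cast hcon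
    have hc1 : ((Fintype.card F - 1 : ℕ) : ℝ) = (Fintype.card F : ℝ) - 1 := by
      rw [Nat.cast_sub hq.le]; simp
    have h2' : 16 * ((j : ℝ) + 1) ^ 4 * Fintype.card F <
        ((Fintype.card F : ℝ) - 1) * Fintype.card ι := by
      rw [← hc1]; exact_mod_cast h2
    have h4' : ((su e c₀).card : ℝ) + zc e c₀ = Fintype.card ι := by exact_mod_cast h4
    have hz' : ((Fintype.card F : ℝ) - 1) * zc e c₀ ≤ j := by
      rw [← hc1]; exact_mod_cast hz
    have hzj' : (zc e c₀ : ℝ) ≤ j := by exact_mod_cast hzj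
    have hq' : (2 : ℝ) ≤ Fintype.card F := by exact_mod_cast hq
    generalize (Fintype.card F : ℝ) = q at *
    generalize (Fintype.card ι : ℝ) = n at *
    generalize hw : ((su e c₀).card : ℝ) = w at *
    generalize hzz : (zc e c₀ : ℝ) = z at *
    generalize (Y : ℝ) = y at *
    have hj : (0 : ℝ) ≤ j := by positivity
    generalize (j : ℝ) = x at *
    have hw0 : 0 ≤ w := by rw [← hw]; positivity
    have hz0 : 0 ≤ z := by rw [← hzz]; positivity
    have hJ : 0 ≤ (x + z) ^ 2 := by positivity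
    -- w (y - w) ≤ (y-1) J^2
    have e3 : w * (y - w) ≤ y * (x + z) ^ 2 := by nlinarith
    have hy0 : 0 < y := by linarith
    have e8 : (x + z) ^ 2 ≤ 4 * x ^ 2 := by nlinarith
    rcases lt_or_ge (2 * w) y with hlt | hge
    · -- w ≤ 2 J^2
      have e4 : w * (y / 2) ≤ w * (y - w) := mul_le_mul_of_nonneg_left (by linarith) hw0
      have e5 : y * w ≤ y * (2 * (x + z) ^ 2) := by linarith
      have e6 : w ≤ 2 * (x + z) ^ 2 := le_of_mul_le_mul_left e5 hy0
      have e7 : (q - 1) * w ≤ (q - 1) * (8 * x ^ 2) :=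
        mul_le_mul_of_nonneg_left (by linarith) (by linarith)
      have e9 : (q - 1) * n ≤ (q - 1) * (8 * x ^ 2) + x := by
        rw [← h4']; linarith
      have e10 : (q - 1) * (8 * x ^ 2) ≤ q * (8 * x ^ 2) := by
        have : 0 ≤ 8 * x ^ 2 := by positivity
        linarith
      have e11 : x ≤ q * x := by nlinarith
      have e12 : 8 * x ^ 2 + x ≤ 16 * (x + 1) ^ 4 := by
        have : 16 * (x + 1) ^ 4 - (8 * x ^ 2 + x) =
          16 * x ^ 4 + 64 * x ^ 3 + 88 * x ^ 2 + 63 * x + 16 := by ring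
        have : 0 ≤ 16 * x ^ 4 + 64 * x ^ 3 + 88 * x ^ 2 + 63 * x + 16 := by positivity
        linarith
      have e13 : q * (8 * x ^ 2 + x) ≤ q * (16 * (x + 1) ^ 4) :=
        mul_le_mul_of_nonneg_left e12 (by linarith)
      linarith
    · have hyw : 0 ≤ y - w := by linarith
      have e4 : (y / 2) * (y - w) ≤ w * (y - w) := mul_le_mul_of_nonneg_right (by linarith) hyw
      have e5 : y * (y - w) ≤ y * (2 * (x + z) ^ 2) := by linarith
      have e6 : y - w ≤ 2 * (x + z) ^ 2 := le_of_mul_le_mul_left e5 hy0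
      linarith
  refine h.greedy hc hY hn hz hYle ?_
  refine lt_of_le_of_lt ?_ hbig
  have h5 : (j + zc e c₀) ^ 2 ≤ (2 * j) ^ 2 := Nat.pow_le_pow_left (by omega) 2
  have h6 : (j + 1) ^ 2 ≤ (j + 1) ^ 4 := Nat.pow_le_pow_right (by omega) (by norm_num)
  nlinarith

end stages

section main

variable {F : Type*} [Field F] [Fintype F] [DecidableEq F]

/-- The state after `i` steps. -/
def State (F : Type*) [Field F] [Fintype F] [DecidableEq F] (j k i : ℕ) : Prop :=
  ∃ (V : Type u) (_ : AddCommGroup V) (_ : Module F V) (_ : Fintype V)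
    (ι : Type v) (_ : Fintype ι) (e : ι → Module.Dual F V),
    Nice e j ∧ finrank F V + i = k ∧
    Fintype.card ι * (Fintype.card F * (j + 1) + i * (Fintype.card F - 1)) ≤
      (j + 1) * Fintype.card V ∧
    (i = 0 → Fintype.card ι + j < Fintype.card F ^ (k - 1))

/-- One step of the iteration. -/
theorem State.step {j k i : ℕ} (hS : State.{u, v} F j k i) (hi : i < k)
    (hno : ∀ (V : Type u) (_ : AddCommGroup V) (_ : Module F V) (_ : Fintype V)
      (ι : Type v) (_ : Fintype ι) (e : ι → Module.Dual F V),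
      Nice e j → finrank F V + i = k →
      Fintype.card ι * (Fintype.card F * (j + 1) + i * (Fintype.card F - 1)) ≤
        (j + 1) * Fintype.card V →
      (i = 0 → Fintype.card ι + j < Fintype.card F ^ (k - 1)) →
      ∀ c₀ : V, c₀ ≠ 0 → (Fintype.card F - 1) * zc e c₀ ≤ j → False) :
    State.{u, v} F j k (i + 1) := by
  obtain ⟨V, _, _, _, ι, _, e, h, hk, hinv, h00⟩ := hS
  have hq : 1 < Fintype.card F := Fintype.one_lt_card
  have hfr : 0 < finrank F V := by omega
  have hnt : Nontrivial V := Module.nontrivial_of_finrank_pos hfr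
  obtain ⟨x, hx⟩ := exists_ne (0 : V)
  have hn0 : 0 < Fintype.card ι := lt_of_le_of_lt (Nat.zero_le _) (h.inj x hx)
  have hn : Fintype.card F * Fintype.card ι ≤ Fintype.card V := by
    have h1 : (j + 1) * (Fintype.card F * Fintype.card ι) ≤ (j + 1) * Fintype.card V := by
      refine le_trans ?_ hinv
      have : (j + 1) * (Fintype.card F * Fintype.card ι) =
        Fintype.card ι * (Fintype.card F * (j + 1)) := by ring
      rw [this]
      exact Nat.mul_le_mul_left _ (Nat.le_add_right _ _)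
    exact Nat.le_of_mul_le_mul_left h1 (by omega)
  classical
  obtain ⟨c, hc, hheavy⟩ := h.heavy hn hn0
  have hz : j < (Fintype.card F - 1) * zc e c := by
    by_contra hcon
    push Not at hcon
    exact hno V _ _ _ ι _ e h hk hinv h00 c hc hcon
  obtain ⟨V', i1, i2, i3, ι', i4, e', h', hfin', hcard'⟩ := h.residual hc hz
  refine ⟨V', i1, i2, i3, ι', i4, e', h', by omega, ?_, by omega⟩
  rw [hcard']
  have hX : Fintype.card V = Fintype.card F ^ finrank F V := Module.card_eq_pow_finrank
  have hX' : Fintype.card V' = Fintype.card F ^ finrank F V' := Module.card_eq_pow_finrank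
  have hXX : Fintype.card V = Fintype.card F * Fintype.card V' := by
    rw [hX, hX', ← hfin', pow_succ']
  obtain ⟨Q, hQ⟩ : ∃ Q, Fintype.card F = Q + 1 := ⟨Fintype.card F - 1, by omega⟩
  have hQ1 : Fintype.card F - 1 = Q := by omega
  rw [hQ1] at hheavy hinv ⊢
  rw [hXX] at hinv
  generalize Fintype.card V' = X' at *
  generalize zc e c = z at *
  generalize Fintype.card ι = n at *
  generalize hA : Fintype.card F * (j + 1) = A at *
  have hApos : 0 < A := by rw [← hA]; exact Nat.mul_pos (by omega) (by omega)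
  have hQA : Q ≤ A := by rw [← hA]; nlinarith
  generalize hqq : Fintype.card F = q at *
  -- hheavy : A * (q * z) + Q * n ≤ A * n
  have h1 : (q * A) * (z * (A + (i + 1) * Q)) ≤ (q * A) * ((j + 1) * X') := by
    have e1 : A * (q * z) * (A + (i + 1) * Q) + Q * n * (A + (i + 1) * Q) ≤
        A * n * (A + (i + 1) * Q) := by
      have := Nat.mul_le_mul_right (A + (i + 1) * Q) hheavy
      rw [Nat.add_mul] at this
      exact this
    have e2 : A * n * (A + (i + 1) * Q) = A * (n * (A + i * Q)) + A * n * Q := by ring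
    have e3 : Q * n * (A + (i + 1) * Q) = A * n * Q + Q * n * ((i + 1) * Q) := by ring
    have e4 : A * (n * (A + i * Q)) ≤ A * ((j + 1) * (q * X')) := Nat.mul_le_mul_left _ hinv
    have e5 : (q * A) * (z * (A + (i + 1) * Q)) = A * (q * z) * (A + (i + 1) * Q) := by ring
    have e6 : (q * A) * ((j + 1) * X') = A * ((j + 1) * (q * X')) := by ring
    rw [e5, e6]
    have e7 : 0 ≤ Q * n * ((i + 1) * Q) := Nat.zero_le _
    omega
  exact Nat.le_of_mul_le_mul_left h1 (Nat.mul_pos (by omega) hApos)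

/-- The main theorem in abstract form. -/
theorem Nice.main {V : Type u} [AddCommGroup V] [Module F V] [Fintype V]
    {ι : Type v} [Fintype ι] {e : ι → Module.Dual F V} {j : ℕ} (h : Nice e j)
    (hbig : 16 * (j + 1) ^ 4 < Fintype.card F ^ (finrank F V - (j + 3))) :
    Fintype.card F ^ (finrank F V - 1) ≤ Fintype.card ι + j := by
  by_contra hcon
  push Not at hcon
  have hq : 1 < Fintype.card F := Fintype.one_lt_card
  set k := finrank F V with hk
  have hk4 : j + 4 ≤ k := by
    by_contra hlt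
    have : k - (j + 3) = 0 := by omega
    rw [this, pow_zero] at hbig
    have : 1 ≤ (j + 1) ^ 4 := Nat.one_le_pow _ _ (by omega)
    omega
  obtain ⟨Q, hQ⟩ : ∃ Q, Fintype.card F = Q + 1 := ⟨Fintype.card F - 1, by omega⟩
  have hQ1 : Fintype.card F - 1 = Q := by omega
  have hQpos : 0 < Q := by omega
  obtain ⟨l, hl⟩ : ∃ l, l = j / Q := ⟨_, rfl⟩
  obtain ⟨L, hL⟩ : ∃ L, L = (j + 1) / Q := ⟨_, rfl⟩
  have hlj : j < Q * (l + 1) := by
    rw [hl]; exact Nat.lt_mul_div_succ j hQpos
  have hLle : L * Q ≤ j + 1 := by rw [hL]; exact Nat.div_mul_le_self _ _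
  have hlL : l ≤ L := by rw [hl, hL]; exact Nat.div_le_div_right (by omega)
  have hLj : L ≤ j + 1 := by rw [hL]; exact Nat.div_le_self _ _
  clear hl hL
  obtain ⟨I, hI⟩ : ∃ I, I = j + 2 - L := ⟨_, rfl⟩
  have hX : Fintype.card V = Fintype.card F ^ k := Module.card_eq_pow_finrank
  have hpow : ∀ a b, a ≤ b → Fintype.card F ^ a ≤ Fintype.card F ^ b := fun a b hab =>
    Nat.pow_le_pow_right (by omega) hab
  have hbig1 : 16 * (j + 1) ^ 4 * Fintype.card F < Fintype.card F ^ (k - (j + 2)) := by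
    have : k - (j + 2) = (k - (j + 3)) + 1 := by omega
    rw [this, pow_succ]
    exact Nat.mul_lt_mul_of_pos_right hbig (by omega)
  have claim : ∀ i, i ≤ I → State.{u, v} F j k i := by
    intro i
    induction i with
    | zero =>
      intro _
      refine ⟨V, inferInstance, inferInstance, inferInstance, ι, inferInstance, e, h, by simp [hk], ?_,
        fun _ => hcon⟩
      rw [hX]
      have h1 : Fintype.card F ^ k = Fintype.card F * Fintype.card F ^ (k - 1) := by
        rw [← pow_succ', Nat.sub_add_cancel (by omega)]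
      rw [h1]
      have h2 : Fintype.card ι ≤ Fintype.card F ^ (k - 1) := by omega
      calc Fintype.card ι * (Fintype.card F * (j + 1) + 0 * (Fintype.card F - 1))
          = Fintype.card ι * (Fintype.card F * (j + 1)) := by ring
        _ ≤ Fintype.card F ^ (k - 1) * (Fintype.card F * (j + 1)) := Nat.mul_le_mul_right _ h2
        _ = _ := by ring
    | succ i ih =>
      intro hi
      refine (ih (by omega)).step (by omega) ?_
      intro V' _ _ _ ι' _ e' h' hk' hinv' h00 c₀ hc₀ hz₀
      rcases Nat.eq_zero_or_pos i with h0 | h0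
      · have hk'' : finrank F V' = k := by omega
        refine h'.zero_stage hc₀ hz₀ ?_ (r := l + 1) (by rw [hQ1]; exact hlj) (by omega) ?_ ?_
        · rw [hk'']
          refine lt_of_lt_of_le hbig (hpow _ _ ?_)
          omega
        · rw [hk'']
          refine lt_of_lt_of_le hbig1 (hpow _ _ ?_)
          omega
        · rw [hk'']
          exact h00 h0
      · refine h'.mid_stage hc₀ hz₀ (r := l + 1) (by rw [hQ1]; exact hlj) (by omega) ?_ ?_
        · refine lt_of_lt_of_le hbig1 (hpow _ _ ?_)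
          omega
        · refine le_trans (Nat.mul_le_mul_left _ ?_) hinv'
          have : 1 * (Fintype.card F - 1) ≤ i * (Fintype.card F - 1) :=
            Nat.mul_le_mul_right _ h0
          omega
  obtain ⟨V', _, _, _, ι', _, e', h', hk', hinv', _⟩ := claim I (le_refl _)
  refine h'.final_stage (r := l + 1) (by rw [hQ1]; exact hlj) (by omega) ?_ ?_
  · refine lt_of_lt_of_le hbig (hpow _ _ ?_)
    omega
  · refine le_trans ?_ hinv'
    rw [hQ1, hQ]
    have h1 : Q * (2 * j + 3) ≤ (Q + 1) * (j + 1) + I * Q := by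
      have h2 : I * Q + L * Q = (j + 2) * Q := by
        rw [← Nat.add_mul]; congr 1; omega
      nlinarith
    calc Q * Fintype.card ι' * (2 * j + 3) = Fintype.card ι' * (Q * (2 * j + 3)) := by ring
      _ ≤ _ := Nat.mul_le_mul_left _ h1

end main

end Pool.Agent.NearPlotkin
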