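import Mathlib
import Pool.Agent.helper17.Core8

open Finset Module

namespace Pool.Agent.NearPlotkin

section transfer

variable {F : Type} [Field F] [Fintype F] [DecidableEq F]

/-- The main theorem for subspaces of `F^n`. -/
theorem code_bound {n d j : ℕ} (C : Submodule F (Fin n → F))
    (hC : ∀ x ∈ C, x ≠ 0 → d ≤ hammingNorm x) (hd : 1 ≤ d)
    (hj : (Fintype.card F - 1) * n = Fintype.card F * d + j)
    (hbig : 16 * (j + 1) ^ 4 < Fintype.card F ^ (finrank F C - (j + 3))) :
    Fintype.card F ^ (finrank F C - 1) ≤ n + j := by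
  classical
  have hq : 1 < Fintype.card F := Fintype.one_lt_card
  let e0 : Fin n → Module.Dual F C := fun i => (LinearMap.proj i) ∘ₗ C.subtype
  let ι := {i : Fin n // e0 i ≠ 0}
  let e : ι → Module.Dual F C := fun i => e0 i
  have he0 : ∀ i (c : C), e0 i c = (c : Fin n → F) i := fun i c => rfl
  have hcardι : Fintype.card ι ≤ n := by
    calc Fintype.card ι ≤ Fintype.card (Fin n) := Fintype.card_subtype_le _
      _ = n := Fintype.card_fin n
  -- weight and number of zeros
  have hw : ∀ c : C, zc e c + hammingNorm (c : Fin n → F) = Fintype.card ι := by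
    intro c
    have h1 : hammingNorm (c : Fin n → F) = (univ.filter (fun i : ι => ¬ e i c = 0)).card := by
      unfold hammingNorm
      symm
      apply Finset.card_bij (fun (i : ι) _ => (i : Fin n))
      · intro i hi
        rw [Finset.mem_filter] at hi ⊢
        exact ⟨Finset.mem_univ _, hi.2⟩
      · intro i _ i' _ h
        exact Subtype.ext h
      · intro i hi
        rw [Finset.mem_filter] at hi
        have hne : e0 i ≠ 0 := by
          intro h0
          apply hi.2
          have := LinearMap.congr_fun h0 c
          simpa [he0] using this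
        refine ⟨⟨i, hne⟩, ?_, rfl⟩
        rw [Finset.mem_filter]
        exact ⟨Finset.mem_univ _, hi.2⟩
    rw [h1]
    unfold zc
    rw [Finset.card_filter_add_card_filter_not, Finset.card_univ]
  have hnice : Nice e j := by
    refine ⟨fun i => i.2, ?_, ?_⟩
    · intro c hc
      have h1 := hw c
      have h2 : d ≤ hammingNorm (c : Fin n → F) := by
        apply hC _ c.2
        simpa using hc
      have h3 : zc e c + d ≤ Fintype.card ι := by omega
      have h4 : Fintype.card F * (zc e c + d) ≤ Fintype.card F * Fintype.card ι :=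
        Nat.mul_le_mul_left _ h3
      have h5 : Fintype.card F * Fintype.card ι =
          (Fintype.card F - 1) * Fintype.card ι + Fintype.card ι := by
        conv_lhs => rw [← Nat.sub_add_cancel hq.le]
        rw [Nat.add_mul, one_mul]
      have h6 : (Fintype.card F - 1) * Fintype.card ι ≤ (Fintype.card F - 1) * n :=
        Nat.mul_le_mul_left _ hcardι
      rw [Nat.mul_add] at h4
      omega
    · intro c hc
      have h1 := hw c
      have h2 : d ≤ hammingNorm (c : Fin n → F) := by
        apply hC _ c.2
        simpa using hc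
      omega
  have := hnice.main hbig
  omega

/-- The main theorem in terms of `n - d`. -/
theorem code_bound' {n d j : ℕ} (C : Submodule F (Fin n → F))
    (hC : ∀ x ∈ C, x ≠ 0 → d ≤ hammingNorm x) (hd : 1 ≤ d)
    (hj : (Fintype.card F - 1) * n = Fintype.card F * d + j)
    (hbig : 16 * (j + 1) ^ 4 < Fintype.card F ^ (finrank F C - (j + 3))) :
    Fintype.card F ^ (finrank F C - 2) ≤ n - d := by
  have hq : 1 < Fintype.card F := Fintype.one_lt_card
  have h1 := code_bound C hC hd hj hbig
  have hk4 : j + 4 ≤ finrank F C := by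
    by_contra hlt
    have : finrank F C - (j + 3) = 0 := by omega
    rw [this, pow_zero] at hbig
    have : 1 ≤ (j + 1) ^ 4 := Nat.one_le_pow _ _ (by omega)
    omega
  have h2 : Fintype.card F ^ (finrank F C - 1) =
      Fintype.card F * Fintype.card F ^ (finrank F C - 2) := by
    rw [← pow_succ']
    congr 1
    omega
  have h3 : n + j = Fintype.card F * (n - d) := by
    have h5 : Fintype.card F * n = (Fintype.card F - 1) * n + n := by
      conv_lhs => rw [← Nat.sub_add_cancel hq.le]
      rw [Nat.add_mul, one_mul]
    rw [Nat.mul_sub]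
    omega
  rw [h2, h3] at h1
  exact Nat.le_of_mul_le_mul_left h1 (by omega)

end transfer

section exact

variable {F : Type} [Field F] [DecidableEq F]

/-- The set of weights of the nonzero words of `C`. -/
def wts {n : ℕ} (C : Submodule F (Fin n → F)) : Set ℕ :=
  {w | ∃ x ∈ C, x ≠ 0 ∧ hammingNorm x = w}

/-- Setting coordinate `i` to zero. -/
def killAt {n : ℕ} (i : Fin n) : (Fin n → F) →ₗ[F] (Fin n → F) where
  toFun x := Function.update x i 0
  map_add' x y := by
    ext l
    by_cases h : l = i
    · subst h; simp
    · simp [Function.update_of_ne h]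
  map_smul' a x := by
    ext l
    by_cases h : l = i
    · subst h; simp
    · simp [Function.update_of_ne h]

theorem norm_kill_of_ne {n : ℕ} (i : Fin n) (x : Fin n → F) (h : x i ≠ 0) :
    hammingNorm (killAt i x) + 1 = hammingNorm x := by
  classical
  unfold hammingNorm
  have h1 : (univ.filter (fun l => killAt i x l ≠ 0)) = (univ.filter (fun l => x l ≠ 0)).erase i := by
    ext l
    simp only [Finset.mem_filter, Finset.mem_univ, true_and, Finset.mem_erase]
    by_cases hl : l = i
    · subst hl
      simp [killAt]
    · simp [killAt, hl]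
  rw [h1, Finset.card_erase_add_one]
  simpa using h

theorem norm_kill_ge {n : ℕ} (i : Fin n) (x : Fin n → F) :
    hammingNorm x ≤ hammingNorm (killAt i x) + 1 := by
  by_cases h : x i = 0
  · have : killAt i x = x := by
      ext l
      by_cases hl : l = i
      · subst hl; simp [killAt, h]
      · simp [killAt, Function.update_of_ne hl]
    rw [this]; omega
  · rw [norm_kill_of_ne i x h]

/-- Lowering the minimum weight by one without changing the dimension. -/
theorem lower_one {n : ℕ} (C : Submodule F (Fin n → F)) {w : ℕ} (hw : 1 ≤ w)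
    (hC : IsLeast (wts C) (w + 1)) :
    ∃ C' : Submodule F (Fin n → F), finrank F C' = finrank F C ∧ IsLeast (wts C') w := by
  obtain ⟨⟨x, hxC, hx0, hxw⟩, hmin⟩ := hC
  obtain ⟨i, hi⟩ : ∃ i, x i ≠ 0 := by
    by_contra hcon
    push Not at hcon
    exact hx0 (funext hcon)
  refine ⟨C.map (killAt i), ?_, ?_⟩
  · -- injectivity on `C`
    have hinj : Function.Injective ((killAt i : (Fin n → F) →ₗ[F] (Fin n → F)) ∘ₗ C.subtype) := by
      rw [← LinearMap.ker_eq_bot, LinearMap.ker_eq_bot']
      intro y hy
      by_contra hne
      have h1 : w + 1 ≤ hammingNorm (y : Fin n → F) := hmin ⟨y, y.2, by simpa using hne, rfl⟩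
      have h2 := norm_kill_ge i (y : Fin n → F)
      have h3 : killAt i (y : Fin n → F) = 0 := hy
      rw [h3, hammingNorm_zero] at h2
      omega
    have h1 : C.map (killAt i) =
        LinearMap.range ((killAt i : (Fin n → F) →ₗ[F] (Fin n → F)) ∘ₗ C.subtype) := by
      rw [LinearMap.range_comp, Submodule.range_subtype]
    rw [h1]
    exact LinearMap.finrank_range_of_inj hinj
  · constructor
    · refine ⟨killAt i x, Submodule.mem_map_of_mem hxC, ?_, ?_⟩
      · intro h0
        have := norm_kill_of_ne i x hi
        rw [h0, hammingNorm_zero] at this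
        omega
      · have := norm_kill_of_ne i x hi
        omega
    · rintro v ⟨y, hy, hy0, rfl⟩
      obtain ⟨z, hzC, rfl⟩ := hy
      have hz0 : z ≠ 0 := by
        rintro rfl
        exact hy0 (map_zero _)
      have h1 : w + 1 ≤ hammingNorm z := hmin ⟨z, hzC, hz0, rfl⟩
      have h2 := norm_kill_ge i z
      omega

/-- From `at least` to `exactly`. -/
theorem exact_of_least {n : ℕ} (C : Submodule F (Fin n → F)) (hC0 : 1 ≤ finrank F C) {d : ℕ}
    (hd : 1 ≤ d) (hC : ∀ x ∈ C, x ≠ 0 → d ≤ hammingNorm x) :
    ∃ C' : Submodule F (Fin n → F), finrank F C' = finrank F C ∧ IsLeast (wts C') d := by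
  have key : ∀ r : ℕ, ∀ C₁ : Submodule F (Fin n → F), finrank F C₁ = finrank F C →
      IsLeast (wts C₁) (d + r) →
      ∃ C' : Submodule F (Fin n → F), finrank F C' = finrank F C ∧ IsLeast (wts C') d := by
    intro r
    induction r with
    | zero => intro C₁ h1 h2; exact ⟨C₁, h1, h2⟩
    | succ r ih =>
      intro C₁ h1 h2
      obtain ⟨C₂, h3, h4⟩ := lower_one C₁ (w := d + r) (by omega) (by simpa [add_assoc] using h2)
      exact ih C₂ (by rw [h3, h1]) h4
  have hne : (wts C).Nonempty := by
    have : Nontrivial C := Module.nontrivial_of_finrank_pos (R := F) (by omega)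
    obtain ⟨x, hx⟩ := exists_ne (0 : C)
    exact ⟨hammingNorm (x : Fin n → F), x, x.2, by simpa using hx, rfl⟩
  have hleast : IsLeast (wts C) (sInf (wts C)) :=
    ⟨Nat.sInf_mem hne, fun v hv => Nat.sInf_le hv⟩
  have hge : d ≤ sInf (wts C) := by
    obtain ⟨x, hx, hx0, hxw⟩ := hleast.1
    rw [← hxw]
    exact hC x hx hx0
  exact key (sInf (wts C) - d) C rfl (by rw [Nat.add_sub_cancel' hge]; exact hleast)

end exact

end Pool.Agent.NearPlotkin
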