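import Mathlib
import Pool.Agent.helper17.Core9

open Finset Module

namespace Pool.Agent.NearPlotkin

section constr

variable {F : Type} [Field F] [Fintype F] [DecidableEq F]

omit [Fintype F] in
/-- A code from a family of functionals. -/
theorem code_of_functionals {V₀ : Type} [AddCommGroup V₀] [Module F V₀] {n d : ℕ}
    (g : Fin n → Module.Dual F V₀) (hd : 1 ≤ d)
    (hg : ∀ v : V₀, v ≠ 0 → d ≤ (univ.filter (fun i => g i v ≠ 0)).card) :
    ∃ C : Submodule F (Fin n → F), finrank F C = finrank F V₀ ∧
      ∀ x ∈ C, x ≠ 0 → d ≤ hammingNorm x := by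
  let L : V₀ →ₗ[F] (Fin n → F) := LinearMap.pi g
  have hL : ∀ v, v ≠ 0 → d ≤ hammingNorm (L v) := by
    intro v hv
    exact hg v hv
  have hinj : Function.Injective L := by
    rw [← LinearMap.ker_eq_bot, LinearMap.ker_eq_bot']
    intro v hv
    by_contra hne
    have := hL v hne
    rw [hv, hammingNorm_zero] at this
    omega
  refine ⟨LinearMap.range L, LinearMap.finrank_range_of_inj hinj, ?_⟩
  rintro x ⟨v, rfl⟩ hx
  apply hL
  rintro rfl
  exact hx (map_zero _)

/-- Number of points where an affine function vanishes. -/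
theorem affine_zeros {P : Type} [AddCommGroup P] [Module F P] [Fintype P] (a : F)
    (β : Module.Dual F P) (h : (a, β) ≠ (0 : F × Module.Dual F P)) :
    (univ.filter (fun p : P => a + β p = 0)).card * Fintype.card F ≤ Fintype.card P := by
  classical
  by_cases hβ : β = 0
  · have ha : a ≠ 0 := by
      rintro rfl
      apply h
      rw [hβ]; rfl
    have : (univ.filter (fun p : P => a + β p = 0)) = ∅ := by
      apply Finset.filter_eq_empty_iff.mpr
      intro p _
      rw [hβ]
      simpa using ha
    rw [this]; simp
  · rcases (univ.filter (fun p : P => a + β p = 0)).eq_empty_or_nonempty with h0 | ⟨p₀, hp₀⟩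
    · rw [h0]; simp
    · have h1 := card_ker_mul β hβ
      rw [← h1]
      apply Nat.mul_le_mul_right
      apply Finset.card_le_card_of_injOn (fun p => p - p₀)
      · intro p hp
        simp only [Finset.coe_filter, Finset.mem_univ, true_and, Set.mem_ofPred_eq,
          Finset.mem_filter] at hp hp₀ ⊢
        rw [map_sub]
        linear_combination hp - hp₀
      · intro p _ p' _ hpp
        simpa using hpp

/-- First order generalised Reed-Muller codes, punctured or padded. -/
theorem exists_affine (r n d : ℕ) (hd : 1 ≤ d)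
    (h1 : d ≤ (Fintype.card F - 1) * Fintype.card F ^ r)
    (h2 : d + Fintype.card F ^ r ≤ n) :
    ∃ C : Submodule F (Fin n → F), finrank F C = r + 2 ∧
      ∀ x ∈ C, x ≠ 0 → d ≤ hammingNorm x := by
  classical
  have hq : 1 < Fintype.card F := Fintype.one_lt_card
  let P := Fin (r + 1) → F
  have hP : Fintype.card P = Fintype.card F ^ (r + 1) := by
    rw [Fintype.card_fun, Fintype.card_fin]
  let eP : Fin (Fintype.card F ^ (r + 1)) ≃ P := (Fintype.equivFinOfCardEq hP).symm
  let φ : P → Module.Dual F (F × Module.Dual F P) := fun p =>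
    LinearMap.fst F F (Module.Dual F P) +
      (Module.Dual.eval F P p) ∘ₗ LinearMap.snd F F (Module.Dual F P)
  have hφ : ∀ p a β, φ p (a, β) = a + β p := by
    intro p a β
    simp [φ]
  let g : Fin n → Module.Dual F (F × Module.Dual F P) := fun i =>
    if h : (i : ℕ) < Fintype.card F ^ (r + 1) then φ (eP ⟨i, h⟩) else 0
  have hfr : finrank F (F × Module.Dual F P) = r + 2 := by
    rw [Module.finrank_prod, Subspace.dual_finrank_eq, Module.finrank_self,
      Module.finrank_fintype_fun_eq_card, Fintype.card_fin]
    ring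
  rw [← hfr]
  refine code_of_functionals g hd ?_
  rintro ⟨a, β⟩ hv
  have hz := affine_zeros a β hv
  rw [hP, pow_succ] at hz
  have hz' : (univ.filter (fun p : P => a + β p = 0)).card ≤ Fintype.card F ^ r :=
    Nat.le_of_mul_le_mul_right hz (by omega)
  -- indices below the bound
  have hidx : (univ.filter (fun i : Fin n => (i : ℕ) < Fintype.card F ^ (r + 1))).card =
      min n (Fintype.card F ^ (r + 1)) := by
    rw [Fin.card_filter_val_lt]
  have hsplit : (univ.filter (fun i : Fin n => (i : ℕ) < Fintype.card F ^ (r + 1))).card ≤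
      (univ.filter (fun i => g i (a, β) ≠ 0)).card +
      (univ.filter (fun i : Fin n => (i : ℕ) < Fintype.card F ^ (r + 1) ∧ g i (a, β) = 0)).card := by
    refine le_trans (Finset.card_le_card ?_) (Finset.card_union_le _ _)
    intro i hi
    rw [Finset.mem_filter] at hi
    rw [Finset.mem_union, Finset.mem_filter, Finset.mem_filter]
    by_cases h : g i (a, β) = 0
    · right; exact ⟨Finset.mem_univ _, hi.2, h⟩
    · left; exact ⟨Finset.mem_univ _, h⟩
  have hzero : (univ.filter
      (fun i : Fin n => (i : ℕ) < Fintype.card F ^ (r + 1) ∧ g i (a, β) = 0)).card ≤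
      (univ.filter (fun p : P => a + β p = 0)).card := by
    apply Finset.card_le_card_of_injOn
      (fun i : Fin n => if h : (i : ℕ) < Fintype.card F ^ (r + 1) then eP ⟨i, h⟩ else 0)
    · intro i hi
      simp only [Finset.coe_filter, Finset.mem_univ, true_and, Set.mem_ofPred_eq] at hi ⊢
      rw [dif_pos hi.1]
      have := hi.2
      simp only [g] at this
      rw [dif_pos hi.1, hφ] at this
      exact this
    · intro i hi i' hi' hii
      simp only [Finset.coe_filter, Finset.mem_univ, true_and, Set.mem_ofPred_eq] at hi hi'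
      simp only at hii
      rw [dif_pos hi.1, dif_pos hi'.1] at hii
      have := eP.injective hii
      simpa [Fin.ext_iff] using this
  have h3 : Fintype.card F ^ (r + 1) = (Fintype.card F - 1) * Fintype.card F ^ r +
      Fintype.card F ^ r := by
    rw [pow_succ, mul_comm]
    obtain ⟨Q, hQ⟩ : ∃ Q, Fintype.card F = Q + 1 := ⟨Fintype.card F - 1, by omega⟩
    rw [hQ, Nat.add_sub_cancel]
    ring
  rcases le_total n (Fintype.card F ^ (r + 1)) with hle | hle
  · rw [min_eq_left hle] at hidx
    omega
  · rw [min_eq_right hle] at hidx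
    omega

/-- Copies of the simplex code, punctured. -/
theorem exists_simplex (r n d : ℕ) (hd : 1 ≤ d)
    (h1 : n + 1 ≤ Fintype.card F ^ (r + 1))
    (h2 : d + Fintype.card F ^ r ≤ n + 1) :
    ∃ C : Submodule F (Fin n → F), finrank F C = r + 1 ∧
      ∀ x ∈ C, x ≠ 0 → d ≤ hammingNorm x := by
  classical
  have hq : 1 < Fintype.card F := Fintype.one_lt_card
  let P := Fin (r + 1) → F
  have hP : Fintype.card P = Fintype.card F ^ (r + 1) := by
    rw [Fintype.card_fun, Fintype.card_fin]
  have hP0 : Fintype.card {p : P // p ≠ 0} = Fintype.card F ^ (r + 1) - 1 := by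
    rw [Fintype.card_subtype_compl, hP, Fintype.card_subtype_eq]
  obtain ⟨f, hf⟩ : ∃ f : Fin n → {p : P // p ≠ 0}, Function.Injective f := by
    have : Fintype.card (Fin n) ≤ Fintype.card {p : P // p ≠ 0} := by
      rw [hP0, Fintype.card_fin]; omega
    obtain ⟨f⟩ := Function.Embedding.nonempty_of_card_le this
    exact ⟨f, f.injective⟩
  let g : Fin n → Module.Dual F (Module.Dual F P) := fun i => Module.Dual.eval F P (f i)
  have hfr : finrank F (Module.Dual F P) = r + 1 := by
    rw [Subspace.dual_finrank_eq, Module.finrank_fintype_fun_eq_card, Fintype.card_fin]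
  rw [← hfr]
  refine code_of_functionals g hd ?_
  intro β hβ
  have hz := card_ker_mul β hβ
  rw [hP, pow_succ] at hz
  have hz' : (univ.filter (fun p : P => β p = 0)).card = Fintype.card F ^ r :=
    Nat.eq_of_mul_eq_mul_right (by omega) hz
  have hzero : (univ.filter (fun i : Fin n => g i β = 0)).card + 1 ≤ Fintype.card F ^ r := by
    rw [← hz']
    have h0 : (0 : P) ∈ univ.filter (fun p : P => β p = 0) := by simp
    rw [← Finset.card_erase_add_one h0]
    apply Nat.add_le_add_right
    apply Finset.card_le_card_of_injOn (fun i : Fin n => ((f i : {p : P // p ≠ 0}) : P))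
    · intro i hi
      simp only [Finset.coe_filter, Finset.mem_univ, true_and, Set.mem_ofPred_eq,
        Finset.coe_erase, Set.mem_sdiff, Set.mem_singleton_iff] at hi ⊢
      exact ⟨hi, (f i).2⟩
    · intro i _ i' _ hii
      exact hf (Subtype.ext hii)
  have hsum := Finset.card_filter_add_card_filter_not (s := (univ : Finset (Fin n)))
    (fun i => g i β = 0)
  rw [Finset.card_univ, Fintype.card_fin] at hsum
  simp only [ne_eq]
  omega

end constr

end Pool.Agent.NearPlotkin
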