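import Mathlib

open Finset Module

namespace Pool.Agent.GapCodes

universe u v

section basic

variable {F : Type*} [Field F] [Fintype F]
variable {V : Type u} [AddCommGroup V] [Module F V] [Fintype V]

/-- Finiteness of the dual space. -/
@[reducible] noncomputable def fintypeDual (F : Type*) [Field F] [Fintype F]
    (V : Type u) [AddCommGroup V] [Module F V] [Fintype V] : Fintype (Module.Dual F V) :=
  @Fintype.ofFinite _ (Module.finite_of_finite F)

attribute [local instance] fintypeDual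

theorem card_dual : Fintype.card (Module.Dual F V) = Fintype.card V := by
  have h1 : Fintype.card (Module.Dual F V) = Fintype.card F ^ finrank F (Module.Dual F V) :=
    Module.card_eq_pow_finrank
  have h2 : Fintype.card V = Fintype.card F ^ finrank F V := Module.card_eq_pow_finrank
  rw [h1, h2, Subspace.dual_finrank_eq]

/-- The character attached to `c`. -/
noncomputable def ch (ψ : AddChar F ℂ) (c : V) (x : Module.Dual F V) : ℂ := ψ (x c)

omit [Fintype F] [Fintype V] in
theorem ch_add (ψ : AddChar F ℂ) (c c' : V) (x : Module.Dual F V) :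
    ch ψ (c + c') x = ch ψ c x * ch ψ c' x := by
  unfold ch; rw [map_add, AddChar.map_add_eq_mul]

omit [Fintype F] [Fintype V] in
theorem ch_zero (ψ : AddChar F ℂ) (x : Module.Dual F V) : ch ψ (0 : V) x = 1 := by
  unfold ch; rw [map_zero, AddChar.map_zero_eq_one]

omit [Fintype F] [Fintype V] in
theorem ch_at_zero (ψ : AddChar F ℂ) (c : V) : ch ψ c (0 : Module.Dual F V) = 1 := by
  unfold ch; rw [LinearMap.zero_apply, AddChar.map_zero_eq_one]

omit [Fintype F] [Fintype V] in
theorem ch_add_right (ψ : AddChar F ℂ) (c : V) (x y : Module.Dual F V) :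
    ch ψ c (x + y) = ch ψ c x * ch ψ c y := by
  unfold ch; rw [LinearMap.add_apply, AddChar.map_add_eq_mul]

omit [Fintype V] in
theorem norm_ch (ψ : AddChar F ℂ) (c : V) (x : Module.Dual F V) : ‖ch ψ c x‖ = 1 := by
  unfold ch; exact ψ.norm_apply _

omit [Fintype V] in
theorem ch_neg (ψ : AddChar F ℂ) (c : V) (x : Module.Dual F V) :
    ch ψ (-c) x = (starRingEnd ℂ) (ch ψ c x) := by
  unfold ch; rw [map_neg, AddChar.map_neg_eq_conj]

/-- Orthogonality. -/
theorem sum_ch [DecidableEq V] (ψ : AddChar F ℂ) (hψ : ψ ≠ 0) (c : V) :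
    ∑ x : Module.Dual F V, ch ψ c x = if c = 0 then (Fintype.card V : ℂ) else 0 := by
  classical
  by_cases hc : c = 0
  · subst hc
    simp only [ch_zero, Finset.sum_const, Finset.card_univ, nsmul_eq_mul, mul_one, if_true]
    rw [card_dual]
  · rw [if_neg hc]
    let Ψ : AddChar (Module.Dual F V) ℂ :=
      ψ.compAddMonoidHom ((Module.Dual.eval F V c).toAddMonoidHom)
    have hΨ : ∀ x, Ψ x = ch ψ c x := fun x => rfl
    have hne : Ψ ≠ 0 := by
      obtain ⟨a, ha⟩ : ∃ a, ψ a ≠ 1 := by
        by_contra hcon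
        push Not at hcon
        exact hψ (by ext a; simpa using hcon a)
      obtain ⟨f, hf⟩ : ∃ f : Module.Dual F V, f c ≠ 0 := by
        by_contra hcon
        push Not at hcon
        exact hc ((Module.forall_dual_apply_eq_zero_iff F c).mp hcon)
      intro h0
      have h1 : Ψ ((a / f c) • f) = 1 := by rw [h0]; simp
      apply ha
      rw [hΨ] at h1
      unfold ch at h1
      rw [LinearMap.smul_apply, smul_eq_mul, div_mul_cancel₀ _ hf] at h1
      exact h1
    have := AddChar.sum_eq_ite Ψ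
    rw [if_neg hne] at this
    rw [← this]
    rfl

/-- Functions with nonnegative Fourier coefficients. -/
def Pd (ψ : AddChar F ℂ) (g : Module.Dual F V → ℂ) : Prop :=
  ∃ a : V → ℝ, (∀ c, 0 ≤ a c) ∧ ∀ x, g x = ∑ c, (a c : ℂ) * ch ψ c x

variable {ψ : AddChar F ℂ}

omit [Fintype F] in
theorem Pd.add {g h : Module.Dual F V → ℂ} (hg : Pd ψ g) (hh : Pd ψ h) :
    Pd ψ (fun x => g x + h x) := by
  obtain ⟨a, ha, hga⟩ := hg
  obtain ⟨b, hb, hhb⟩ := hh
  refine ⟨fun c => a c + b c, fun c => add_nonneg (ha c) (hb c), fun x => ?_⟩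
  beta_reduce
  rw [hga, hhb, ← Finset.sum_add_distrib]
  apply Finset.sum_congr rfl
  intro c _
  push_cast; ring

omit [Fintype F] in
theorem Pd.mul {g h : Module.Dual F V → ℂ} (hg : Pd ψ g) (hh : Pd ψ h) :
    Pd ψ (fun x => g x * h x) := by
  obtain ⟨a, ha, hga⟩ := hg
  obtain ⟨b, hb, hhb⟩ := hh
  refine ⟨fun c => ∑ c', a c' * b (c - c'),
    fun c => Finset.sum_nonneg (fun c' _ => mul_nonneg (ha c') (hb _)), fun x => ?_⟩
  beta_reduce
  rw [hga, hhb, Finset.sum_mul_sum]
  push_cast
  simp_rw [Finset.sum_mul]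
  conv_rhs => rw [Finset.sum_comm]
  apply Finset.sum_congr rfl
  intro c' _
  conv_rhs => rw [← Equiv.sum_comp (Equiv.addLeft c')]
  apply Finset.sum_congr rfl
  intro c _
  simp only [Equiv.coe_addLeft, add_sub_cancel_left]
  rw [ch_add]
  ring

omit [Fintype F] in
theorem Pd.smul {g : Module.Dual F V → ℂ} (hg : Pd ψ g) {r : ℝ} (hr : 0 ≤ r) :
    Pd ψ (fun x => (r : ℂ) * g x) := by
  obtain ⟨a, ha, hga⟩ := hg
  refine ⟨fun c => r * a c, fun c => mul_nonneg hr (ha c), fun x => ?_⟩
  beta_reduce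
  rw [hga, Finset.mul_sum]
  apply Finset.sum_congr rfl
  intro c _
  push_cast; ring

omit [Fintype F] in
theorem Pd.zero : Pd ψ (fun _ : Module.Dual F V => (0 : ℂ)) :=
  ⟨fun _ => 0, fun _ => le_refl _, fun x => by simp⟩

omit [Fintype F] in
theorem Pd.char (c : V) : Pd ψ (fun x : Module.Dual F V => ch ψ c x) := by
  classical
  refine ⟨fun c' => if c' = c then 1 else 0, fun c' => by beta_reduce; split_ifs <;> norm_num, fun x => ?_⟩
  rw [Finset.sum_eq_single c]
  · simp
  · intro b _ hb; simp [hb]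
  · simp

omit [Fintype F] in
theorem Pd.one : Pd ψ (fun _ : Module.Dual F V => (1 : ℂ)) := by
  have := Pd.char (ψ := ψ) (0 : V)
  simpa [ch_zero] using this

omit [Fintype F] in
theorem Pd.pow {g : Module.Dual F V → ℂ} (hg : Pd ψ g) (m : ℕ) :
    Pd ψ (fun x => g x ^ m) := by
  induction m with
  | zero => simpa using Pd.one
  | succ m ih => simpa [pow_succ] using ih.mul hg

/-- Means of such functions are nonnegative. -/
theorem Pd.sum_re_nonneg (hψ : ψ ≠ 0) {g : Module.Dual F V → ℂ} (hg : Pd ψ g) :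
    0 ≤ (∑ x, g x).re := by
  classical
  obtain ⟨a, ha, hga⟩ := hg
  have : ∑ x, g x = (a 0 : ℂ) * Fintype.card V := by
    simp_rw [hga]
    rw [Finset.sum_comm]
    simp_rw [← Finset.mul_sum, sum_ch ψ hψ]
    simp
  rw [this]
  have h2 : ((a 0 : ℂ) * (Fintype.card V : ℂ)).re = a 0 * Fintype.card V := by
    rw [← Complex.ofReal_natCast, ← Complex.ofReal_mul, Complex.ofReal_re]
  rw [h2]
  exact mul_nonneg (ha 0) (by positivity)

omit [Fintype F] in
theorem pow_sub_pow {r s : Module.Dual F V → ℂ} (hr : Pd ψ r) (hs : Pd ψ s) (m : ℕ) :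
    Pd ψ (fun x => (r x + s x) ^ m - r x ^ m) := by
  induction m with
  | zero => simpa using Pd.zero
  | succ m ih =>
    have h1 := (ih.mul (hr.add hs)).add ((hr.pow m).mul hs)
    refine cast (congrArg (Pd ψ) ?_) h1
    funext x
    ring

omit [Fintype F] in
theorem binom_lower {r s : Module.Dual F V → ℂ} (hr : Pd ψ r) (hs : Pd ψ s) (m : ℕ) :
    Pd ψ (fun x => (r x + s x) ^ (m + 1) - ((m : ℂ) + 1) * (s x * r x ^ m)) := by
  induction m with
  | zero => simpa using hr
  | succ m ih =>
    have h1 := (ih.mul hr).add ((pow_sub_pow hr hs (m + 1)).mul hs)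
    refine cast (congrArg (Pd ψ) ?_) h1
    funext x
    push_cast
    ring

omit [Fintype F] in
theorem binom_upper {r s : Module.Dual F V → ℂ} (hr : Pd ψ r) (hs : Pd ψ s) (m : ℕ) :
    Pd ψ (fun x => ((m : ℂ) + 1) * (s x * (r x + s x) ^ m)
      - ((r x + s x) ^ (m + 1) - r x ^ (m + 1))) := by
  induction m with
  | zero => simpa using Pd.zero
  | succ m ih =>
    have h2 : Pd ψ (fun x => (((m + 1 : ℕ) : ℝ) : ℂ) * (s x * s x * (r x + s x) ^ m)) :=
      ((hs.mul hs).mul ((hr.add hs).pow m)).smul (by positivity)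
    have h1 := (ih.mul hr).add h2
    refine cast (congrArg (Pd ψ) ?_) h1
    funext x
    push_cast
    ring

end basic

end Pool.Agent.GapCodes
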