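import Mathlib
import Pool.Agent.helper17.Gap1

open Finset Module

namespace Pool.Agent.GapCodes

universe u v

attribute [local instance] fintypeDual

section pf

variable {F : Type*} [Field F] [Fintype F]
variable {V : Type u} [AddCommGroup V] [Module F V] [Fintype V]

/-- Integer valued functions on the dual space with nonnegative Fourier coefficients. -/
structure PF (ψ : AddChar F ℂ) (j : ℕ) (α : V → ℝ) (ν : Module.Dual F V → ℤ) : Prop where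
  nn : ∀ c, 0 ≤ α c
  hom : ∀ (a : F) (c : V), a ≠ 0 → α (a • c) = α c
  rep : ∀ x, ((ν x : ℤ) : ℂ) = ∑ c, (α c : ℂ) * ch ψ c x
  zero : ν 0 = 1 + j
  le : ∀ x, x ≠ 0 → ν x ≤ 1

variable {ψ : AddChar F ℂ} {j : ℕ} {α : V → ℝ} {ν : Module.Dual F V → ℤ}

theorem PF.rep_neg (h : PF ψ j α ν) (x : Module.Dual F V) :
    ((ν x : ℤ) : ℂ) = ∑ c, (α c : ℂ) * ch ψ (-c) x := by
  have h1 := congrArg (starRingEnd ℂ) (h.rep x)
  rw [map_intCast, map_sum] at h1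
  rw [h1]
  apply Finset.sum_congr rfl
  intro c _
  rw [map_mul, Complex.conj_ofReal, ch_neg]

theorem PF.sum_alpha (h : PF ψ j α ν) : ∑ c, α c = 1 + j := by
  have h1 := h.rep 0
  rw [h.zero] at h1
  simp only [ch_at_zero, mul_one] at h1
  exact_mod_cast h1.symm

variable [DecidableEq V]

theorem PF.sum_mul_ch (h : PF ψ j α ν) (hψ : ψ ≠ 0) (c : V) :
    ∑ x, ((ν x : ℤ) : ℂ) * ch ψ (-c) x = (Fintype.card V : ℂ) * α c := by
  simp_rw [h.rep, Finset.sum_mul]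
  rw [Finset.sum_comm]
  have h1 : ∀ c' : V, ∑ x : Module.Dual F V, (α c' : ℂ) * ch ψ c' x * ch ψ (-c) x =
      if c' = c then (Fintype.card V : ℂ) * α c else 0 := by
    intro c'
    simp_rw [mul_assoc, ← ch_add]
    rw [← Finset.mul_sum, sum_ch ψ hψ]
    by_cases hc : c' = c
    · subst hc; simp [mul_comm]
    · rw [if_neg, if_neg hc, mul_zero]
      intro h0
      apply hc
      rwa [← sub_eq_add_neg, sub_eq_zero] at h0
  simp_rw [h1]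
  simp

/-- First moment. -/
theorem PF.sum_one (h : PF ψ j α ν) (hψ : ψ ≠ 0) :
    ∑ x, (ν x : ℝ) = (Fintype.card V : ℝ) * α 0 := by
  have h1 := h.sum_mul_ch hψ 0
  simp only [neg_zero, ch_zero, mul_one] at h1
  exact_mod_cast h1

/-- Second moment. -/
theorem PF.sum_two (h : PF ψ j α ν) (hψ : ψ ≠ 0) :
    ∑ x, (ν x : ℝ) ^ 2 = (Fintype.card V : ℝ) * ∑ c, α c ^ 2 := by
  have h1 : ∑ x, ((ν x : ℤ) : ℂ) ^ 2 = ∑ c, (α c : ℂ) * ∑ x, ((ν x : ℤ) : ℂ) * ch ψ (-c) x := by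
    simp_rw [Finset.mul_sum]
    rw [Finset.sum_comm]
    apply Finset.sum_congr rfl
    intro x _
    rw [sq]
    nth_rewrite 2 [h.rep_neg x]
    rw [Finset.mul_sum]
    apply Finset.sum_congr rfl
    intro c _
    ring
  simp_rw [h.sum_mul_ch hψ] at h1
  rw [Finset.mul_sum]
  have h2 : ∑ x, ((ν x : ℤ) : ℂ) ^ 2 = ((∑ x, (ν x : ℝ) ^ 2 : ℝ) : ℂ) := by push_cast; rfl
  rw [h2] at h1
  have h3 : ∑ c, (α c : ℂ) * ((Fintype.card V : ℂ) * α c) =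
      ((∑ c, (Fintype.card V : ℝ) * α c ^ 2 : ℝ) : ℂ) := by
    push_cast
    apply Finset.sum_congr rfl
    intro c _
    ring
  rw [h3] at h1
  exact_mod_cast h1

omit [DecidableEq V] in
theorem PF.pd (h : PF ψ j α ν) : Pd ψ (fun x => ((ν x : ℤ) : ℂ)) := ⟨α, h.nn, h.rep⟩

/-- The centred function has nonnegative Fourier coefficients. -/
theorem PF.pd_sub (h : PF ψ j α ν) (c₀ : V) :
    Pd ψ (fun x => ((ν x : ℤ) : ℂ) - (α c₀ : ℂ) * ch ψ c₀ x) := by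
  refine ⟨fun c => if c = c₀ then 0 else α c, fun c => ?_, fun x => ?_⟩
  · beta_reduce
    split_ifs
    · exact le_refl _
    · exact h.nn c
  · beta_reduce
    rw [h.rep x, ← Finset.add_sum_erase univ _ (Finset.mem_univ c₀)]
    rw [← Finset.add_sum_erase univ
      (fun c => (((if c = c₀ then 0 else α c : ℝ) : ℂ)) * ch ψ c x) (Finset.mem_univ c₀)]
    simp only [if_true]
    rw [add_sub_cancel_left]
    simp only [Complex.ofReal_zero, zero_mul, zero_add]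
    apply Finset.sum_congr rfl
    intro c hc
    rw [if_neg (Finset.ne_of_mem_erase hc)]

/-- Third moment of the centred function. -/
theorem PF.sum_three (h : PF ψ j α ν) (hψ : ψ ≠ 0) : 0 ≤ ∑ x, ((ν x : ℝ) - α 0) ^ 3 := by
  have h1 := ((h.pd_sub 0).pow 3).sum_re_nonneg hψ
  have h2 : ∑ x, (((ν x : ℤ) : ℂ) - (α 0 : ℂ) * ch ψ (0 : V) x) ^ 3 =
      ((∑ x, ((ν x : ℝ) - α 0) ^ 3 : ℝ) : ℂ) := by
    push_cast
    apply Finset.sum_congr rfl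
    intro x _
    rw [ch_zero, mul_one]
  rw [h2, Complex.ofReal_re] at h1
  exact h1

/-- The coefficient inequality. -/
theorem PF.coef (h : PF ψ j α ν) (hψ : ψ ≠ 0) (c : V) {m : ℕ} (hm : Even m) :
    ((m : ℝ) + 2) * (α c * (∑ x, (ν x : ℝ) ^ (m + 1) - ((m : ℝ) + 1) * α c * ∑ x, (ν x : ℝ) ^ m)) ≤
      (∑ x, ((ν x : ℤ) : ℂ) ^ (m + 2) * ch ψ (-c) x).re := by
  have hs : Pd ψ (fun x : Module.Dual F V => (α c : ℂ) * ch ψ c x) := (Pd.char c).smul (h.nn c)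
  have hr := h.pd_sub c
  have hrs : ∀ x, (((ν x : ℤ) : ℂ) - (α c : ℂ) * ch ψ c x) + (α c : ℂ) * ch ψ c x =
      ((ν x : ℤ) : ℂ) := fun x => by ring
  have hcc : ∀ x : Module.Dual F V, ch ψ c x * ch ψ (-c) x = 1 := by
    intro x; rw [← ch_add, add_neg_cancel, ch_zero]
  -- step 1
  have b1 := ((binom_lower hr hs (m + 1)).mul (Pd.char (-c))).sum_re_nonneg hψ
  simp only [hrs] at b1
  have e1 : ∑ x, (((ν x : ℤ) : ℂ) ^ (m + 1 + 1) - (((m + 1 : ℕ) : ℂ) + 1) *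
      ((α c : ℂ) * ch ψ c x * (((ν x : ℤ) : ℂ) - (α c : ℂ) * ch ψ c x) ^ (m + 1))) * ch ψ (-c) x =
      ∑ x, ((ν x : ℤ) : ℂ) ^ (m + 2) * ch ψ (-c) x -
        (((((m : ℝ) + 2) * α c : ℝ)) : ℂ) *
          ∑ x, (((ν x : ℤ) : ℂ) - (α c : ℂ) * ch ψ c x) ^ (m + 1) := by
    rw [Finset.mul_sum, ← Finset.sum_sub_distrib]
    apply Finset.sum_congr rfl
    intro x _
    have := hcc x
    push_cast
    linear_combination (-(((m : ℂ) + 2) * α c *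
      (((ν x : ℤ) : ℂ) - (α c : ℂ) * ch ψ c x) ^ (m + 1))) * this
  rw [e1, Complex.sub_re, Complex.re_ofReal_mul] at b1
  -- step 2
  have b2 := (binom_upper hr hs m).sum_re_nonneg hψ
  simp only [hrs] at b2
  have e2 : ∑ x, (((m : ℂ) + 1) * ((α c : ℂ) * ch ψ c x * ((ν x : ℤ) : ℂ) ^ m) -
      (((ν x : ℤ) : ℂ) ^ (m + 1) - (((ν x : ℤ) : ℂ) - (α c : ℂ) * ch ψ c x) ^ (m + 1))) =
      (((((m : ℝ) + 1) * α c : ℝ)) : ℂ) * ∑ x, ch ψ c x * ((ν x : ℤ) : ℂ) ^ m -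
      ((∑ x, (ν x : ℝ) ^ (m + 1) : ℝ) : ℂ) +
      ∑ x, (((ν x : ℤ) : ℂ) - (α c : ℂ) * ch ψ c x) ^ (m + 1) := by
    push_cast
    rw [Finset.mul_sum, ← Finset.sum_sub_distrib, ← Finset.sum_add_distrib]
    apply Finset.sum_congr rfl
    intro x _
    ring
  rw [e2, Complex.add_re, Complex.sub_re, Complex.re_ofReal_mul, Complex.ofReal_re] at b2
  -- step 3
  have b3 : (∑ x, ch ψ c x * ((ν x : ℤ) : ℂ) ^ m).re ≤ ∑ x, (ν x : ℝ) ^ m := by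
    rw [Complex.re_sum]
    apply Finset.sum_le_sum
    intro x _
    have e3 : ((ν x : ℤ) : ℂ) ^ m = (((ν x : ℝ) ^ m : ℝ) : ℂ) := by push_cast; rfl
    rw [e3, mul_comm, Complex.re_ofReal_mul]
    have h5 : (ch ψ c x).re ≤ 1 := by
      calc (ch ψ c x).re ≤ ‖ch ψ c x‖ := Complex.re_le_norm _
        _ = 1 := norm_ch ψ c x
    have h6 : 0 ≤ (ν x : ℝ) ^ m := hm.pow_nonneg _
    nlinarith
  have hm2 : (0 : ℝ) ≤ (m : ℝ) + 2 := by positivity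
  have hm1 : (0 : ℝ) ≤ (m : ℝ) + 1 := by positivity
  have hα := h.nn c
  have b4 : ((m : ℝ) + 1) * α c * (∑ x, ch ψ c x * ((ν x : ℤ) : ℂ) ^ m).re ≤
      ((m : ℝ) + 1) * α c * ∑ x, (ν x : ℝ) ^ m :=
    mul_le_mul_of_nonneg_left b3 (mul_nonneg hm1 hα)
  have b5 : ∑ x, (ν x : ℝ) ^ (m + 1) - ((m : ℝ) + 1) * α c * ∑ x, (ν x : ℝ) ^ m ≤
      (∑ x, (((ν x : ℤ) : ℂ) - (α c : ℂ) * ch ψ c x) ^ (m + 1)).re := by linarith
  have b6 : ((m : ℝ) + 2) * α c *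
      (∑ x, (ν x : ℝ) ^ (m + 1) - ((m : ℝ) + 1) * α c * ∑ x, (ν x : ℝ) ^ m) ≤
      ((m : ℝ) + 2) * α c * (∑ x, (((ν x : ℤ) : ℂ) - (α c : ℂ) * ch ψ c x) ^ (m + 1)).re :=
    mul_le_mul_of_nonneg_left b5 (mul_nonneg hm2 hα)
  linarith

/-- The variance. -/
def vv (α : V → ℝ) : ℝ := ∑ c ∈ univ.erase (0 : V), α c ^ 2

/-- The moment inequality. -/
theorem PF.moment (h : PF ψ j α ν) (hψ : ψ ≠ 0) {m : ℕ} (hm : Even m) {β : ℝ}
    (hβ : ∀ c, c ≠ 0 → α c ≤ β) :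
    ((m : ℝ) + 2) * (vv α * ∑ x, (ν x : ℝ) ^ (m + 1) -
        ((m : ℝ) + 1) * (β * vv α) * ∑ x, (ν x : ℝ) ^ m) ≤
      ∑ x, (ν x : ℝ) ^ (m + 3) - α 0 * ∑ x, (ν x : ℝ) ^ (m + 2) := by
  have h1 : ∑ c ∈ univ.erase (0 : V), α c * ((∑ x, ((ν x : ℤ) : ℂ) ^ (m + 2) * ch ψ (-c) x).re) =
      ∑ x, (ν x : ℝ) ^ (m + 3) - α 0 * ∑ x, (ν x : ℝ) ^ (m + 2) := by
    have e1 : ∑ c ∈ univ.erase (0 : V), α c * ((∑ x, ((ν x : ℤ) : ℂ) ^ (m + 2) * ch ψ (-c) x).re) =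
        (∑ x, ((ν x : ℤ) : ℂ) ^ (m + 2) * ∑ c ∈ univ.erase (0 : V), (α c : ℂ) * ch ψ (-c) x).re := by
      simp_rw [Finset.mul_sum]
      rw [Finset.sum_comm, Complex.re_sum]
      apply Finset.sum_congr rfl
      intro c _
      rw [← Complex.re_ofReal_mul, Finset.mul_sum]
      congr 1
      apply Finset.sum_congr rfl
      intro x _
      ring
    have e2 : ∀ x : Module.Dual F V, ∑ c ∈ univ.erase (0 : V), (α c : ℂ) * ch ψ (-c) x =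
        (((ν x : ℝ) - α 0 : ℝ) : ℂ) := by
      intro x
      have := h.rep_neg x
      rw [← Finset.add_sum_erase univ _ (Finset.mem_univ (0 : V))] at this
      rw [neg_zero, ch_zero, mul_one] at this
      push_cast
      rw [this]; ring
    rw [e1]
    simp_rw [e2]
    have e3 : ∑ x, ((ν x : ℤ) : ℂ) ^ (m + 2) * (((ν x : ℝ) - α 0 : ℝ) : ℂ) =
        ((∑ x, (ν x : ℝ) ^ (m + 3) - α 0 * ∑ x, (ν x : ℝ) ^ (m + 2) : ℝ) : ℂ) := by
      push_cast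
      rw [Finset.mul_sum, ← Finset.sum_sub_distrib]
      apply Finset.sum_congr rfl
      intro x _
      ring
    rw [e3, Complex.ofReal_re]
  rw [← h1]
  have hev : 0 ≤ ∑ x, (ν x : ℝ) ^ m := Finset.sum_nonneg (fun x _ => hm.pow_nonneg _)
  have h2 : ∀ c ∈ univ.erase (0 : V), ((m : ℝ) + 2) * (α c ^ 2 * ∑ x, (ν x : ℝ) ^ (m + 1) -
      ((m : ℝ) + 1) * (β * α c ^ 2) * ∑ x, (ν x : ℝ) ^ m) ≤
      α c * ((∑ x, ((ν x : ℤ) : ℂ) ^ (m + 2) * ch ψ (-c) x).re) := by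
    intro c hc
    have h3 := h.coef hψ c hm
    have h4 := mul_le_mul_of_nonneg_left h3 (h.nn c)
    have h5 : α c ^ 2 * α c ≤ α c ^ 2 * β :=
      mul_le_mul_of_nonneg_left (hβ c (Finset.ne_of_mem_erase hc)) (by positivity)
    have h6 : ((m : ℝ) + 2) * (((m : ℝ) + 1) * (∑ x, (ν x : ℝ) ^ m)) * (α c ^ 2 * α c) ≤
        ((m : ℝ) + 2) * (((m : ℝ) + 1) * (∑ x, (ν x : ℝ) ^ m)) * (α c ^ 2 * β) :=
      mul_le_mul_of_nonneg_left h5 (by positivity)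
    nlinarith [h4, h6]
  calc _ = ∑ c ∈ univ.erase (0 : V), ((m : ℝ) + 2) * (α c ^ 2 * ∑ x, (ν x : ℝ) ^ (m + 1) -
      ((m : ℝ) + 1) * (β * α c ^ 2) * ∑ x, (ν x : ℝ) ^ m) := by
        unfold vv
        rw [← Finset.mul_sum, Finset.sum_sub_distrib, ← Finset.sum_mul, ← Finset.sum_mul,
          ← Finset.mul_sum, ← Finset.mul_sum]
    _ ≤ _ := Finset.sum_le_sum h2

theorem sum_sq_split (α : V → ℝ) : ∑ c, α c ^ 2 = α 0 ^ 2 + vv α := by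
  unfold vv
  rw [Finset.add_sum_erase univ (fun c => α c ^ 2) (Finset.mem_univ (0 : V))]

end pf

end Pool.Agent.GapCodes
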