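import Mathlib
import Pool.Agent.helper17.Gap2

open Finset Module

namespace Pool.Agent.GapCodes

universe u v

attribute [local instance] fintypeDual

section pf

variable {F : Type*} [Field F] [Fintype F]
variable {V : Type u} [AddCommGroup V] [Module F V] [Fintype V] [DecidableEq V]
variable {ψ : AddChar F ℂ} {j : ℕ} {α : V → ℝ} {ν : Module.Dual F V → ℤ}

omit [Fintype F] in
theorem vv_nonneg (α : V → ℝ) : 0 ≤ vv α := Finset.sum_nonneg (fun _ _ => by positivity)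

/-- Moments of the centred function. -/
theorem PF.centred (h : PF ψ j α ν) (hψ : ψ ≠ 0) :
    ∑ x, ((ν x : ℝ) - α 0) = 0 ∧
    ∑ x, ((ν x : ℝ) - α 0) ^ 2 = (Fintype.card V : ℝ) * vv α := by
  have h1 := h.sum_one hψ
  have h2 := h.sum_two hψ
  rw [sum_sq_split α] at h2
  constructor
  · rw [Finset.sum_sub_distrib, h1]
    simp only [Finset.sum_const, Finset.card_univ, nsmul_eq_mul, card_dual]
    ring
  · have : ∑ x, ((ν x : ℝ) - α 0) ^ 2 =
        ∑ x, (ν x : ℝ) ^ 2 - 2 * α 0 * ∑ x, (ν x : ℝ) + (Fintype.card V : ℝ) * α 0 ^ 2 := by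
      have hc : (Fintype.card V : ℝ) * α 0 ^ 2 = ∑ _x : Module.Dual F V, α 0 ^ 2 := by
        simp only [Finset.sum_const, Finset.card_univ, nsmul_eq_mul, card_dual]
      rw [hc, Finset.mul_sum, ← Finset.sum_sub_distrib, ← Finset.sum_add_distrib]
      apply Finset.sum_congr rfl
      intro x _
      ring
    rw [this, h1, h2]
    ring

/-- The star inequality. -/
theorem PF.star (h : PF ψ j α ν) (hψ : ψ ≠ 0) :
    (Fintype.card V : ℝ) * (1 - α 0) * vv α * (vv α - (1 - α 0) ^ 2) ≤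
      j * (vv α + (1 - α 0) * (1 + j - α 0)) ^ 2 := by
  classical
  obtain ⟨h1, h2⟩ := h.centred hψ
  have h3 := h.sum_three hψ
  set s := α 0 with hs
  set v := vv α with hv
  have h4 : -((j : ℝ) * (v + (1 - s) * (1 + j - s)) ^ 2) ≤
      ∑ x, (v + (1 - s) * ((ν x : ℝ) - s)) ^ 2 * (1 - (ν x : ℝ)) := by
    rw [← Finset.add_sum_erase univ _ (Finset.mem_univ (0 : Module.Dual F V))]
    have e1 : (v + (1 - s) * ((ν 0 : ℝ) - s)) ^ 2 * (1 - (ν 0 : ℝ)) =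
        -((j : ℝ) * (v + (1 - s) * (1 + j - s)) ^ 2) := by
      rw [h.zero]; push_cast; ring
    rw [e1]
    have e2 : 0 ≤ ∑ x ∈ univ.erase (0 : Module.Dual F V),
        (v + (1 - s) * ((ν x : ℝ) - s)) ^ 2 * (1 - (ν x : ℝ)) := by
      apply Finset.sum_nonneg
      intro x hx
      have h5 : (ν x : ℝ) ≤ 1 := by exact_mod_cast h.le x (Finset.ne_of_mem_erase hx)
      exact mul_nonneg (sq_nonneg _) (by linarith)
    linarith
  have h5 : ∑ x, (v + (1 - s) * ((ν x : ℝ) - s)) ^ 2 * (1 - (ν x : ℝ)) =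
      (Fintype.card V : ℝ) * (v ^ 2 * (1 - s)) +
      (2 * v * (1 - s) ^ 2 - v ^ 2) * ∑ x, ((ν x : ℝ) - s) +
      ((1 - s) ^ 3 - 2 * v * (1 - s)) * ∑ x, ((ν x : ℝ) - s) ^ 2 -
      (1 - s) ^ 2 * ∑ x, ((ν x : ℝ) - s) ^ 3 := by
    have hc : (Fintype.card V : ℝ) * (v ^ 2 * (1 - s)) =
        ∑ _x : Module.Dual F V, v ^ 2 * (1 - s) := by
      simp only [Finset.sum_const, Finset.card_univ, nsmul_eq_mul, card_dual]
    rw [hc, Finset.mul_sum, Finset.mul_sum, Finset.mul_sum, ← Finset.sum_add_distrib,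
      ← Finset.sum_add_distrib, ← Finset.sum_sub_distrib]
    apply Finset.sum_congr rfl
    intro x _
    ring
  rw [h1, h2] at h5
  rw [h5] at h4
  have h6 : 0 ≤ (1 - s) ^ 2 * ∑ x, ((ν x : ℝ) - s) ^ 3 := mul_nonneg (sq_nonneg _) h3
  nlinarith

/-- Lower bound for the variance, from integrality. -/
theorem PF.var_ge (h : PF ψ j α ν) (hψ : ψ ≠ 0) :
    (Fintype.card V : ℝ) * (α 0 * (1 - α 0)) ≤ (Fintype.card V : ℝ) * vv α := by
  have h1 := h.sum_one hψ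
  have h2 := h.sum_two hψ
  rw [sum_sq_split α] at h2
  have h3 : ∑ x, (ν x : ℝ) ≤ ∑ x, (ν x : ℝ) ^ 2 := by
    apply Finset.sum_le_sum
    intro x _
    have : (ν x : ℤ) ≤ (ν x) ^ 2 := by nlinarith [sq_nonneg (ν x), Int.le_self_sq (ν x)]
    exact_mod_cast this
  rw [h1, h2] at h3
  linarith

theorem PF.var_ge' (h : PF ψ j α ν) (hψ : ψ ≠ 0) : α 0 * (1 - α 0) ≤ vv α := by
  have h1 := h.var_ge hψ
  have h2 : (0 : ℝ) < (Fintype.card V : ℝ) := by
    have : 0 < Fintype.card V := Fintype.card_pos_iff.mpr ⟨0⟩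
    exact_mod_cast this
  exact le_of_mul_le_mul_left h1 h2

/-- Pointwise inequality. -/
theorem G_le (y : ℤ) (hy : y ≤ 1) {μ : ℕ} (hμ : Even μ) (hμ0 : μ ≠ 0) {s w e : ℝ}
    (hs : 0 ≤ s) (he : 0 ≤ e) (hes : e ≤ s) (hw : w + e / 2 ≤ 4)
    (hA : 1 - s - w + e ≤ 0) :
    (y : ℝ) ^ μ * ((y : ℝ) ^ 3 - s * (y : ℝ) ^ 2 - w * y + e) ≤ (1 - s - w + e) * y := by
  rcases lt_trichotomy y 0 with hneg | h0 | hpos
  · have hpm : (y : ℝ) ^ μ = (-(y : ℝ)) ^ μ := (hμ.neg_pow _).symm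
    rcases (show y = -1 ∨ y ≤ -2 by omega) with h1 | h2
    · subst h1
      push_cast
      rw [hμ.neg_pow, one_pow]
      nlinarith
    · have hl : (2 : ℝ) ≤ -(y : ℝ) := by
        have : (y : ℝ) ≤ -2 := by exact_mod_cast h2
        linarith
      have h3 : 0 ≤ (y : ℝ) ^ μ := hμ.pow_nonneg _
      have h4 : (y : ℝ) ^ 3 - s * (y : ℝ) ^ 2 - w * y + e ≤ 0 := by
        set l : ℝ := -(y : ℝ) with hldef
        have hy' : (y : ℝ) = -l := by rw [hldef]; ring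
        rw [hy']
        have h5 : 0 ≤ s * l ^ 2 := by positivity
        have h6 : e ≤ l * (e / 2) := by nlinarith
        have h7 : l * (w + e / 2) ≤ l * 4 := mul_le_mul_of_nonneg_left hw (by linarith)
        have h8 : l * 4 ≤ l ^ 3 := by nlinarith [mul_nonneg (by linarith : (0:ℝ) ≤ l) (by nlinarith : (0:ℝ) ≤ l ^ 2 - 4)]
        nlinarith
      have h5 : (y : ℝ) ^ μ * ((y : ℝ) ^ 3 - s * (y : ℝ) ^ 2 - w * y + e) ≤ 0 :=
        mul_nonpos_of_nonneg_of_nonpos h3 h4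
      have h6 : 0 ≤ (1 - s - w + e) * y := mul_nonneg_of_nonpos_of_nonpos hA (by linarith)
      linarith
  · subst h0
    simp [zero_pow hμ0]
  · have h1 : y = 1 := by omega
    subst h1
    simp

/-- One step of the bootstrapping. -/
theorem PF.boot (h : PF ψ j α ν) (hψ : ψ ≠ 0) {μ : ℕ} (hμ : Even μ) (hμ0 : μ ≠ 0) {β : ℝ}
    (hβ0 : 0 ≤ β) (hβ : ∀ c, c ≠ 0 → α c ≤ β)
    (hes : ((μ : ℝ) + 2) * ((μ : ℝ) + 1) * β * vv α ≤ α 0)
    (hw : ((μ : ℝ) + 2) * vv α + ((μ : ℝ) + 2) * ((μ : ℝ) + 1) * β * vv α / 2 ≤ 4)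
    (hX : 2 * (1 + (j : ℝ)) ≤ (Fintype.card V : ℝ) * α 0) (hs1 : α 0 ≤ 1) :
    ((μ : ℝ) + 2) * vv α ≤ 1 - α 0 + ((μ : ℝ) + 2) * ((μ : ℝ) + 1) * β * vv α +
      4 * (1 + (j : ℝ)) ^ (μ + 3) / ((Fintype.card V : ℝ) * α 0) := by
  classical
  have hv0 := vv_nonneg α
  have hmom := h.moment hψ hμ hβ
  set s := α 0 with hs
  set v := vv α with hv
  set X := (Fintype.card V : ℝ) with hXdef
  set w := ((μ : ℝ) + 2) * v with hwdef
  set e := ((μ : ℝ) + 2) * ((μ : ℝ) + 1) * β * v with hedef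
  have hT : (1 : ℝ) ≤ 1 + (j : ℝ) := by
    have : (0 : ℝ) ≤ (j : ℝ) := by positivity
    linarith
  set T : ℝ := 1 + (j : ℝ) with hTdef
  have hXs : 0 < X * s := by linarith
  have he0 : 0 ≤ e := by positivity
  have hs0 : 0 ≤ s := by linarith
  by_contra hcon
  push Not at hcon
  have htpos : 0 < 4 * T ^ (μ + 3) / (X * s) := by positivity
  have hA : 1 - s - w + e ≤ 0 := by linarith
  -- total sum
  have hsum : 0 ≤ ∑ x, (ν x : ℝ) ^ μ * ((ν x : ℝ) ^ 3 - s * (ν x : ℝ) ^ 2 - w * ν x + e) := by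
    have e1 : ∑ x, (ν x : ℝ) ^ μ * ((ν x : ℝ) ^ 3 - s * (ν x : ℝ) ^ 2 - w * ν x + e) =
        (∑ x, (ν x : ℝ) ^ (μ + 3) - s * ∑ x, (ν x : ℝ) ^ (μ + 2)) -
          ((μ : ℝ) + 2) * (v * ∑ x, (ν x : ℝ) ^ (μ + 1) -
        ((μ : ℝ) + 1) * (β * v) * ∑ x, (ν x : ℝ) ^ μ) := by
      simp only [Finset.mul_sum]
      rw [← Finset.sum_sub_distrib, ← Finset.sum_sub_distrib, Finset.mul_sum,
        ← Finset.sum_sub_distrib]
      apply Finset.sum_congr rfl
      intro x _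
      rw [hwdef, hedef]
      ring
    rw [e1]
    linarith
  rw [← Finset.add_sum_erase univ _ (Finset.mem_univ (0 : Module.Dual F V))] at hsum
  have hrest : ∑ x ∈ univ.erase (0 : Module.Dual F V),
      (ν x : ℝ) ^ μ * ((ν x : ℝ) ^ 3 - s * (ν x : ℝ) ^ 2 - w * ν x + e) ≤
      ∑ x ∈ univ.erase (0 : Module.Dual F V), (1 - s - w + e) * ν x := by
    apply Finset.sum_le_sum
    intro x hx
    exact G_le (ν x) (h.le x (Finset.ne_of_mem_erase hx)) hμ hμ0 hs0 he0 hes hw hA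
  rw [← Finset.mul_sum] at hrest
  have hone := h.sum_one hψ
  rw [← Finset.add_sum_erase univ _ (Finset.mem_univ (0 : Module.Dual F V))] at hone
  have hz : (ν 0 : ℝ) = T := by rw [h.zero, hTdef]; push_cast; ring
  rw [hz] at hone hsum
  have hrem : ∑ x ∈ univ.erase (0 : Module.Dual F V), (ν x : ℝ) = X * s - T := by
    rw [← hXdef, ← hs] at hone
    linarith
  rw [hrem] at hrest
  have hTm : T ^ μ * (T ^ 3 - s * T ^ 2 - w * T + e) ≤ 2 * T ^ (μ + 3) := by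
    have hT3 : 1 ≤ T ^ 3 := one_le_pow₀ hT
    have h1 : T ^ 3 - s * T ^ 2 - w * T + e ≤ 2 * T ^ 3 := by
      have : 0 ≤ s * T ^ 2 := by positivity
      have : 0 ≤ w * T := by positivity
      linarith
    calc T ^ μ * (T ^ 3 - s * T ^ 2 - w * T + e) ≤ T ^ μ * (2 * T ^ 3) :=
          mul_le_mul_of_nonneg_left h1 (by positivity)
      _ = 2 * T ^ (μ + 3) := by rw [pow_add]; ring
  have hXsT : X * s / 2 ≤ X * s - T := by linarith
  have h9 : (1 - s - w + e) * (X * s - T) ≤ (1 - s - w + e) * (X * s / 2) :=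
    mul_le_mul_of_nonpos_left hXsT hA
  have h10 : 0 ≤ 2 * T ^ (μ + 3) + (1 - s - w + e) * (X * s / 2) := by linarith
  have h11 : -(1 - s - w + e) ≤ 4 * T ^ (μ + 3) / (X * s) := by
    rw [le_div_iff₀ hXs]
    linarith
  linarith

end pf

end Pool.Agent.GapCodes
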