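import Mathlib
import Pool.Agent.helper17.Gap3

open Finset Module

namespace Pool.Agent.GapCodes

universe u v

attribute [local instance] fintypeDual

section pf

variable {F : Type*} [Field F] [Fintype F]
variable {V : Type u} [AddCommGroup V] [Module F V] [Fintype V] [DecidableEq V]
variable {ψ : AddChar F ℂ} {j : ℕ} {α : V → ℝ} {ν : Module.Dual F V → ℤ}

omit [Fintype F] [DecidableEq V] [Fintype V] [Module F V] [AddCommGroup V] [Field F] in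
theorem num_ap1 (X s v T j ε : ℝ) (hj0 : 0 ≤ j) (hjT : j ≤ T) (hT : 1 ≤ T)
    (hXε : 800 * T ^ 5 ≤ X * ε) (hXs : X * ε ≤ X * s) (hX0 : 0 < X) (hs0 : 0 < s)
    (hs2 : s ≤ 3 / 4)
    (hstar2 : X * (1 - s) * v * (v - (1 - s) ^ 2) ≤ j * (v + T) ^ 2) : v ≤ 1 := by
  by_contra hcon
  push Not at hcon
  have hh : (1 : ℝ) / 4 ≤ 1 - s := by linarith
  have hT3 : T ^ 3 ≤ T ^ 5 := pow_le_pow_right₀ hT (by norm_num)
  have hT5 : 1 ≤ T ^ 5 := one_le_pow₀ hT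
  have h1 : v * s ≤ v - (1 - s) ^ 2 := by
    have e1 : (1 - s) ^ 2 ≤ (1 - s) * v := by
      have : (1 - s) * (1 - s) ≤ (1 - s) * v := mul_le_mul_of_nonneg_left (by linarith) (by linarith)
      linarith
    linarith
  have h2 : v + T ≤ v * (1 + T) := by
    have : 1 * T ≤ v * T := mul_le_mul_of_nonneg_right hcon.le (by linarith)
    linarith
  have h3 : (v + T) ^ 2 ≤ (v * (1 + T)) ^ 2 := pow_le_pow_left₀ (by linarith) h2 2
  have h4 : X * (1 - s) * v * (v * s) ≤ X * (1 - s) * v * (v - (1 - s) ^ 2) :=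
    mul_le_mul_of_nonneg_left h1
      (mul_nonneg (mul_nonneg hX0.le (by linarith)) (by linarith))
  have h5 : (v ^ 2) * (X * (1 - s) * s) ≤ (v ^ 2) * (j * (1 + T) ^ 2) := by
    have : j * (v + T) ^ 2 ≤ j * (v * (1 + T)) ^ 2 := mul_le_mul_of_nonneg_left h3 hj0
    linarith
  have h6 : X * (1 - s) * s ≤ j * (1 + T) ^ 2 := le_of_mul_le_mul_left h5 (by positivity)
  have h7 : (1 + T) ^ 2 ≤ 4 * T ^ 2 := by
    have : (1 + T) ^ 2 ≤ (2 * T) ^ 2 := pow_le_pow_left₀ (by linarith) (by linarith) 2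
    linarith
  have h8 : j * (1 + T) ^ 2 ≤ T * (4 * T ^ 2) :=
    mul_le_mul hjT h7 (by positivity) (by linarith)
  have h9 : (X * s) * (1 / 4) ≤ (X * s) * (1 - s) :=
    mul_le_mul_of_nonneg_left hh (by positivity)
  linarith

omit [Fintype F] [DecidableEq V] [Fintype V] [Module F V] [AddCommGroup V] [Field F] in
theorem num_ap2 (X s v T j ε : ℝ) (hjT : j ≤ T) (hT : 1 ≤ T) (hε0 : 0 < ε)
    (hs1 : ε ≤ s) (hX : 400 * T ^ 5 ≤ ε ^ 2 * X)
    (hX0 : 0 < X) (hs0 : 0 < s)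
    (hs2 : s ≤ 3 / 4) (hv0 : 0 ≤ v) (hvge : s * (1 - s) ≤ v) (hv1 : v ≤ 1)
    (hstar2 : X * (1 - s) * v * (v - (1 - s) ^ 2) ≤ j * (v + T) ^ 2) :
    4 * v ≤ 4 - 4 * s := by
  have hh : (1 : ℝ) / 4 ≤ 1 - s := by linarith
  have hT3 : T ^ 3 ≤ T ^ 5 := pow_le_pow_right₀ hT (by norm_num)
  have hT5 : 1 ≤ T ^ 5 := one_le_pow₀ hT
  have hss : s ^ 2 ≤ 3 / 4 * s := by
    have : s * s ≤ 3 / 4 * s := mul_le_mul_of_nonneg_right hs2 hs0.le
    linarith
  rcases le_total v ((1 - s) ^ 2) with hle | hge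
  · linarith
  · have h1 : (v + T) ^ 2 ≤ (1 + T) ^ 2 := pow_le_pow_left₀ (by linarith) (by linarith) 2
    have h2 : j * (v + T) ^ 2 ≤ T * (4 * T ^ 2) := by
      have h7 : (1 + T) ^ 2 ≤ 4 * T ^ 2 := by
        have : (1 + T) ^ 2 ≤ (2 * T) ^ 2 := pow_le_pow_left₀ (by linarith) (by linarith) 2
        linarith
      exact mul_le_mul hjT (le_trans h1 h7) (by positivity) (by linarith)
    have h3 : (X * s) * (1 / 16) ≤ X * (1 - s) * v := by
      have e1 : X * (1 - s) * (s * (1 - s)) ≤ X * (1 - s) * v :=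
        mul_le_mul_of_nonneg_left hvge (mul_nonneg hX0.le (by linarith))
      have e2 : ((1 : ℝ) / 4) ^ 2 ≤ (1 - s) ^ 2 := pow_le_pow_left₀ (by norm_num) hh 2
      have e3 : (X * s) * ((1 : ℝ) / 4) ^ 2 ≤ (X * s) * (1 - s) ^ 2 :=
        mul_le_mul_of_nonneg_left e2 (by positivity)
      linarith
    have h4 : (X * s) * (1 / 16) * (v - (1 - s) ^ 2) ≤ T * (4 * T ^ 2) := by
      have e1 : (X * s) * (1 / 16) * (v - (1 - s) ^ 2) ≤ X * (1 - s) * v * (v - (1 - s) ^ 2) :=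
        mul_le_mul_of_nonneg_right h3 (by linarith)
      linarith
    have h5 : v - (1 - s) ^ 2 ≤ 4 / 25 * s := by
      by_contra hcon
      push Not at hcon
      have e1 : (X * s) * (1 / 16) * (4 / 25 * s) < (X * s) * (1 / 16) * (v - (1 - s) ^ 2) :=
        mul_lt_mul_of_pos_left hcon (by positivity)
      have e2 : ε ^ 2 * X ≤ s ^ 2 * X := by
        have : ε ^ 2 ≤ s ^ 2 := pow_le_pow_left₀ hε0.le hs1 2
        exact mul_le_mul_of_nonneg_right this hX0.le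
      linarith
    linarith

/-- A priori bounds for the variance. -/
theorem PF.apriori (h : PF ψ j α ν) (hψ : ψ ≠ 0) {ε : ℝ} (hε0 : 0 < ε) (hε : ε ≤ 1 / 2)
    (hs1 : ε ≤ α 0) (hs2 : α 0 ≤ 3 / 4)
    (hX : 400 * (1 + (j : ℝ)) ^ 5 ≤ ε ^ 2 * Fintype.card V) :
    vv α ≤ 1 ∧ 4 * vv α ≤ 4 - 4 * α 0 := by
  have hv0 := vv_nonneg α
  have hstar := h.star hψ
  have hvge := h.var_ge' hψ
  have hj0 : (0 : ℝ) ≤ (j : ℝ) := by positivity
  set s := α 0 with hs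
  set v := vv α with hv
  set X := (Fintype.card V : ℝ) with hXdef
  set T : ℝ := 1 + (j : ℝ) with hTdef
  have hT : 1 ≤ T := by linarith
  have hjT : (j : ℝ) ≤ T := by linarith
  have hT5 : 1 ≤ T ^ 5 := one_le_pow₀ hT
  have hX0 : 0 < X := by
    by_contra hneg
    push Not at hneg
    have : ε ^ 2 * X ≤ 0 := mul_nonpos_of_nonneg_of_nonpos (by positivity) hneg
    linarith
  have hXε : 800 * T ^ 5 ≤ X * ε := by
    have h1 : ε * (X * ε) ≤ (1 / 2) * (X * ε) := mul_le_mul_of_nonneg_right hε (by positivity)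
    linarith
  have hXs : X * ε ≤ X * s := mul_le_mul_of_nonneg_left hs1 hX0.le
  have hTs0 : 0 ≤ T - s := by linarith
  have hPle : v + (1 - s) * (T - s) ≤ v + T := by
    have e1 : (1 - s) * (T - s) ≤ 1 * T :=
      mul_le_mul (by linarith) (by linarith) hTs0 (by norm_num)
    linarith
  have hP0 : 0 ≤ v + (1 - s) * (T - s) := by
    have : 0 ≤ (1 - s) * (T - s) := mul_nonneg (by linarith) hTs0
    linarith
  have hsq : (v + (1 - s) * (T - s)) ^ 2 ≤ (v + T) ^ 2 := pow_le_pow_left₀ hP0 hPle 2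
  have hstar2 : X * (1 - s) * v * (v - (1 - s) ^ 2) ≤ j * (v + T) ^ 2 :=
    le_trans hstar (mul_le_mul_of_nonneg_left hsq hj0)
  have hv1 : v ≤ 1 := num_ap1 X s v T j ε hj0 hjT hT hXε hXs hX0 (by linarith) hs2 hstar2
  exact ⟨hv1, num_ap2 X s v T j ε hjT hT hε0 hs1 hX hX0 (by linarith) hs2 hv0 hvge hv1 hstar2⟩

theorem PF.boot' (h : PF ψ j α ν) (hψ : ψ ≠ 0) {ε : ℝ} (hε0 : 0 < ε) (hε : ε ≤ 1 / 2)
    (hs1 : ε ≤ α 0) (hs2 : α 0 ≤ 3 / 4) {K : ℕ} (hK : 2 ≤ K)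
    (hX : 400 * (1 + (j : ℝ)) ^ (2 * K + 1) ≤ ε ^ 2 * Fintype.card V)
    (hβ : ∀ c, c ≠ 0 → α c ≤ ε / (40 * (K + 1))) (i : ℕ) (hi2 : 2 ≤ i) (hiK : i ≤ K) :
    2 * (i : ℝ) * vv α ≤ 1 - α 0 + 11 / 100 * ε := by
  have hT : (1 : ℝ) ≤ 1 + (j : ℝ) := by
    have : (0 : ℝ) ≤ (j : ℝ) := by positivity
    linarith
  have hX5 : 400 * (1 + (j : ℝ)) ^ 5 ≤ ε ^ 2 * Fintype.card V := by
    refine le_trans (mul_le_mul_of_nonneg_left ?_ (by norm_num)) hX
    exact pow_le_pow_right₀ hT (by omega)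
  obtain ⟨hv1, hv4⟩ := h.apriori hψ hε0 hε hs1 hs2 hX5
  have hv0 := vv_nonneg α
  set s := α 0 with hs
  set v := vv α with hv
  set X := (Fintype.card V : ℝ) with hXdef
  set T : ℝ := 1 + (j : ℝ) with hTdef
  set β : ℝ := ε / (40 * (K + 1)) with hβdef
  have hKr : (2 : ℝ) ≤ (K : ℝ) := by exact_mod_cast hK
  have hβ0 : 0 ≤ β := by positivity
  have hβK : β * (40 * (K + 1)) = ε := by
    rw [hβdef]; field_simp
  have hT1 : 1 ≤ T ^ (2 * K + 1) := one_le_pow₀ hT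
  have hX0 : 0 < X := by
    by_contra hneg
    push Not at hneg
    have : ε ^ 2 * X ≤ 0 := mul_nonpos_of_nonneg_of_nonpos (by positivity) hneg
    linarith
  have hTT : T ≤ T ^ (2 * K + 1) := by
    calc T = T ^ 1 := (pow_one T).symm
      _ ≤ T ^ (2 * K + 1) := pow_le_pow_right₀ hT (by omega)
  have hXs : ε * X ≤ X * s := by nlinarith
  have hXs2 : 800 * T ^ (2 * K + 1) ≤ X * s := by
    have h1 : ε ^ 2 * X ≤ (1 / 2) * (ε * X) := by
      have : ε * (ε * X) ≤ (1 / 2) * (ε * X) := mul_le_mul_of_nonneg_right hε (by positivity)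
      nlinarith
    linarith
  -- the general step
  have step : ∀ i : ℕ, 2 ≤ i → i ≤ K → 2 * (i : ℝ) * (2 * (i : ℝ) - 1) * β * v ≤ ε / 10 →
      2 * (i : ℝ) * v ≤ 4 - ε / 20 → 2 * (i : ℝ) * v ≤ 1 - s + 11 / 100 * ε := by
    intro i hi hiK hE hw
    obtain ⟨μ, rfl⟩ : ∃ μ, i = μ + 1 := ⟨i - 1, by omega⟩
    have hμ1 : 1 ≤ μ := by omega
    have hb := h.boot hψ (μ := 2 * μ) (even_two_mul μ) (by omega) hβ0 hβ
    have e1 : (((2 * μ : ℕ) : ℝ) + 2) = 2 * ((μ + 1 : ℕ) : ℝ) := by push_cast; ring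
    have e2 : (((2 * μ : ℕ) : ℝ) + 1) = 2 * ((μ + 1 : ℕ) : ℝ) - 1 := by push_cast; ring
    rw [e1, e2] at hb
    have hb2 := hb (by linarith) (by linarith) (by linarith) (by linarith)
    have ht : 4 * T ^ (2 * μ + 3) / (X * s) ≤ ε / 100 := by
      rw [div_le_iff₀ (by linarith)]
      have h1 : T ^ (2 * μ + 3) ≤ T ^ (2 * K + 1) := pow_le_pow_right₀ hT (by omega)
      have h2 : ε * (ε * X) ≤ ε * (X * s) := mul_le_mul_of_nonneg_left hXs hε0.le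
      nlinarith
    linarith
  induction i, hi2 using Nat.le_induction with
  | base =>
    apply step 2 (le_refl _) hK
    · push_cast
      have h1 : β * v ≤ β * 1 := mul_le_mul_of_nonneg_left hv1 hβ0
      have h2 : β * 120 ≤ ε := by
        rw [← hβK]
        apply mul_le_mul_of_nonneg_left _ hβ0
        linarith
      nlinarith
    · push_cast
      linarith
  | succ i hi ih =>
    have ih' := ih (by omega)
    have hir : (2 : ℝ) ≤ (i : ℝ) := by exact_mod_cast hi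
    have hiK' : (i : ℝ) + 1 ≤ K := by exact_mod_cast hiK
    have hiv : 2 * (i : ℝ) * v ≤ 1 := by linarith
    apply step (i + 1) (by omega) hiK
    · push_cast
      -- 2(i+1)(2i+1) β v ≤ (2i+4) β
      have h1 : (2 * ((i : ℝ) + 1) * (2 * ((i : ℝ) + 1) - 1)) * (2 * (i : ℝ) * v) ≤
          (2 * ((i : ℝ) + 1) * (2 * ((i : ℝ) + 1) - 1)) * 1 :=
        mul_le_mul_of_nonneg_left hiv (by nlinarith)
      have h2 : 2 * ((i : ℝ) + 1) * (2 * ((i : ℝ) + 1) - 1) ≤ (2 * (i : ℝ) + 4) * (2 * i) := by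
        nlinarith
      have h3 : (2 * (i : ℝ)) * (2 * ((i : ℝ) + 1) * (2 * ((i : ℝ) + 1) - 1) * v) ≤
          (2 * (i : ℝ)) * (2 * (i : ℝ) + 4) := by nlinarith
      have h4 : 2 * ((i : ℝ) + 1) * (2 * ((i : ℝ) + 1) - 1) * v ≤ 2 * (i : ℝ) + 4 :=
        le_of_mul_le_mul_left h3 (by linarith)
      have h5 : β * (2 * ((i : ℝ) + 1) * (2 * ((i : ℝ) + 1) - 1) * v) ≤ β * (2 * (i : ℝ) + 4) :=
        mul_le_mul_of_nonneg_left h4 hβ0
      have h6 : β * (2 * (i : ℝ) + 4) ≤ β * (4 * (K + 1)) :=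
        mul_le_mul_of_nonneg_left (by linarith) hβ0
      linarith
    · push_cast
      have h1 : 2 * ((i : ℝ) + 1) * v ≤ 3 / 2 := by nlinarith
      linarith

/-- Existence of a large coefficient. -/
theorem PF.heavy (h : PF ψ j α ν) (hψ : ψ ≠ 0) {ε : ℝ} (hε0 : 0 < ε) (hε : ε ≤ 1 / 2)
    (hs1 : ε ≤ α 0) (hs2 : α 0 ≤ 3 / 4) {K : ℕ} (hK : 2 ≤ K) (hKε : 1 ≤ K * ε)
    (hX : 400 * (1 + (j : ℝ)) ^ (2 * K + 1) ≤ ε ^ 2 * Fintype.card V) :
    ∃ c, c ≠ 0 ∧ ε / (40 * (K + 1)) < α c := by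
  by_contra hcon
  push Not at hcon
  have h1 := h.boot' hψ hε0 hε hs1 hs2 hK hX hcon K hK (le_refl _)
  have h2 := h.var_ge' hψ
  have hKr : (2 : ℝ) ≤ (K : ℝ) := by exact_mod_cast hK
  have h3 : 1 ≤ K * α 0 := by nlinarith
  have h4 : 2 * (K : ℝ) * (α 0 * (1 - α 0)) ≤ 2 * (K : ℝ) * vv α :=
    mul_le_mul_of_nonneg_left h2 (by linarith)
  have h5 : (1 - α 0) * 1 ≤ (1 - α 0) * (K * α 0) :=
    mul_le_mul_of_nonneg_left h3 (by linarith)
  nlinarith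

end pf

end Pool.Agent.GapCodes
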