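import Mathlib
import Pool.Agent.helper17.Gap4

open Finset Module

namespace Pool.Agent.GapCodes

universe u v

attribute [local instance] fintypeDual

section quot

variable {F : Type*} [Field F] [Fintype F]
variable {V : Type u} [AddCommGroup V] [Module F V] [Fintype V]
variable {ψ : AddChar F ℂ} {j : ℕ} {α : V → ℝ} {ν : Module.Dual F V → ℤ}

open Classical in
/-- Fibre sums over a quotient. -/
noncomputable def aq (α : V → ℝ) (U : Submodule F V) (cb : V ⧸ U) : ℝ :=
  ∑ c : V, if U.mkQ c = cb then α c else 0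

/-- Restriction to the annihilator. -/
def nq (ν : Module.Dual F V → ℤ) (U : Submodule F V) (x : Module.Dual F (V ⧸ U)) : ℤ :=
  ν (x ∘ₗ U.mkQ)

open Classical in
/-- Sum of the coefficients over a subspace. -/
noncomputable def sg (α : V → ℝ) (U : Submodule F V) : ℝ :=
  ∑ c : V, if c ∈ U then α c else 0

omit [Fintype F] in
theorem aq_zero (α : V → ℝ) (U : Submodule F V) : aq α U 0 = sg α U := by
  classical
  unfold aq sg
  apply Finset.sum_congr rfl
  intro c _
  by_cases hc : c ∈ U
  · rw [if_pos hc, if_pos]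
    simpa using hc
  · rw [if_neg hc, if_neg]
    simpa using hc

omit [Fintype F] in
theorem PF.quot (h : PF ψ j α ν) (U : Submodule F V) [Fintype (V ⧸ U)] :
    PF ψ j (aq α U) (nq ν U) := by
  classical
  refine ⟨?_, ?_, ?_, ?_, ?_⟩
  · intro cb
    unfold aq
    apply Finset.sum_nonneg
    intro c _
    split_ifs
    · exact h.nn c
    · exact le_refl _
  · intro a cb ha
    unfold aq
    rw [← Equiv.sum_comp (LinearEquiv.smulOfNeZero F V a ha).toEquiv]
    apply Finset.sum_congr rfl
    intro c _
    have h1 : (LinearEquiv.smulOfNeZero F V a ha).toEquiv c = a • c := rfl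
    rw [h1, map_smul, h.hom a c ha]
    by_cases hc : U.mkQ c = cb
    · rw [if_pos hc, if_pos (by rw [hc])]
    · rw [if_neg hc, if_neg]
      intro h2
      exact hc (smul_right_injective _ ha h2)
  · intro x
    unfold nq
    rw [h.rep]
    have h1 : ∀ c : V, ch ψ c (x ∘ₗ U.mkQ) = ch ψ (U.mkQ c) x := fun c => rfl
    simp_rw [h1]
    unfold aq
    push_cast
    simp_rw [Finset.sum_mul]
    rw [Finset.sum_comm]
    apply Finset.sum_congr rfl
    intro c _
    rw [Finset.sum_eq_single (U.mkQ c)]
    · simp
    · intro b _ hb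
      rw [if_neg (Ne.symm hb)]
      simp
    · simp
  · unfold nq
    rw [LinearMap.zero_comp, h.zero]
  · intro x hx
    unfold nq
    apply h.le
    intro h0
    apply hx
    ext c
    simpa using LinearMap.congr_fun h0 c

/-- One step of the density increment. -/
theorem PF.step (h : PF ψ j α ν) (hψ : ψ ≠ 0) {ε : ℝ} (hε0 : 0 < ε) (hε : ε ≤ 1 / 2)
    (U : Submodule F V) (hs1 : ε ≤ sg α U) (hs2 : sg α U ≤ 3 / 4)
    {K : ℕ} (hK : 2 ≤ K) (hKε : 1 ≤ K * ε)
    (hX : 400 * (1 + (j : ℝ)) ^ (2 * K + 1) ≤
      ε ^ 2 * (Fintype.card F : ℝ) ^ (finrank F V - finrank F U)) :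
    ∃ U' : Submodule F V, finrank F U' = finrank F U + 1 ∧
      sg α U + ε / (40 * (K + 1)) ≤ sg α U' := by
  classical
  let _ : Fintype (V ⧸ U) := Fintype.ofFinite _
  have hq := h.quot U
  have hcard : (Fintype.card (V ⧸ U) : ℝ) =
      (Fintype.card F : ℝ) ^ (finrank F V - finrank F U) := by
    have h1 : Fintype.card (V ⧸ U) = Fintype.card F ^ finrank F (V ⧸ U) :=
      Module.card_eq_pow_finrank
    have h2 := Submodule.finrank_quotient_add_finrank U
    have h3 : finrank F (V ⧸ U) = finrank F V - finrank F U := by omega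
    rw [h1, h3]; push_cast; rfl
  have h0 : aq α U 0 = sg α U := aq_zero α U
  obtain ⟨cb, hcb, hbig⟩ := hq.heavy hψ hε0 hε (by rw [h0]; exact hs1) (by rw [h0]; exact hs2)
    hK hKε (by rw [hcard]; exact hX)
  let U' : Submodule F V := (Submodule.span F {cb}).comap U.mkQ
  refine ⟨U', ?_, ?_⟩
  · -- dimension
    have h1 : finrank F (Submodule.span F {cb}) = 1 := finrank_span_singleton hcb
    have h2 : U'.map U.mkQ = Submodule.span F {cb} :=
      Submodule.map_comap_eq_of_surjective U.mkQ_surjective _
    have hUU' : U ≤ U' := by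
      intro x hx
      rw [Submodule.mem_comap]
      have : U.mkQ x = 0 := by simpa using hx
      rw [this]; exact Submodule.zero_mem _
    have h3 := LinearMap.finrank_range_add_finrank_ker (U.mkQ ∘ₗ U'.subtype)
    have h4 : LinearMap.range (U.mkQ ∘ₗ U'.subtype) = Submodule.span F {cb} := by
      rw [LinearMap.range_comp, Submodule.range_subtype, h2]
    have h5 : finrank F (LinearMap.ker (U.mkQ ∘ₗ U'.subtype)) = finrank F U := by
      have h6 : LinearMap.ker (U.mkQ ∘ₗ U'.subtype) = U.comap U'.subtype := by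
        rw [LinearMap.ker_comp, Submodule.ker_mkQ]
      rw [h6]
      exact (Submodule.comapSubtypeEquivOfLe hUU').finrank_eq
    rw [h4, h1, h5] at h3
    omega
  · have h1 : sg α U + aq α U cb ≤ sg α U' := by
      rw [← h0]
      unfold aq sg
      rw [← Finset.sum_add_distrib]
      apply Finset.sum_le_sum
      intro c _
      have hnn := h.nn c
      by_cases hc0 : U.mkQ c = 0
      · have h2 : ¬ (U.mkQ c = cb) := by rw [hc0]; exact Ne.symm hcb
        have h3 : c ∈ U' := by
          rw [Submodule.mem_comap, hc0]; exact Submodule.zero_mem _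
        rw [if_pos hc0, if_neg h2, if_pos h3]; linarith
      · by_cases hc1 : U.mkQ c = cb
        · have h3 : c ∈ U' := by
            rw [Submodule.mem_comap, hc1]; exact Submodule.mem_span_singleton_self cb
          rw [if_neg hc0, if_pos hc1, if_pos h3]; linarith
        · rw [if_neg hc0, if_neg hc1]
          split_ifs <;> linarith
    linarith

omit [Fintype F] in
theorem sg_bot [DecidableEq V] (α : V → ℝ) : sg α (⊥ : Submodule F V) = α 0 := by
  unfold sg
  rw [Finset.sum_eq_single 0]
  · simp
  · intro b _ hb; simp [hb]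
  · simp

/-- Existence of a subspace of bounded dimension with large coefficient sum. -/
theorem PF.exists_dense (h : PF ψ j α ν) (hψ : ψ ≠ 0) {ε : ℝ} (hε0 : 0 < ε) (hε : ε ≤ 1 / 2)
    (hs1 : ε ≤ α 0) {K I : ℕ} (hK : 2 ≤ K) (hKε : 1 ≤ K * ε)
    (hI : 3 / 4 < I * (ε / (40 * (K + 1))))
    (hX : 400 * (1 + (j : ℝ)) ^ (2 * K + 1) ≤
      ε ^ 2 * (Fintype.card F : ℝ) ^ (finrank F V - I)) :
    ∃ U : Submodule F V, finrank F U ≤ I ∧ 3 / 4 < sg α U := by
  classical
  have hq1 : (1 : ℝ) ≤ (Fintype.card F : ℝ) := by exact_mod_cast Fintype.card_pos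
  have claim : ∀ i : ℕ, i ≤ I → (∃ U : Submodule F V, finrank F U ≤ I ∧ 3 / 4 < sg α U) ∨
      (∃ U : Submodule F V, finrank F U = i ∧ ε + i * (ε / (40 * (K + 1))) ≤ sg α U) := by
    intro i
    induction i with
    | zero =>
      intro _
      right
      refine ⟨⊥, finrank_bot F V, ?_⟩
      rw [sg_bot]; simpa using hs1
    | succ i ih =>
      intro hi
      rcases ih (by omega) with h1 | ⟨U, hU1, hU2⟩
      · left; exact h1
      · rcases lt_or_ge (3 / 4) (sg α U) with h2 | h2
        · left; exact ⟨U, by omega, h2⟩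
        · right
          have hβ : 0 ≤ (i : ℝ) * (ε / (40 * (K + 1))) := by positivity
          obtain ⟨U', hU'1, hU'2⟩ := h.step hψ hε0 hε U (by linarith) h2 hK hKε (by
            refine le_trans hX ?_
            apply mul_le_mul_of_nonneg_left _ (by positivity)
            apply pow_le_pow_right₀ hq1
            omega)
          refine ⟨U', by omega, ?_⟩
          push_cast
          linarith
  rcases claim I (le_refl _) with h1 | ⟨U, hU1, hU2⟩
  · exact h1
  · exact ⟨U, by omega, by linarith⟩

end quot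

end Pool.Agent.GapCodes
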