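import Mathlib
import Pool.Agent.helper17.Gap5

open Finset Module

namespace Pool.Agent.GapCodes

universe u v

attribute [local instance] fintypeDual

section parseval

variable {F : Type*} [Field F] [Fintype F]
variable {V : Type u} [AddCommGroup V] [Module F V] [Fintype V]
variable {ψ : AddChar F ℂ}

/-- Parseval for complex coefficients. -/
theorem parseval (hψ : ψ ≠ 0) (b : V → ℂ) (g : Module.Dual F V → ℂ)
    (hg : ∀ x, g x = ∑ c, b c * ch ψ c x) :
    ∑ x, ‖g x‖ ^ 2 = (Fintype.card V : ℝ) * ∑ c, ‖b c‖ ^ 2 := by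
  classical
  have h1 : ∀ x, ((‖g x‖ ^ 2 : ℝ) : ℂ) =
      ∑ c, ∑ c', b c * (starRingEnd ℂ) (b c') * ch ψ (c - c') x := by
    intro x
    push_cast
    rw [← Complex.mul_conj', hg, map_sum, Finset.sum_mul_sum]
    apply Finset.sum_congr rfl
    intro c _
    apply Finset.sum_congr rfl
    intro c' _
    rw [map_mul, sub_eq_add_neg, ch_add, ch_neg]
    ring
  have h2 : ((∑ x, ‖g x‖ ^ 2 : ℝ) : ℂ) =
      (((Fintype.card V : ℝ) * ∑ c, ‖b c‖ ^ 2 : ℝ) : ℂ) := by
    rw [Complex.ofReal_sum]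
    simp_rw [h1]
    rw [Finset.sum_comm]
    have h3 : ∀ c : V, ∑ x : Module.Dual F V,
        ∑ c', b c * (starRingEnd ℂ) (b c') * ch ψ (c - c') x =
        (Fintype.card V : ℂ) * ((‖b c‖ : ℂ) ^ 2) := by
      intro c
      rw [Finset.sum_comm]
      simp_rw [← Finset.mul_sum, sum_ch ψ hψ]
      rw [Finset.sum_eq_single c]
      · rw [sub_self, if_pos rfl, ← Complex.mul_conj']
        ring
      · intro c' _ hc'
        rw [if_neg, mul_zero]
        rw [sub_eq_zero]
        exact Ne.symm hc'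
      · simp
    simp_rw [h3]
    push_cast
    rw [Finset.mul_sum]
  exact_mod_cast h2

/-- Sum over scalars. -/
theorem sum_scalar [DecidableEq F] (hψ : ψ ≠ 0) (a : F) :
    ∑ t : F, ψ (t * a) = if a = 0 then (Fintype.card F : ℂ) else 0 := by
  have hp : ψ.IsPrimitive := AddChar.IsPrimitive.of_ne_one hψ
  have := AddChar.sum_mulShift a hp
  rw [this]
  split_ifs <;> simp

end parseval

section coset

variable {F : Type*} [Field F] [Fintype F]
variable {V : Type u} [AddCommGroup V] [Module F V] [Fintype V]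
variable {ψ : AddChar F ℂ} {j : ℕ} {α : V → ℝ} {ν : Module.Dual F V → ℤ}

/-- The restriction of `ν` to a coset of the annihilator of `U`. -/
def shiftq (ν : Module.Dual F V → ℤ) (U : Submodule F V) (y : Module.Dual F V)
    (x : Module.Dual F (V ⧸ U)) : ℤ := ν (y + x ∘ₗ U.mkQ)

open Classical in
/-- Fourier coefficients on a coset. -/
noncomputable def bq (ψ : AddChar F ℂ) (α : V → ℝ) (U : Submodule F V) (y : Module.Dual F V)
    (cb : V ⧸ U) : ℂ :=
  ∑ c : V, if U.mkQ c = cb then (α c : ℂ) * ch ψ c y else 0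

omit [Fintype F] in
theorem PF.shift_rep (h : PF ψ j α ν) (U : Submodule F V) [Fintype (V ⧸ U)]
    (y : Module.Dual F V) (x : Module.Dual F (V ⧸ U)) :
    ((shiftq ν U y x : ℤ) : ℂ) = ∑ cb, bq ψ α U y cb * ch ψ cb x := by
  classical
  unfold shiftq
  rw [h.rep]
  have h1 : ∀ c : V, ch ψ c (x ∘ₗ U.mkQ) = ch ψ (U.mkQ c) x := fun c => rfl
  simp_rw [ch_add_right, h1]
  unfold bq
  simp_rw [Finset.sum_mul]
  rw [Finset.sum_comm]
  apply Finset.sum_congr rfl
  intro c _
  rw [Finset.sum_eq_single (U.mkQ c)]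
  · simp only [if_true]; ring
  · intro b _ hb
    rw [if_neg (Ne.symm hb)]
    simp
  · simp

theorem PF.norm_bq_le (h : PF ψ j α ν) (U : Submodule F V) (y : Module.Dual F V) (cb : V ⧸ U) :
    ‖bq ψ α U y cb‖ ≤ aq α U cb := by
  classical
  unfold bq aq
  refine le_trans (norm_sum_le _ _) ?_
  apply Finset.sum_le_sum
  intro c _
  split_ifs
  · rw [norm_mul, norm_ch, mul_one, Complex.norm_real, Real.norm_of_nonneg (h.nn c)]
  · simp

/-- Mean of `ν` over a coset. -/
noncomputable def my (ν : Module.Dual F V → ℤ) (U : Submodule F V) [Fintype (V ⧸ U)]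
    (y : Module.Dual F V) : ℝ :=
  (∑ x : Module.Dual F (V ⧸ U), (shiftq ν U y x : ℝ)) / Fintype.card (V ⧸ U)

omit [Fintype F] [Fintype V] in
theorem card_quot_pos (U : Submodule F V) [Fintype (V ⧸ U)] :
    (0 : ℝ) < (Fintype.card (V ⧸ U) : ℝ) := by
  have : 0 < Fintype.card (V ⧸ U) := Fintype.card_pos_iff.mpr ⟨0⟩
  exact_mod_cast this

theorem PF.my_eq (h : PF ψ j α ν) (hψ : ψ ≠ 0) (U : Submodule F V) [Fintype (V ⧸ U)]
    (y : Module.Dual F V) : ((my ν U y : ℝ) : ℂ) = bq ψ α U y 0 := by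
  classical
  have hY := card_quot_pos U
  have h1 : ∑ x : Module.Dual F (V ⧸ U), ((shiftq ν U y x : ℤ) : ℂ) =
      (Fintype.card (V ⧸ U) : ℂ) * bq ψ α U y 0 := by
    simp_rw [h.shift_rep U y]
    rw [Finset.sum_comm]
    simp_rw [← Finset.mul_sum, sum_ch ψ hψ]
    simp [mul_comm]
  unfold my
  push_cast
  rw [h1]
  have : (Fintype.card (V ⧸ U) : ℂ) ≠ 0 := by exact_mod_cast hY.ne'
  field_simp

/-- Second moment on a coset. -/
theorem PF.coset_sq (h : PF ψ j α ν) (hψ : ψ ≠ 0) (U : Submodule F V) [Fintype (V ⧸ U)]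
    [DecidableEq (V ⧸ U)] (y : Module.Dual F V) :
    ∑ x : Module.Dual F (V ⧸ U), (shiftq ν U y x : ℝ) ^ 2 ≤
      (Fintype.card (V ⧸ U) : ℝ) * (my ν U y ^ 2 + vv (aq α U)) := by
  have h1 := parseval hψ (bq ψ α U y) (fun x => ((shiftq ν U y x : ℤ) : ℂ)) (h.shift_rep U y)
  have h2 : ∀ x : Module.Dual F (V ⧸ U), ‖((shiftq ν U y x : ℤ) : ℂ)‖ ^ 2 =
      (shiftq ν U y x : ℝ) ^ 2 := by
    intro x
    rw [Complex.norm_intCast, sq_abs]
  simp_rw [h2] at h1
  rw [h1]
  apply mul_le_mul_of_nonneg_left _ (by positivity)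
  rw [← Finset.add_sum_erase univ _ (Finset.mem_univ (0 : V ⧸ U))]
  apply add_le_add
  · rw [← h.my_eq hψ U y, Complex.norm_real, Real.norm_eq_abs, sq_abs]
  · unfold vv
    apply Finset.sum_le_sum
    intro cb _
    exact pow_le_pow_left₀ (norm_nonneg _) (h.norm_bq_le U y cb) 2

/-- Integrality of coset means. -/
theorem PF.my_int (h : PF ψ j α ν) (hψ : ψ ≠ 0) (U : Submodule F V) [Fintype (V ⧸ U)]
    [DecidableEq (V ⧸ U)] (y : Module.Dual F V) :
    my ν U y - my ν U y ^ 2 ≤ vv (aq α U) ∧ -my ν U y - my ν U y ^ 2 ≤ vv (aq α U) := by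
  have hY := card_quot_pos U
  have h1 := h.coset_sq hψ U y
  have h2 : ∑ x : Module.Dual F (V ⧸ U), (shiftq ν U y x : ℝ) =
      (Fintype.card (V ⧸ U) : ℝ) * my ν U y := by
    unfold my; field_simp
  have h3 : ∑ x : Module.Dual F (V ⧸ U), (shiftq ν U y x : ℝ) ≤
      ∑ x : Module.Dual F (V ⧸ U), (shiftq ν U y x : ℝ) ^ 2 := by
    apply Finset.sum_le_sum
    intro x _
    have : (shiftq ν U y x : ℤ) ≤ (shiftq ν U y x) ^ 2 := Int.le_self_sq _
    exact_mod_cast this
  have h4 : ∑ x : Module.Dual F (V ⧸ U), -(shiftq ν U y x : ℝ) ≤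
      ∑ x : Module.Dual F (V ⧸ U), (shiftq ν U y x : ℝ) ^ 2 := by
    apply Finset.sum_le_sum
    intro x _
    have : -(shiftq ν U y x : ℤ) ≤ (shiftq ν U y x) ^ 2 := by
      have := Int.le_self_sq (-(shiftq ν U y x))
      rwa [neg_sq] at this
    exact_mod_cast this
  rw [Finset.sum_neg_distrib] at h4
  rw [h2] at h3 h4
  constructor
  · have h5 : (Fintype.card (V ⧸ U) : ℝ) * (my ν U y - my ν U y ^ 2) ≤
        (Fintype.card (V ⧸ U) : ℝ) * vv (aq α U) := by linarith
    exact le_of_mul_le_mul_left h5 hY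
  · have h5 : (Fintype.card (V ⧸ U) : ℝ) * (-my ν U y - my ν U y ^ 2) ≤
        (Fintype.card (V ⧸ U) : ℝ) * vv (aq α U) := by linarith
    exact le_of_mul_le_mul_left h5 hY

omit [Fintype F] in
theorem bq_zero (ψ : AddChar F ℂ) (α : V → ℝ) (U : Submodule F V) (y : Module.Dual F V) :
    bq ψ α U y 0 = ∑ c : V, (Set.indicator (U : Set V) (fun c => (α c : ℂ) * ch ψ c y)) c := by
  classical
  unfold bq
  apply Finset.sum_congr rfl
  intro c _
  by_cases hc : c ∈ U
  · rw [Set.indicator_of_mem (by exact hc), if_pos]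
    simpa using hc
  · rw [Set.indicator_of_notMem (by exact hc), if_neg]
    simpa using hc

/-- Homogeneity of coset means. -/
theorem PF.my_smul (h : PF ψ j α ν) (hψ : ψ ≠ 0) (U : Submodule F V) [Fintype (V ⧸ U)]
    (y : Module.Dual F V) {a : F} (ha : a ≠ 0) : my ν U (a • y) = my ν U y := by
  classical
  have h1 := h.my_eq hψ U (a • y)
  have h2 := h.my_eq hψ U y
  have h3 : bq ψ α U (a • y) 0 = bq ψ α U y 0 := by
    rw [bq_zero, bq_zero]
    conv_rhs => rw [← Equiv.sum_comp (LinearEquiv.smulOfNeZero F V a ha).toEquiv]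
    apply Finset.sum_congr rfl
    intro c _
    have e1 : (LinearEquiv.smulOfNeZero F V a ha).toEquiv c = a • c := rfl
    rw [e1]
    by_cases hc : c ∈ U
    · have hc' : a • c ∈ U := U.smul_mem a hc
      rw [Set.indicator_of_mem (by exact hc), Set.indicator_of_mem (by exact hc'), h.hom a c ha]
      have e2 : (a • y) c = y (a • c) := by rw [LinearMap.smul_apply, y.map_smul]
      unfold ch
      rw [e2]
    · have hc' : a • c ∉ U := by
        intro h0
        apply hc
        have := U.smul_mem a⁻¹ h0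
        rwa [smul_smul, inv_mul_cancel₀ ha, one_smul] at this
      rw [Set.indicator_of_notMem (by exact hc), Set.indicator_of_notMem (by exact hc')]
  rw [h3, ← h2] at h1
  exact_mod_cast h1

theorem PF.my_zero (h : PF ψ j α ν) (hψ : ψ ≠ 0) (U : Submodule F V) [Fintype (V ⧸ U)] :
    my ν U 0 = sg α U := by
  classical
  have h1 := h.my_eq hψ U 0
  have h2 : bq ψ α U 0 0 = ((sg α U : ℝ) : ℂ) := by
    rw [bq_zero]
    unfold sg
    push_cast
    apply Finset.sum_congr rfl
    intro c _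
    by_cases hc : c ∈ U
    · rw [Set.indicator_of_mem (by exact hc), if_pos hc, ch_at_zero, mul_one]
    · rw [Set.indicator_of_notMem (by exact hc), if_neg hc, Complex.ofReal_zero]
  rw [h2] at h1
  exact_mod_cast h1

/-- Coefficient sum over a hyperplane of `U`. -/
theorem PF.sg_inf_ker (h : PF ψ j α ν) (hψ : ψ ≠ 0) (U : Submodule F V) [Fintype (V ⧸ U)]
    (y : Module.Dual F V) :
    (Fintype.card F : ℝ) * sg α (U ⊓ LinearMap.ker y) =
      sg α U + ((Fintype.card F : ℝ) - 1) * my ν U y := by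
  classical
  have h1 : ∑ t : F, ((my ν U (t • y) : ℝ) : ℂ) =
      (((Fintype.card F : ℝ) * sg α (U ⊓ LinearMap.ker y) : ℝ) : ℂ) := by
    simp_rw [h.my_eq hψ U, bq_zero]
    rw [Finset.sum_comm]
    unfold sg
    push_cast
    rw [Finset.mul_sum]
    apply Finset.sum_congr rfl
    intro c _
    by_cases hc : c ∈ U
    · have e1 : ∀ t : F, (U : Set V).indicator (fun c => (α c : ℂ) * ch ψ c (t • y)) c =
          (α c : ℂ) * ψ (t * y c) := by
        intro t
        rw [Set.indicator_of_mem (by exact hc)]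
        rfl
      simp_rw [e1]
      rw [← Finset.mul_sum, sum_scalar hψ]
      by_cases hy : y c = 0
      · have : c ∈ U ⊓ LinearMap.ker y := ⟨hc, hy⟩
        rw [if_pos hy, if_pos this]; ring
      · have : c ∉ U ⊓ LinearMap.ker y := fun h0 => hy h0.2
        rw [if_neg hy, if_neg this]; simp
    · have : c ∉ U ⊓ LinearMap.ker y := fun h0 => hc h0.1
      rw [if_neg this]
      simp only [Complex.ofReal_zero, mul_zero]
      apply Finset.sum_eq_zero
      intro t _
      exact Set.indicator_of_notMem (by exact hc) _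
  have h2 : ∑ t : F, my ν U (t • y) = (Fintype.card F : ℝ) * sg α (U ⊓ LinearMap.ker y) := by
    exact_mod_cast h1
  rw [← h2, ← Finset.add_sum_erase univ _ (Finset.mem_univ (0 : F)), zero_smul, h.my_zero hψ U]
  rw [Finset.sum_congr rfl (fun t ht => h.my_smul hψ U y (Finset.ne_of_mem_erase ht))]
  rw [Finset.sum_const, Finset.card_erase_of_mem (Finset.mem_univ _), Finset.card_univ,
    nsmul_eq_mul, Nat.cast_sub Fintype.card_pos]
  push_cast
  ring

/-- The sum of the coset means. -/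
theorem sum_my (ν : Module.Dual F V → ℤ) (U : Submodule F V) [Fintype (V ⧸ U)] :
    ∑ y : Module.Dual F V, my ν U y = ∑ x, (ν x : ℝ) := by
  classical
  have hY := card_quot_pos U
  unfold my
  rw [← Finset.sum_div, Finset.sum_comm]
  have h1 : ∀ x : Module.Dual F (V ⧸ U), ∑ y : Module.Dual F V, (shiftq ν U y x : ℝ) =
      ∑ y : Module.Dual F V, (ν y : ℝ) := by
    intro x
    unfold shiftq
    exact Equiv.sum_comp (Equiv.addRight (x ∘ₗ U.mkQ)) (fun y => (ν y : ℝ))
  simp_rw [h1]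
  rw [Finset.sum_const, Finset.card_univ, card_dual, nsmul_eq_mul]
  field_simp

end coset

end Pool.Agent.GapCodes
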