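import Mathlib
import Pool.Agent.helper17.Gap6

open Finset Module

namespace Pool.Agent.GapCodes

universe u v

attribute [local instance] fintypeDual

section dense

variable {F : Type*} [Field F] [Fintype F]
variable {V : Type u} [AddCommGroup V] [Module F V] [Fintype V] [DecidableEq V]
variable {ψ : AddChar F ℂ} {j : ℕ} {α : V → ℝ} {ν : Module.Dual F V → ℤ}

theorem card_pos_real (V : Type u) [AddCommGroup V] [Fintype V] :
    (0 : ℝ) < (Fintype.card V : ℝ) := by
  have : 0 < Fintype.card V := Fintype.card_pos_iff.mpr ⟨0⟩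
  exact_mod_cast this

/-- Dense case: the deficiency is polynomially bounded. -/
theorem PF.deficiency (h : PF ψ j α ν) (hψ : ψ ≠ 0) (hs : 3 / 4 < α 0) :
    (Fintype.card V : ℝ) * (1 - α 0) ≤ 9 * (1 + (j : ℝ)) ^ 3 := by
  have hX := card_pos_real V
  have hstar := h.star hψ
  have hvge := h.var_ge' hψ
  have hj0 : (0 : ℝ) ≤ (j : ℝ) := by positivity
  set s := α 0 with hsdef
  set v := vv α with hv
  set X := (Fintype.card V : ℝ) with hXdef
  set T : ℝ := 1 + (j : ℝ) with hTdef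
  have hT : 1 ≤ T := by linarith
  have hT3 : 0 < T ^ 3 := by positivity
  rcases le_or_gt 1 s with h1 | h1
  · have : X * (1 - s) ≤ 0 := mul_nonpos_of_nonneg_of_nonpos hX.le (by linarith)
    linarith
  · have hh0 : 0 < 1 - s := by linarith
    have hhv : 1 - s ≤ 4 / 3 * v := by
      have : (3 / 4 : ℝ) * (1 - s) ≤ s * (1 - s) := mul_le_mul_of_nonneg_right hs.le hh0.le
      linarith
    have hv0 : 0 < v := by linarith
    have h2 : 2 / 3 * v ≤ v - (1 - s) ^ 2 := by
      have : (1 - s) * (1 - s) ≤ 1 / 4 * (1 - s) := mul_le_mul_of_nonneg_right (by linarith) hh0.le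
      linarith
    have h3 : X * (1 - s) * v * (2 / 3 * v) ≤ X * (1 - s) * v * (v - (1 - s) ^ 2) :=
      mul_le_mul_of_nonneg_left h2 (by positivity)
    have h4 : v + (1 - s) * (T - s) ≤ v * (7 / 3 * T) := by
      have e1 : (1 - s) * (T - s) ≤ (4 / 3 * v) * T :=
        mul_le_mul hhv (by linarith) (by linarith) (by linarith)
      have e2 : v * 1 ≤ v * T := mul_le_mul_of_nonneg_left hT hv0.le
      linarith
    have h5 : 0 ≤ v + (1 - s) * (T - s) := by
      have : 0 ≤ (1 - s) * (T - s) := mul_nonneg hh0.le (by linarith)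
      linarith
    have h6 : (v + (1 - s) * (T - s)) ^ 2 ≤ (v * (7 / 3 * T)) ^ 2 := pow_le_pow_left₀ h5 h4 2
    have h7 : (j : ℝ) * (v + (1 - s) * (T - s)) ^ 2 ≤ T * (v * (7 / 3 * T)) ^ 2 :=
      mul_le_mul (by linarith) h6 (by positivity) (by linarith)
    have h8 : v ^ 2 * (X * (1 - s) * (2 / 3)) ≤ v ^ 2 * (49 / 9 * T ^ 3) := by
      linarith
    have h9 : X * (1 - s) * (2 / 3) ≤ 49 / 9 * T ^ 3 := le_of_mul_le_mul_left h8 (by positivity)
    linarith

/-- Every coefficient is small in the dense case. -/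
theorem PF.coef_le (h : PF ψ j α ν) (hψ : ψ ≠ 0) {c : V} (hc : c ≠ 0) :
    (Fintype.card V : ℝ) * α c ≤ 2 * j + (Fintype.card V : ℝ) * (1 - α 0) := by
  classical
  have h1 := h.sum_mul_ch hψ c
  have h2 : ∑ x : Module.Dual F V, ch ψ (-c) x = 0 := by
    rw [sum_ch ψ hψ, if_neg (by simpa using hc)]
  have h3 : ∑ x : Module.Dual F V, (((ν x : ℤ) : ℂ) - 1) * ch ψ (-c) x =
      (((Fintype.card V : ℝ) * α c : ℝ) : ℂ) := by
    have : ∑ x : Module.Dual F V, (((ν x : ℤ) : ℂ) - 1) * ch ψ (-c) x =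
        ∑ x : Module.Dual F V, ((ν x : ℤ) : ℂ) * ch ψ (-c) x -
          ∑ x : Module.Dual F V, ch ψ (-c) x := by
      rw [← Finset.sum_sub_distrib]
      apply Finset.sum_congr rfl
      intro x _
      ring
    rw [this, h1, h2, sub_zero]
    push_cast
    rfl
  have h4 : (Fintype.card V : ℝ) * α c ≤ ∑ x : Module.Dual F V, |(ν x : ℝ) - 1| := by
    have e1 : ‖∑ x : Module.Dual F V, (((ν x : ℤ) : ℂ) - 1) * ch ψ (-c) x‖ =
        (Fintype.card V : ℝ) * α c := by
      rw [h3, Complex.norm_real, Real.norm_of_nonneg (mul_nonneg (by positivity) (h.nn c))]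
    rw [← e1]
    refine le_trans (norm_sum_le _ _) ?_
    apply Finset.sum_le_sum
    intro x _
    rw [norm_mul, norm_ch, mul_one]
    have : (((ν x : ℤ) : ℂ) - 1) = (((ν x : ℝ) - 1 : ℝ) : ℂ) := by push_cast; rfl
    rw [this, Complex.norm_real, Real.norm_eq_abs]
  have h5 := h.sum_one hψ
  rw [← Finset.add_sum_erase univ _ (Finset.mem_univ (0 : Module.Dual F V))] at h4 h5
  have hz : (ν 0 : ℝ) = 1 + j := by rw [h.zero]; push_cast; ring
  have h6 : ∑ x ∈ univ.erase (0 : Module.Dual F V), |(ν x : ℝ) - 1| =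
      ∑ x ∈ univ.erase (0 : Module.Dual F V), (1 - (ν x : ℝ)) := by
    apply Finset.sum_congr rfl
    intro x hx
    have : (ν x : ℝ) ≤ 1 := by exact_mod_cast h.le x (Finset.ne_of_mem_erase hx)
    rw [abs_of_nonpos (by linarith)]; ring
  rw [h6, Finset.sum_sub_distrib, Finset.sum_const, Finset.card_erase_of_mem (Finset.mem_univ _),
    Finset.card_univ, card_dual, nsmul_eq_mul, mul_one, Nat.cast_sub
      (Fintype.card_pos_iff.mpr ⟨0⟩ : 0 < Fintype.card V), hz] at h4
  rw [hz] at h5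
  have hj0 : (0 : ℝ) ≤ (j : ℝ) := by positivity
  have h7 : |(1 : ℝ) + j - 1| = j := by rw [add_sub_cancel_left, abs_of_nonneg hj0]
  rw [h7] at h4
  push_cast at h4
  linarith

theorem PF.zero_le_one_add (h : PF ψ j α ν) : α 0 ≤ 1 + j := by
  have h1 := h.sum_alpha
  rw [← Finset.add_sum_erase univ _ (Finset.mem_univ (0 : V))] at h1
  have : 0 ≤ ∑ c ∈ univ.erase (0 : V), α c := Finset.sum_nonneg (fun c _ => h.nn c)
  linarith

theorem PF.vv_small (h : PF ψ j α ν) (hψ : ψ ≠ 0) (hs : 3 / 4 < α 0) :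
    (Fintype.card V : ℝ) * vv α ≤ 11 * (1 + (j : ℝ)) ^ 4 := by
  have hX := card_pos_real V
  have h1 := h.deficiency hψ hs
  have h2 := h.zero_le_one_add
  have hj0 : (0 : ℝ) ≤ (j : ℝ) := by positivity
  have hsum := h.sum_alpha
  rw [← Finset.add_sum_erase univ _ (Finset.mem_univ (0 : V))] at hsum
  set T : ℝ := 1 + (j : ℝ) with hTdef
  have hT : 1 ≤ T := by linarith
  have hT3 : T ≤ T ^ 3 := by
    calc T = T ^ 1 := (pow_one T).symm
      _ ≤ T ^ 3 := pow_le_pow_right₀ hT (by norm_num)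
  have h3 : (Fintype.card V : ℝ) * vv α ≤
      (11 * T ^ 3) * ∑ c ∈ univ.erase (0 : V), α c := by
    unfold vv
    rw [Finset.mul_sum, Finset.mul_sum]
    apply Finset.sum_le_sum
    intro c hc
    have e1 := h.coef_le hψ (Finset.ne_of_mem_erase hc)
    have e2 : (Fintype.card V : ℝ) * α c ≤ 11 * T ^ 3 := by linarith
    have e3 := mul_le_mul_of_nonneg_right e2 (h.nn c)
    calc (Fintype.card V : ℝ) * α c ^ 2 = (Fintype.card V : ℝ) * α c * α c := by ring
      _ ≤ _ := e3
  have h4 : ∑ c ∈ univ.erase (0 : V), α c ≤ T := by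
    have := h.nn 0
    linarith
  calc (Fintype.card V : ℝ) * vv α ≤ (11 * T ^ 3) * ∑ c ∈ univ.erase (0 : V), α c := h3
    _ ≤ (11 * T ^ 3) * T := mul_le_mul_of_nonneg_left h4 (by positivity)
    _ = 11 * T ^ 4 := by ring

/-- Trivial upper bound for the mean. -/
theorem PF.mean_le (h : PF ψ j α ν) (hψ : ψ ≠ 0) :
    (Fintype.card V : ℝ) * α 0 ≤ Fintype.card V + j := by
  classical
  have h5 := h.sum_one hψ
  rw [← Finset.add_sum_erase univ _ (Finset.mem_univ (0 : Module.Dual F V))] at h5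
  have hz : (ν 0 : ℝ) = 1 + j := by rw [h.zero]; push_cast; ring
  have h6 : ∑ x ∈ univ.erase (0 : Module.Dual F V), (ν x : ℝ) ≤
      ∑ x ∈ univ.erase (0 : Module.Dual F V), (1 : ℝ) := by
    apply Finset.sum_le_sum
    intro x hx
    exact_mod_cast h.le x (Finset.ne_of_mem_erase hx)
  rw [Finset.sum_const, Finset.card_erase_of_mem (Finset.mem_univ _),
    Finset.card_univ, card_dual, nsmul_eq_mul, mul_one, Nat.cast_sub
      (Fintype.card_pos_iff.mpr ⟨0⟩ : 0 < Fintype.card V)] at h6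
  rw [hz] at h5
  push_cast at h6
  linarith

end dense

section final

variable {F : Type*} [Field F] [Fintype F]
variable {V : Type u} [AddCommGroup V] [Module F V] [Fintype V] [DecidableEq V]
variable {ψ : AddChar F ℂ} {j : ℕ} {α : V → ℝ} {ν : Module.Dual F V → ℤ}

/-- Numeric part of the classification of coset means. -/
theorem num_coset (q m s η ε σ' τ : ℝ) (hq : 2 ≤ q) (hε0 : 0 < ε)
    (hs : 3 / 4 < s) (hs1 : s ≤ 1 + τ) (hτ : τ ≤ ε / 10) (hη : η ≤ ε / 10)
    (hσ1 : σ' ≤ 3 / 4) (hσ2 : ε ≤ σ') (heq : q * σ' = s + (q - 1) * m)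
    (h1 : m - m ^ 2 ≤ η) (h2 : -m - m ^ 2 ≤ η) : |m| ≤ 4 * η := by
  have hm : m < 3 / 4 := by
    by_contra hcon
    push Not at hcon
    have e1 : (q - 1) * (3 / 4) ≤ (q - 1) * m := mul_le_mul_of_nonneg_left hcon (by linarith)
    have e2 : q * σ' ≤ q * (3 / 4) := mul_le_mul_of_nonneg_left hσ1 (by linarith)
    linarith
  rcases le_or_gt 0 m with hm0 | hm0
  · rw [abs_of_nonneg hm0]
    have e1 : m * m ≤ 3 / 4 * m := mul_le_mul_of_nonneg_right hm.le hm0
    linarith
  · rw [abs_of_neg hm0]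
    rcases le_or_gt (-m) (3 / 4) with hm1 | hm1
    · have e1 : (-m) * (-m) ≤ 3 / 4 * (-m) := mul_le_mul_of_nonneg_right hm1 (by linarith)
      linarith
    · exfalso
      have h3 : 1 - 4 / 3 * η ≤ -m := by
        rcases le_or_gt (-m) 1 with h4 | h4
        · have e1 : 3 / 4 * (1 + m) ≤ (-m) * (1 + m) :=
            mul_le_mul_of_nonneg_right hm1.le (by linarith)
          linarith
        · have hη0 : 0 ≤ η := by
            by_contra hneg
            push Not at hneg
            -- then from h1 with m negative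
            have e1 : m ^ 2 > 1 := by nlinarith
            have e2 : (q - 1) * (-m) = s - q * σ' := by linarith
            have e3 : 1 * (-m) ≤ (q - 1) * (-m) := mul_le_mul_of_nonneg_right (by linarith) (by linarith)
            have e4 : q * ε ≤ q * σ' := mul_le_mul_of_nonneg_left hσ2 (by linarith)
            have e5 : 2 * ε ≤ q * ε := mul_le_mul_of_nonneg_right hq hε0.le
            linarith
          linarith
      have e2 : (q - 1) * (-m) = s - q * σ' := by linarith
      have e3 : (q - 1) * (1 - 4 / 3 * η) ≤ (q - 1) * (-m) :=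
        mul_le_mul_of_nonneg_left h3 (by linarith)
      have e4 : q * ε ≤ q * σ' := mul_le_mul_of_nonneg_left hσ2 (by linarith)
      have e5 : (q - 1) * (4 / 3 * η) ≤ (q - 1) * (4 / 3 * (ε / 10)) :=
        mul_le_mul_of_nonneg_left (by linarith) (by linarith)
      have e6 : 2 * ε ≤ q * ε := mul_le_mul_of_nonneg_right hq hε0.le
      nlinarith

omit [Fintype F] in
theorem PF.alpha_zero_le_sg (h : PF ψ j α ν) (U : Submodule F V) : α 0 ≤ sg α U := by
  classical
  unfold sg
  rw [← Finset.add_sum_erase univ _ (Finset.mem_univ (0 : V)), if_pos (Submodule.zero_mem U)]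
  have : 0 ≤ ∑ c ∈ univ.erase (0 : V), (if c ∈ U then α c else 0) := by
    apply Finset.sum_nonneg
    intro c _
    split_ifs
    · exact h.nn c
    · exact le_refl _
  linarith

omit [DecidableEq V] in
open Classical in
/-- Number of functionals vanishing on `U`. -/
theorem card_annih (U : Submodule F V) [Fintype (V ⧸ U)] :
    (univ.filter (fun y : Module.Dual F V => U ≤ LinearMap.ker y)).card =
      Fintype.card (V ⧸ U) := by
  rw [← card_dual (F := F) (V := V ⧸ U), ← Finset.card_univ (α := Module.Dual F (V ⧸ U))]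
  symm
  apply Finset.card_bij (fun x _ => x ∘ₗ U.mkQ)
  · intro x _
    rw [Finset.mem_filter]
    refine ⟨Finset.mem_univ _, ?_⟩
    intro c hc
    have : U.mkQ c = 0 := by simpa using hc
    rw [LinearMap.mem_ker, LinearMap.comp_apply, this, map_zero]
  · intro x _ x' _ hxx
    ext c
    simpa using LinearMap.congr_fun hxx c
  · intro y hy
    rw [Finset.mem_filter] at hy
    exact ⟨U.liftQ y hy.2, Finset.mem_univ _, Submodule.liftQ_mkQ U y hy.2⟩

set_option maxHeartbeats 1000000 in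
/-- The gap theorem for integer valued functions with nonnegative Fourier coefficients. -/
theorem PF.gap (h : PF ψ j α ν) (hψ : ψ ≠ 0) {ε : ℝ} (hε0 : 0 < ε) (hε : ε ≤ 1 / 2)
    (hs1 : ε ≤ α 0) {K I : ℕ} (hK : 2 ≤ K) (hKε : 1 ≤ K * ε)
    (hI : 3 / 4 < I * (ε / (40 * (K + 1))))
    (hX : 400 * (1 + (j : ℝ)) ^ (2 * K + 1) ≤
      ε ^ 2 * (Fintype.card F : ℝ) ^ (finrank F V - I)) :
    ∃ δ : ℕ, δ ≤ finrank F V ∧
      |(Fintype.card V : ℝ) * α 0 - (Fintype.card F : ℝ) ^ (finrank F V - δ)| ≤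
        100 / ε * (1 + (j : ℝ)) ^ 4 := by
  classical
  obtain ⟨U₀, hU₀1, hU₀2⟩ := h.exists_dense hψ hε0 hε hs1 hK hKε hI hX
  -- minimal dimension
  have hex : ∃ n, ∃ U : Submodule F V, finrank F U = n ∧ 3 / 4 < sg α U :=
    ⟨_, U₀, rfl, hU₀2⟩
  obtain ⟨U, hUr, hUs⟩ := Nat.find_spec hex
  have hmin : ∀ U' : Submodule F V, finrank F U' < finrank F U → sg α U' ≤ 3 / 4 := by
    intro U' hU'
    rw [hUr] at hU'
    have := Nat.find_min hex hU'
    by_contra hcon
    push Not at hcon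
    exact this ⟨U', rfl, hcon⟩
  have hUI : finrank F U ≤ I := by
    rw [hUr]
    exact le_trans (Nat.find_min' hex ⟨U₀, rfl, hU₀2⟩) hU₀1
  refine ⟨finrank F U, Submodule.finrank_le _, ?_⟩
  let _ : Fintype (V ⧸ U) := Fintype.ofFinite _
  have hq := h.quot U
  have hq0 : aq α U 0 = sg α U := aq_zero α U
  have hdef := hq.deficiency hψ (by rw [hq0]; exact hUs)
  have hvv := hq.vv_small hψ (by rw [hq0]; exact hUs)
  have hmean := hq.mean_le hψ
  rw [hq0] at hdef hmean
  have hY := card_quot_pos U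
  have hcard : (Fintype.card (V ⧸ U) : ℝ) =
      (Fintype.card F : ℝ) ^ (finrank F V - finrank F U) := by
    have h1 : Fintype.card (V ⧸ U) = Fintype.card F ^ finrank F (V ⧸ U) :=
      Module.card_eq_pow_finrank
    have h2 := Submodule.finrank_quotient_add_finrank U
    have h3 : finrank F (V ⧸ U) = finrank F V - finrank F U := by omega
    rw [h1, h3]; push_cast; rfl
  have hq2 : (2 : ℝ) ≤ (Fintype.card F : ℝ) := by
    have : 1 < Fintype.card F := Fintype.one_lt_card
    exact_mod_cast this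
  have hXR : (Fintype.card V : ℝ) =
      (Fintype.card F : ℝ) ^ finrank F U * (Fintype.card (V ⧸ U) : ℝ) := by
    have h1 : Fintype.card V = Fintype.card F ^ finrank F V := Module.card_eq_pow_finrank
    rw [hcard, ← pow_add, h1]
    push_cast
    congr 1
    have := Submodule.finrank_le U
    omega
  have hbigY : 400 * (1 + (j : ℝ)) ^ 5 ≤ ε ^ 2 * (Fintype.card (V ⧸ U) : ℝ) := by
    have hT : (1 : ℝ) ≤ 1 + (j : ℝ) := by
      have : (0 : ℝ) ≤ (j : ℝ) := by positivity
      linarith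
    calc 400 * (1 + (j : ℝ)) ^ 5 ≤ 400 * (1 + (j : ℝ)) ^ (2 * K + 1) :=
          mul_le_mul_of_nonneg_left (pow_le_pow_right₀ hT (by omega)) (by norm_num)
      _ ≤ _ := hX
      _ ≤ _ := by
        rw [hcard]
        apply mul_le_mul_of_nonneg_left _ (by positivity)
        exact pow_le_pow_right₀ (by linarith) (by omega)
  rw [← hcard]
  have hsum := sum_my ν U
  rw [h.sum_one hψ] at hsum
  have hannih := card_annih U
  have hXpos := card_pos_real V
  set X : ℝ := (Fintype.card V : ℝ) with hXdef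
  set Y : ℝ := (Fintype.card (V ⧸ U) : ℝ) with hYdef
  set R : ℝ := (Fintype.card F : ℝ) ^ finrank F U with hRdef
  set T : ℝ := 1 + (j : ℝ) with hTdef
  set s := sg α U with hsdef
  have hj0 : (0 : ℝ) ≤ (j : ℝ) := by positivity
  have hT : 1 ≤ T := by linarith
  have hRpos : 0 < R := by positivity
  have hT45 : T ^ 4 ≤ T ^ 5 := pow_le_pow_right₀ hT (by norm_num)
  have hT15 : T ≤ T ^ 5 := by
    calc T = T ^ 1 := (pow_one T).symm
      _ ≤ T ^ 5 := pow_le_pow_right₀ hT (by norm_num)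
  have hT34 : T ^ 3 ≤ T ^ 4 := pow_le_pow_right₀ hT (by norm_num)
  have hT14 : T ≤ T ^ 4 := by
    calc T = T ^ 1 := (pow_one T).symm
      _ ≤ T ^ 4 := pow_le_pow_right₀ hT (by norm_num)
  have hεε : ε ^ 2 ≤ ε / 2 := by nlinarith
  have hη : vv (aq α U) ≤ ε / 10 := by
    have e1 : Y * vv (aq α U) ≤ Y * (ε / 10) := by
      have : ε ^ 2 * Y ≤ ε / 2 * Y := mul_le_mul_of_nonneg_right hεε hY.le
      linarith
    exact le_of_mul_le_mul_left e1 hY
  have hs1' : s ≤ 1 + ε / 10 := by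
    have e1 : Y * s ≤ Y * (1 + ε / 10) := by
      have : ε ^ 2 * Y ≤ ε / 2 * Y := mul_le_mul_of_nonneg_right hεε hY.le
      linarith
    exact le_of_mul_le_mul_left e1 hY
  -- the coset means
  have hmy1 : ∀ y : Module.Dual F V, U ≤ LinearMap.ker y → my ν U y = s := by
    intro y hy
    have e1 := h.sg_inf_ker hψ U y
    rw [inf_eq_left.mpr hy] at e1
    have e2 : ((Fintype.card F : ℝ) - 1) * my ν U y = ((Fintype.card F : ℝ) - 1) * s := by
      linarith
    exact mul_left_cancel₀ (by linarith) e2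
  have hmy2 : ∀ y : Module.Dual F V, ¬ U ≤ LinearMap.ker y → |my ν U y| ≤ 4 * vv (aq α U) := by
    intro y hy
    have e1 := h.sg_inf_ker hψ U y
    have e2 : sg α (U ⊓ LinearMap.ker y) ≤ 3 / 4 := by
      apply hmin
      apply Submodule.finrank_lt_finrank_of_lt
      refine lt_of_le_of_ne inf_le_left ?_
      intro h0
      exact hy (inf_eq_left.mp h0)
    have e3 : ε ≤ sg α (U ⊓ LinearMap.ker y) := le_trans hs1 (h.alpha_zero_le_sg _)
    obtain ⟨e4, e5⟩ := h.my_int hψ U y
    exact num_coset (Fintype.card F : ℝ) (my ν U y) s (vv (aq α U)) ε _ (ε / 10) hq2 hε0 hUs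
      hs1' (le_refl _) hη e2 e3 e1 e4 e5
  -- total
  have htot : |X * α 0 - Y * s| ≤ X * (4 * vv (aq α U)) := by
    have e1 : X * α 0 - Y * s =
        ∑ y ∈ univ.filter (fun y : Module.Dual F V => ¬ U ≤ LinearMap.ker y), my ν U y := by
      rw [← hsum, ← Finset.sum_filter_add_sum_filter_not univ
        (fun y : Module.Dual F V => U ≤ LinearMap.ker y)]
      rw [Finset.sum_congr rfl (fun y hy => hmy1 y (Finset.mem_filter.mp hy).2)]
      rw [Finset.sum_const, hannih, nsmul_eq_mul]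
      ring
    rw [e1]
    refine le_trans (Finset.abs_sum_le_sum_abs _ _) ?_
    have hvv0 := vv_nonneg (aq α U)
    calc _ ≤ ∑ y ∈ univ.filter (fun y : Module.Dual F V => ¬ U ≤ LinearMap.ker y),
          4 * vv (aq α U) :=
          Finset.sum_le_sum (fun y hy => hmy2 y (Finset.mem_filter.mp hy).2)
      _ ≤ ∑ _y : Module.Dual F V, 4 * vv (aq α U) :=
          Finset.sum_le_sum_of_subset_of_nonneg (Finset.filter_subset _ _)
            (fun _ _ _ => by positivity)
      _ = X * (4 * vv (aq α U)) := by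
          rw [Finset.sum_const, Finset.card_univ, card_dual, nsmul_eq_mul]
  have htot2 : |X * α 0 - Y * s| ≤ 44 * T ^ 4 * R := by
    refine le_trans htot ?_
    rw [hXR]
    have : R * (Y * vv (aq α U)) ≤ R * (11 * T ^ 4) := mul_le_mul_of_nonneg_left hvv hRpos.le
    linarith
  have hR2 : R ≤ 2 / ε := by
    rw [le_div_iff₀ hε0]
    have e1 := (abs_le.mp htot2).2
    -- X ε ≤ X α0 ≤ Y s + 44 T^4 R
    have e2 : X * ε ≤ X * α 0 := mul_le_mul_of_nonneg_left hs1 hXpos.le
    have e3 : 44 * T ^ 4 ≤ ε / 10 * Y * (11 / 10) := by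
      have : ε ^ 2 * Y ≤ ε / 2 * Y := mul_le_mul_of_nonneg_right hεε hY.le
      linarith
    have e4 : 44 * T ^ 4 * R ≤ (ε / 10 * Y * (11 / 10)) * R :=
      mul_le_mul_of_nonneg_right e3 hRpos.le
    have e5 : Y * s ≤ Y * (1 + ε / 10) := mul_le_mul_of_nonneg_left hs1' hY.le
    rw [hXR] at e1 e2
    have e6 : Y * (R * ε) ≤ Y * ((1 + ε / 10) + (11 / 100) * ε * R) := by
      linarith
    have e7 : R * ε ≤ (1 + ε / 10) + (11 / 100) * ε * R := le_of_mul_le_mul_left e6 hY
    linarith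
  have hYs : |Y * s - Y| ≤ 9 * T ^ 4 := by
    rw [abs_le]
    constructor
    · linarith
    · linarith
  have hfin : |X * α 0 - Y| ≤ 44 * T ^ 4 * R + 9 * T ^ 4 := by
    have : X * α 0 - Y = (X * α 0 - Y * s) + (Y * s - Y) := by ring
    rw [this]
    exact le_trans (abs_add_le _ _) (add_le_add htot2 hYs)
  have hT4 : 0 < T ^ 4 := by positivity
  have h9 : 44 * T ^ 4 * R ≤ 44 * T ^ 4 * (2 / ε) := mul_le_mul_of_nonneg_left hR2 (by positivity)
  have h10 : (2 : ℝ) ≤ 1 / ε := by
    rw [le_div_iff₀ hε0]; linarith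
  have h11 : 9 * T ^ 4 ≤ 12 * (1 / ε) * T ^ 4 :=
    mul_le_mul_of_nonneg_right (by linarith) hT4.le
  have h12 : 44 * T ^ 4 * (2 / ε) + 12 * (1 / ε) * T ^ 4 = 100 / ε * T ^ 4 := by ring
  linarith

end final

end Pool.Agent.GapCodes
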