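import Mathlib
import Pool.Agent.helper17.Gap7
import Pool.Agent.helper17.Core10

open Finset Module

namespace Pool.Agent.GapCodes

universe u v

attribute [local instance] fintypeDual

section code

variable {F : Type*} [Field F] [Fintype F] [DecidableEq F]
variable {V : Type u} [AddCommGroup V] [Module F V] [Fintype V]
variable {ι : Type v} [Fintype ι]

open Pool.Agent.NearPlotkin

/-- Sum over the space for a fixed functional. -/
theorem sum_ch_left (ψ : AddChar F ℂ) (hψ : ψ ≠ 0) (x : Module.Dual F V) [Decidable (x = 0)] :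
    ∑ c : V, ch ψ c x = if x = 0 then (Fintype.card V : ℂ) else 0 := by
  classical
  by_cases hx : x = 0
  · subst hx
    simp [ch_at_zero]
  · rw [if_neg hx]
    let Ψ : AddChar V ℂ := ψ.compAddMonoidHom x.toAddMonoidHom
    have hΨ : ∀ c, Ψ c = ch ψ c x := fun c => rfl
    have hne : Ψ ≠ 0 := by
      obtain ⟨a, ha⟩ : ∃ a, ψ a ≠ 1 := by
        by_contra hcon
        push Not at hcon
        exact hψ (by ext a; simpa using hcon a)
      obtain ⟨c, hc⟩ : ∃ c, x c ≠ 0 := by
        by_contra hcon
        push Not at hcon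
        exact hx (LinearMap.ext (by simpa using hcon))
      intro h0
      have h1 : Ψ ((a / x c) • c) = 1 := by rw [h0]; simp
      apply ha
      rw [hΨ] at h1
      unfold ch at h1
      rw [map_smul, smul_eq_mul, div_mul_cancel₀ _ hc] at h1
      exact h1
    have := AddChar.sum_eq_ite Ψ
    rw [if_neg hne] at this
    rw [← this]
    rfl

open Classical in
/-- Multiplicity of `-x` among the scalar multiples of the coordinate functionals. -/
noncomputable def mu (e : ι → Module.Dual F V) (x : Module.Dual F V) : ℕ :=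
  ((univ ×ˢ (univ.erase (0 : F))).filter (fun p : ι × F => p.2 • e p.1 + x = 0)).card

open Classical in
/-- The integer valued function of a code. -/
noncomputable def nuF (e : ι → Module.Dual F V) (j : ℕ) (x : Module.Dual F V) : ℤ :=
  1 - mu e x + (if x = 0 then (j : ℤ) else 0)

open Classical in
/-- Its Fourier coefficients. -/
noncomputable def alF (e : ι → Module.Dual F V) (j : ℕ) (c : V) : ℝ :=
  ((if c = 0 then (Fintype.card V : ℝ) else 0) + j - gS e univ c) / Fintype.card V

omit [Fintype V] in
theorem gS_char (ψ : AddChar F ℂ) (hψ : ψ ≠ 0) (e : ι → Module.Dual F V) (c : V) :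
    ((gS e univ c : ℝ) : ℂ) = ∑ p ∈ univ ×ˢ (univ.erase (0 : F)), ch ψ c (p.2 • e p.1) := by
  classical
  unfold gS hh kerInd
  rw [Finset.sum_product]
  push_cast
  apply Finset.sum_congr rfl
  intro i _
  have h1 := sum_scalar hψ (e i c)
  rw [← Finset.add_sum_erase univ _ (Finset.mem_univ (0 : F))] at h1
  rw [zero_mul, AddChar.map_zero_eq_one] at h1
  have h2 : ∀ a : F, ch ψ c (a • e i) = ψ (a * e i c) := fun a => rfl
  simp_rw [h2]
  have h3 : ∑ x ∈ univ.erase (0 : F), ψ (x * e i c) =
      (if e i c = 0 then (Fintype.card F : ℂ) else 0) - 1 := by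
    rw [← h1]; ring
  rw [h3]
  by_cases h4 : e i c = 0 <;> simp [h4]

theorem nuF_rep (ψ : AddChar F ℂ) (hψ : ψ ≠ 0) (e : ι → Module.Dual F V) (j : ℕ)
    (x : Module.Dual F V) :
    ((nuF e j x : ℤ) : ℂ) = ∑ c, (alF e j c : ℂ) * ch ψ c x := by
  classical
  have hX : (Fintype.card V : ℂ) ≠ 0 := by
    have : 0 < Fintype.card V := Fintype.card_pos_iff.mpr ⟨0⟩
    exact_mod_cast this.ne'
  have h1 : ∑ c : V, (alF e j c : ℂ) * ch ψ c x =
      (∑ c : V, ((if c = 0 then (Fintype.card V : ℂ) else 0) * ch ψ c x + j * ch ψ c x -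
        ((gS e univ c : ℝ) : ℂ) * ch ψ c x)) / Fintype.card V := by
    rw [Finset.sum_div]
    apply Finset.sum_congr rfl
    intro c _
    unfold alF
    split_ifs <;> push_cast <;> ring
  have h2 : ∑ c : V, ((gS e univ c : ℝ) : ℂ) * ch ψ c x = (mu e x : ℂ) * Fintype.card V := by
    have h3 : ∀ c : V, ((gS e univ c : ℝ) : ℂ) * ch ψ c x =
        ∑ p ∈ univ ×ˢ (univ.erase (0 : F)), ch ψ c (p.2 • e p.1 + x) := by
      intro c
      rw [gS_char ψ hψ, Finset.sum_mul]
      apply Finset.sum_congr rfl
      intro p _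
      rw [ch_add_right]
    simp_rw [h3]
    rw [Finset.sum_comm]
    simp_rw [sum_ch_left ψ hψ]
    rw [← Finset.sum_filter, Finset.sum_const, nsmul_eq_mul]
    rfl
  rw [h1, Finset.sum_sub_distrib, Finset.sum_add_distrib, h2, ← Finset.mul_sum,
    sum_ch_left ψ hψ]
  have h4 : ∑ c : V, (if c = 0 then (Fintype.card V : ℂ) else 0) * ch ψ c x =
      Fintype.card V := by
    rw [Finset.sum_eq_single 0]
    · simp [ch_zero]
    · intro b _ hb; simp [hb]
    · simp
  rw [h4]
  unfold nuF
  push_cast
  by_cases hx : x = 0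
  · rw [if_pos hx, if_pos hx]; field_simp; ring
  · rw [if_neg hx, if_neg hx]; field_simp; ring

/-- A code gives an integer valued function with nonnegative Fourier coefficients. -/
theorem code_PF (ψ : AddChar F ℂ) (hψ : ψ ≠ 0) (e : ι → Module.Dual F V) (j : ℕ)
    (hne : ∀ i, e i ≠ 0)
    (hup : ∀ c : V, c ≠ 0 → Fintype.card F * zc e c ≤ Fintype.card ι + j)
    (hN : ((Fintype.card F : ℝ) - 1) * Fintype.card ι ≤ Fintype.card V) :
    PF ψ j (alF e j) (nuF e j) := by
  classical
  have hX := card_pos_real V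
  have hj0 : (0 : ℝ) ≤ (j : ℝ) := by positivity
  refine ⟨?_, ?_, nuF_rep ψ hψ e j, ?_, ?_⟩
  · intro c
    unfold alF
    apply div_nonneg _ hX.le
    by_cases hc : c = 0
    · subst hc
      rw [if_pos rfl, gS_zero]
      linarith
    · rw [if_neg hc, gS_univ]
      have h1 := hup c hc
      have h2 : (Fintype.card F : ℝ) * zc e c ≤ Fintype.card ι + j := by exact_mod_cast h1
      linarith
  · intro a c ha
    unfold alF
    have h1 : (a • c = 0) ↔ c = 0 := by
      constructor
      · intro h
        rcases smul_eq_zero.mp h with h2 | h2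
        · exact absurd h2 ha
        · exact h2
      · rintro rfl; exact smul_zero a
    have h2 : gS e univ (a • c) = gS e univ c := by
      rw [gS_univ, gS_univ]
      congr 2
      unfold zc
      congr 2
      ext i
      simp [map_smul, ha]
    rw [h2]
    by_cases hc : c = 0
    · rw [if_pos hc, if_pos (h1.mpr hc)]
    · rw [if_neg hc, if_neg (fun h => hc (h1.mp h))]
  · unfold nuF
    rw [if_pos rfl]
    have h1 : mu e (0 : Module.Dual F V) = 0 := by
      unfold mu
      rw [Finset.card_eq_zero, Finset.filter_eq_empty_iff]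
      rintro ⟨i, a⟩ hp h0
      rw [Finset.mem_product] at hp
      have ha : a ≠ 0 := Finset.ne_of_mem_erase hp.2
      rw [add_zero] at h0
      rcases smul_eq_zero.mp h0 with h2 | h2
      · exact ha h2
      · exact hne i h2
    rw [h1]
    push_cast; ring
  · intro x hx
    unfold nuF
    rw [if_neg hx]
    have : (0 : ℤ) ≤ (mu e x : ℤ) := by positivity
    linarith

theorem alF_zero (e : ι → Module.Dual F V) (j : ℕ) :
    (Fintype.card V : ℝ) * alF e j (0 : V) =
      Fintype.card V + j - ((Fintype.card F : ℝ) - 1) * Fintype.card ι := by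
  have hX := card_pos_real V
  unfold alF
  rw [if_pos rfl, gS_zero]
  field_simp

end code

end Pool.Agent.GapCodes
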